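import Mathlib

/-! # the main term is not `O(x / (log x)^3)` -/

set_option autoImplicit false

namespace Pool.MP_92ef0c_nt.PB

open Finset

private theorem prod_tele (N : ℕ) :
    (1 / 2 : ℝ) ≤ ∏ n ∈ Icc 2 (N + 1), (1 - 1 / (n : ℝ) ^ 2) := by
  have h : ∀ N : ℕ, ∏ n ∈ Icc 2 (N + 1), (1 - 1 / (n : ℝ) ^ 2) = ((N : ℝ) + 2) / (2 * (N + 1)) := by
    intro N
    induction N with
    | zero => norm_num
    | succ k ih =>
      rw [Finset.prod_Icc_succ_top (by omega), ih]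
      push_cast
      field_simp
      ring
  rw [h, div_le_div_iff₀ (by norm_num) (by positivity)]
  nlinarith

/-- finite subproducts of the twin prime constant are `≥ 1/2` -/
private theorem fin_prod_ge (T : Finset {p : ℕ // p.Prime ∧ 2 < p}) :
    (1 / 2 : ℝ) ≤ ∏ p ∈ T, (1 - 1 / (((p : ℕ) : ℝ) - 1) ^ 2) := by
  classical
  set M : ℕ := T.sup (fun p => (p : ℕ)) with hM
  set U : Finset ℕ := T.image (fun p : {p : ℕ // p.Prime ∧ 2 < p} => (p : ℕ) - 1) with hU
  have h1 : ∏ p ∈ T, (1 - 1 / (((p : ℕ) : ℝ) - 1) ^ 2) = ∏ n ∈ U, (1 - 1 / (n : ℝ) ^ 2) := by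
    rw [hU, Finset.prod_image]
    · apply Finset.prod_congr rfl
      intro p _
      rw [Nat.cast_sub (by have := p.2.2; omega)]
      simp
    · intro p _ p' _ hpp
      have h1 := p.2.2
      have h2 := p'.2.2
      apply Subtype.ext
      simp only at hpp
      omega
  have h2 : U ⊆ Icc 2 (M + 1) := by
    intro n hn
    rw [hU, mem_image] at hn
    obtain ⟨p, hp, rfl⟩ := hn
    have h3 : (p : ℕ) ≤ M := Finset.le_sup (f := fun p : {p : ℕ // p.Prime ∧ 2 < p} => (p : ℕ)) hp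
    have h4 := p.2.2
    rw [mem_Icc]
    omega
  rw [h1]
  refine (prod_tele M).trans ?_
  rw [← Finset.prod_sdiff h2]
  have h5 : ∀ n ∈ Icc 2 (M + 1), (0 : ℝ) ≤ 1 - 1 / (n : ℝ) ^ 2 ∧ 1 - 1 / (n : ℝ) ^ 2 ≤ 1 := by
    intro n hn
    rw [mem_Icc] at hn
    have h6 : (2 : ℝ) ≤ n := by exact_mod_cast hn.1
    have h7 : (1 : ℝ) / (n : ℝ) ^ 2 ≤ 1 := by
      rw [div_le_one (by positivity)]
      nlinarith
    have h8 : (0 : ℝ) ≤ 1 / (n : ℝ) ^ 2 := by positivity
    constructor <;> linarith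
  have h6 : ∏ n ∈ Icc 2 (M + 1) \ U, (1 - 1 / (n : ℝ) ^ 2) ≤ 1 :=
    Finset.prod_le_one (fun n hn => (h5 n (mem_sdiff.1 hn).1).1)
      (fun n hn => (h5 n (mem_sdiff.1 hn).1).2)
  have h7 : 0 ≤ ∏ n ∈ U, (1 - 1 / (n : ℝ) ^ 2) :=
    Finset.prod_nonneg (fun n hn => (h5 n (h2 hn)).1)
  exact mul_le_of_le_one_left h7 h6

theorem twin_const_ge :
    (1 / 2 : ℝ) ≤ ∏' p : {p : ℕ // p.Prime ∧ 2 < p}, (1 - 1 / (((p : ℕ) : ℝ) - 1) ^ 2) := by
  by_cases h : Multipliable (fun p : {p : ℕ // p.Prime ∧ 2 < p} => (1 - 1 / (((p : ℕ) : ℝ) - 1) ^ 2))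
  · exact ge_of_tendsto' h.hasProd (fun T => fin_prod_ge T)
  · rw [tprod_eq_one_of_not_multipliable h]
    norm_num

/-- the main term for pairs is not `O(x / (log x)^3)` -/
theorem main_term_large (e : ℕ) (K x0 : ℝ) :
    ∃ x : ℝ, x0 ≤ x ∧ (1 : ℝ) ≤ (Real.log x) ^ (0 : ℝ) ∧ K * x / (Real.log x) ^ (3 : ℝ) <
      |(0 : ℝ) - 2 / (((Finset.range 1).filter
                (fun A => Nat.Coprime A 1 ∧ Nat.Coprime (A + e) 1)).card : ℝ)
            * (∏ p ∈ e.primeFactors.filter (fun p => 2 < p),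
                (((p : ℝ) - 1) / ((p : ℝ) - 2)))
            * (∏' p : {p : ℕ // p.Prime ∧ 2 < p}, (1 - 1 / (((p : ℕ) : ℝ) - 1) ^ 2))
            * (∫ t in (2 : ℝ)..x, 1 / (Real.log t) ^ 2)| := by
  have hcard : ((Finset.range 1).filter
      (fun A => Nat.Coprime A 1 ∧ Nat.Coprime (A + e) 1)).card = 1 := by
    simp
  have hprod : 1 ≤ ∏ p ∈ e.primeFactors.filter (fun p => 2 < p), (((p : ℝ) - 1) / ((p : ℝ) - 2)) := by
    have h0 : ∏ _p ∈ e.primeFactors.filter (fun p => 2 < p), (1 : ℝ) ≤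
        ∏ p ∈ e.primeFactors.filter (fun p => 2 < p), (((p : ℝ) - 1) / ((p : ℝ) - 2)) := by
      apply Finset.prod_le_prod (fun _ _ => zero_le_one)
      intro p hp
      rw [mem_filter] at hp
      have h1 : (3 : ℝ) ≤ p := by exact_mod_cast hp.2
      rw [one_le_div (by linarith)]
      linarith
    rwa [Finset.prod_const_one] at h0
  have hC := twin_const_ge
  rw [hcard]
  generalize (∏ p ∈ e.primeFactors.filter (fun p => 2 < p), (((p : ℝ) - 1) / ((p : ℝ) - 2))) = A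
    at hprod
  generalize (∏' p : {p : ℕ // p.Prime ∧ 2 < p}, (1 - 1 / (((p : ℕ) : ℝ) - 1) ^ 2)) = C₂ at hC
  -- choose `x` with `log x > 2 |K| + 1`
  have hev : ∀ᶠ x : ℝ in Filter.atTop, 2 * |K| + 1 ≤ Real.log x :=
    Real.tendsto_log_atTop.eventually_ge_atTop _
  obtain ⟨x, hx1, hx2, hx3⟩ := (hev.and ((Filter.eventually_ge_atTop (4 : ℝ)).and
    (Filter.eventually_ge_atTop x0))).exists
  have hlog : 0 < Real.log x := Real.log_pos (by linarith)
  refine ⟨x, hx3, by rw [Real.rpow_zero], ?_⟩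
  have hint : (x - 2) / (Real.log x) ^ 2 ≤ ∫ t in (2 : ℝ)..x, 1 / (Real.log t) ^ 2 := by
    have hcont : ContinuousOn (fun t : ℝ => 1 / (Real.log t) ^ 2) (Set.uIcc 2 x) := by
      intro t ht
      rw [Set.uIcc_of_le (by linarith)] at ht
      have h1 : 0 < Real.log t := Real.log_pos (by linarith [ht.1])
      apply ContinuousAt.continuousWithinAt
      apply ContinuousAt.div continuousAt_const
      · exact (Real.continuousAt_log (by linarith [ht.1])).pow 2
      · positivity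
    have h1 : ∫ _t in (2 : ℝ)..x, 1 / (Real.log x) ^ 2 ≤ ∫ t in (2 : ℝ)..x, 1 / (Real.log t) ^ 2 := by
      apply intervalIntegral.integral_mono_on (by linarith) intervalIntegrable_const
        hcont.intervalIntegrable
      intro t ht
      have h2 : 0 < Real.log t := Real.log_pos (by linarith [ht.1])
      have h3 : Real.log t ≤ Real.log x := Real.log_le_log (by linarith [ht.1]) ht.2
      apply one_div_le_one_div_of_le (by positivity)
      exact pow_le_pow_left₀ h2.le h3 2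
    rw [intervalIntegral.integral_const, smul_eq_mul] at h1
    refine le_trans (le_of_eq ?_) h1
    ring
  have hI0 : 0 ≤ (x - 2) / (Real.log x) ^ 2 := by
    apply div_nonneg (by linarith) (by positivity)
  have h1 : (x / 2) / (Real.log x) ^ 2 ≤
      2 / ((1 : ℕ) : ℝ) * A * C₂ * (∫ t in (2 : ℝ)..x, 1 / (Real.log t) ^ 2) := by
    have h2 : (1 : ℝ) ≤ 2 / ((1 : ℕ) : ℝ) * A * C₂ := by
      rw [Nat.cast_one, div_one]
      nlinarith
    calc (x / 2) / (Real.log x) ^ 2 ≤ (x - 2) / (Real.log x) ^ 2 := by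
          apply div_le_div_of_nonneg_right (by linarith) (by positivity)
      _ ≤ ∫ t in (2 : ℝ)..x, 1 / (Real.log t) ^ 2 := hint
      _ ≤ _ := le_mul_of_one_le_left (hI0.trans hint) h2
  have h0 : 0 ≤ (x / 2) / (Real.log x) ^ 2 := by positivity
  rw [zero_sub, abs_neg, abs_of_nonneg (h0.trans h1)]
  refine lt_of_lt_of_le ?_ h1
  have h3 : (Real.log x) ^ (3 : ℝ) = (Real.log x) ^ 2 * Real.log x := by
    rw [show (3 : ℝ) = ((3 : ℕ) : ℝ) by norm_num, Real.rpow_natCast]; ring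
  rw [h3, div_lt_div_iff₀ (by positivity) (by positivity)]
  have h4 : K < 1 / 2 * Real.log x := by
    have := le_abs_self K
    linarith
  have h5 : 0 < x * (Real.log x) ^ 2 := by positivity
  calc K * x * (Real.log x) ^ 2 = K * (x * (Real.log x) ^ 2) := by ring
    _ < 1 / 2 * Real.log x * (x * (Real.log x) ^ 2) := mul_lt_mul_of_pos_right h4 h5
    _ = x / 2 * ((Real.log x) ^ 2 * Real.log x) := by ring

end Pool.MP_92ef0c_nt.PB
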