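import Pool.Agent.Lib_MP_92ef0c_pb.Defs

/-! # [PB-J] sum and integral, proof -/

set_option autoImplicit false

namespace Pool.MP_92ef0c_nt.PB

open Finset

private theorem abj_log {n : ℕ} (hn : 3 ≤ n) : 1 ≤ Real.log (n : ℝ) := by
  have h1 : (3 : ℝ) ≤ n := by exact_mod_cast hn
  rw [Real.le_log_iff_exp_le (by linarith)]
  have := Real.exp_one_lt_d9
  linarith

private theorem abj_one {n : ℕ} (hn : 3 ≤ n) (a : ℕ) :
    |1 / Real.log ((n + a : ℕ) : ℝ) - 1 / Real.log (n : ℝ)| ≤ (a : ℝ) / n := by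
  have h0 : (0 : ℝ) < n := by
    have : 0 < n := by omega
    exact_mod_cast this
  have h1 := abj_log hn
  have h2 := abj_log (n := n + a) (by omega)
  have h3 : Real.log (n : ℝ) ≤ Real.log ((n + a : ℕ) : ℝ) := by
    apply Real.log_le_log h0
    push_cast
    linarith [(Nat.cast_nonneg a : (0 : ℝ) ≤ a)]
  have h4 : Real.log ((n + a : ℕ) : ℝ) - Real.log (n : ℝ) ≤ (a : ℝ) / n := by
    rw [← Real.log_div (by positivity) h0.ne']
    refine (Real.log_le_sub_one_of_pos (by positivity)).trans (le_of_eq ?_)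
    push_cast
    field_simp
    ring
  have h5 : 1 / Real.log ((n + a : ℕ) : ℝ) ≤ 1 / Real.log (n : ℝ) :=
    one_div_le_one_div_of_le (by linarith) h3
  rw [abs_of_nonpos (by linarith), neg_sub]
  have h6 : 1 / Real.log (n : ℝ) - 1 / Real.log ((n + a : ℕ) : ℝ) =
      (Real.log ((n + a : ℕ) : ℝ) - Real.log (n : ℝ)) /
        (Real.log (n : ℝ) * Real.log ((n + a : ℕ) : ℝ)) := by
    have e1 : Real.log (n : ℝ) ≠ 0 := by linarith
    have e2 : Real.log ((n + a : ℕ) : ℝ) ≠ 0 := by linarith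
    field_simp
  rw [h6]
  refine (div_le_self (by linarith) ?_).trans h4
  nlinarith

private theorem abj_prod {n : ℕ} (hn : 3 ≤ n) (H : Finset ℕ) :
    |∏ h ∈ H, (1 / Real.log ((n + h : ℕ) : ℝ)) - (1 / Real.log (n : ℝ)) ^ H.card| ≤
      (∑ h ∈ H, (h : ℝ)) / n ∧ 0 ≤ ∏ h ∈ H, (1 / Real.log ((n + h : ℕ) : ℝ)) ∧
      ∏ h ∈ H, (1 / Real.log ((n + h : ℕ) : ℝ)) ≤ 1 := by
  have hb : ∀ a : ℕ, 0 ≤ 1 / Real.log ((n + a : ℕ) : ℝ) ∧ 1 / Real.log ((n + a : ℕ) : ℝ) ≤ 1 := by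
    intro a
    have h2 := abj_log (n := n + a) (by omega)
    refine ⟨by positivity, ?_⟩
    rw [div_le_one (by linarith)]
    exact h2
  have hb0 : 0 ≤ 1 / Real.log (n : ℝ) ∧ 1 / Real.log (n : ℝ) ≤ 1 := hb 0
  induction H using Finset.induction_on with
  | empty => simp
  | insert a s ha ih =>
    obtain ⟨i1, i2, i3⟩ := ih
    rw [Finset.prod_insert ha, Finset.sum_insert ha, Finset.card_insert_of_notMem ha]
    refine ⟨?_, mul_nonneg (hb a).1 i2, ?_⟩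
    · have e : 1 / Real.log ((n + a : ℕ) : ℝ) * ∏ h ∈ s, (1 / Real.log ((n + h : ℕ) : ℝ)) -
          (1 / Real.log (n : ℝ)) ^ (s.card + 1) =
          (1 / Real.log ((n + a : ℕ) : ℝ) - 1 / Real.log (n : ℝ)) *
            (∏ h ∈ s, (1 / Real.log ((n + h : ℕ) : ℝ))) +
          1 / Real.log (n : ℝ) * (∏ h ∈ s, (1 / Real.log ((n + h : ℕ) : ℝ)) -
            (1 / Real.log (n : ℝ)) ^ s.card) := by ring
      rw [e]
      refine (abs_add_le _ _).trans ?_
      rw [abs_mul, abs_mul, abs_of_nonneg i2, abs_of_nonneg hb0.1, add_div]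
      refine add_le_add ?_ ?_
      · calc _ ≤ (a : ℝ) / n * 1 := mul_le_mul (abj_one hn a) i3 i2 (by positivity)
          _ = _ := mul_one _
      · calc _ ≤ 1 * ((∑ h ∈ s, (h : ℝ)) / n) := mul_le_mul hb0.2 i1 (abs_nonneg _) zero_le_one
          _ = _ := one_mul _
    · calc _ ≤ (1 : ℝ) * 1 := mul_le_mul (hb a).2 i3 i2 zero_le_one
        _ = 1 := mul_one 1

private theorem abj_shift (f : ℕ → ℝ) {u v : ℕ} (huv : u ≤ v) :
    ∑ n ∈ Ioc u v, f n = ∑ n ∈ Ico u v, f (n + 1) ∧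
      ∑ n ∈ Ico u v, f n = ∑ n ∈ Ico u v, f (n + 1) + f u - f v := by
  induction v, huv using Nat.le_induction with
  | base => simp
  | succ v huv ih =>
    have e : Ioc u (v + 1) = insert (v + 1) (Ioc u v) := by
      ext x
      simp only [mem_Ioc, mem_insert]
      omega
    rw [e, Finset.sum_insert (by simp), Finset.sum_Ico_succ_top huv, Finset.sum_Ico_succ_top huv,
      ih.1, ih.2]
    constructor <;> ring

theorem sum_int_aux (H : Finset ℕ) : ∃ C : ℝ, 0 < C ∧ ∀ u v : ℕ, 2 ≤ u → u ≤ v → v ≤ 2 * u →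
    |∑ n ∈ Ioc u v, ∏ h ∈ H, (1 / Real.log ((n + h : ℕ) : ℝ)) -
      ∫ t in (u : ℝ)..v, 1 / (Real.log t) ^ H.card| ≤ C := by
  have hl2 : 0 < Real.log 2 := Real.log_pos (by norm_num)
  have hS : 0 ≤ ∑ h ∈ H, (h : ℝ) := Finset.sum_nonneg fun h _ => Nat.cast_nonneg h
  refine ⟨∑ h ∈ H, (h : ℝ) + 1 / (Real.log 2) ^ H.card, by positivity, fun u v hu huv hv => ?_⟩
  have hu0 : (0 : ℝ) < u := by
    have : 0 < u := by omega
    exact_mod_cast this
  -- the products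
  have h1 : |∑ n ∈ Ioc u v, ∏ h ∈ H, (1 / Real.log ((n + h : ℕ) : ℝ)) -
      ∑ n ∈ Ioc u v, 1 / (Real.log (n : ℝ)) ^ H.card| ≤ ∑ h ∈ H, (h : ℝ) := by
    rw [← Finset.sum_sub_distrib]
    refine (Finset.abs_sum_le_sum_abs _ _).trans ?_
    have h2 : ∀ n ∈ Ioc u v, |∏ h ∈ H, (1 / Real.log ((n + h : ℕ) : ℝ)) -
        1 / (Real.log (n : ℝ)) ^ H.card| ≤ (∑ h ∈ H, (h : ℝ)) / u := by
      intro n hn
      rw [mem_Ioc] at hn
      have h3 := (abj_prod (n := n) (by omega) H).1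
      rw [one_div_pow] at h3
      refine h3.trans (div_le_div_of_nonneg_left hS hu0 ?_)
      exact_mod_cast hn.1.le
    refine (Finset.sum_le_card_nsmul _ _ _ h2).trans ?_
    rw [nsmul_eq_mul, Nat.card_Ioc]
    have h4 : ((v - u : ℕ) : ℝ) ≤ u := by
      have : v - u ≤ u := by omega
      exact_mod_cast this
    calc ((v - u : ℕ) : ℝ) * ((∑ h ∈ H, (h : ℝ)) / u)
        ≤ (u : ℝ) * ((∑ h ∈ H, (h : ℝ)) / u) := mul_le_mul_of_nonneg_right h4 (by positivity)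
      _ = _ := by field_simp
  -- the integral
  obtain ⟨f, hf⟩ : ∃ f : ℝ → ℝ, f = fun t => 1 / (Real.log t) ^ H.card := ⟨_, rfl⟩
  have hpos : ∀ t : ℝ, 2 ≤ t → 0 < Real.log t := fun t ht => Real.log_pos (by linarith)
  have hanti : AntitoneOn f (Set.Icc (u : ℝ) v) := by
    intro x hx y _ hxy
    have hu2 : (2 : ℝ) ≤ u := by exact_mod_cast hu
    have hx2 : 2 ≤ x := hu2.trans hx.1
    rw [hf]
    refine one_div_le_one_div_of_le (pow_pos (hpos x hx2) _) ?_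
    exact pow_le_pow_left₀ (hpos x hx2).le (Real.log_le_log (by linarith) hxy) _
  have i1 := AntitoneOn.sum_le_integral_Ico huv hanti
  have i2 := AntitoneOn.integral_le_sum_Ico huv hanti
  obtain ⟨s1, s2⟩ := abj_shift (fun n => f (n : ℝ)) huv
  have hv2 : (2 : ℝ) ≤ v := by exact_mod_cast hu.trans huv
  have hfv : 0 ≤ f v := by
    rw [hf]
    have := hpos v hv2
    positivity
  have hfu : f u ≤ 1 / (Real.log 2) ^ H.card := by
    rw [hf]
    refine one_div_le_one_div_of_le (pow_pos hl2 _) ?_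
    refine pow_le_pow_left₀ hl2.le (Real.log_le_log (by norm_num) ?_) _
    exact_mod_cast hu
  have h3 : |∑ n ∈ Ioc u v, 1 / (Real.log (n : ℝ)) ^ H.card -
      ∫ t in (u : ℝ)..v, 1 / (Real.log t) ^ H.card| ≤ 1 / (Real.log 2) ^ H.card := by
    have e1 : ∑ n ∈ Ioc u v, 1 / (Real.log (n : ℝ)) ^ H.card = ∑ n ∈ Ioc u v, f n := by rw [hf]
    have e2 : ∫ t in (u : ℝ)..v, 1 / (Real.log t) ^ H.card = ∫ t in (u : ℝ)..v, f t := by rw [hf]
    rw [e1, e2, s1]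
    rw [s2] at i2
    rw [abs_le]
    constructor <;> linarith
  have h4 := abs_add_le (∑ n ∈ Ioc u v, ∏ h ∈ H, (1 / Real.log ((n + h : ℕ) : ℝ)) -
      ∑ n ∈ Ioc u v, 1 / (Real.log (n : ℝ)) ^ H.card)
    (∑ n ∈ Ioc u v, 1 / (Real.log (n : ℝ)) ^ H.card -
      ∫ t in (u : ℝ)..v, 1 / (Real.log t) ^ H.card)
  rw [sub_add_sub_cancel] at h4
  linarith

end Pool.MP_92ef0c_nt.PB
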