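import Pool.Agent.Lib_MP_92ef0c_pb.Defs
import Pool.Agent.Lib_MP_92ef0c_pb.Abel_J

/-! # [PB-I] summation by parts, [PB-J] sum and integral -/

set_option autoImplicit false

namespace Pool.MP_92ef0c_nt.PB

open Finset

/-- [PB-I] PROOF: `∑_{Ioc u v} g w = w v G v + ∑_{t = u+1}^{v-1} G t (w t - w (t+1))`, `G t = ∑_{Ioc u t} g`
(induction on `v`). -/
theorem abel_bound (g w : ℕ → ℝ) (u v : ℕ) (E W : ℝ) (hW : 0 ≤ W)
    (hmono : ∀ n, u < n → n < v → w (n + 1) ≤ w n) (hw0 : ∀ n, u < n → n ≤ v → 0 ≤ w n)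
    (hwW : ∀ n, u < n → n ≤ v → w n ≤ W)
    (hg : ∀ t, u ≤ t → t ≤ v → |∑ n ∈ Ioc u t, g n| ≤ E) (huv : u ≤ v) :
    |∑ n ∈ Ioc u v, g n * w n| ≤ E * W := by
  have hE : 0 ≤ E := by simpa using hg u le_rfl huv
  rcases huv.eq_or_lt with rfl | hlt
  · simpa using mul_nonneg hE hW
  have key : ∀ v, u + 1 ≤ v → ∑ n ∈ Ioc u v, g n * w n = w v * ∑ n ∈ Ioc u v, g n +
      ∑ t ∈ Ico (u + 1) v, (∑ n ∈ Ioc u t, g n) * (w t - w (t + 1)) := by
    intro v hv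
    induction v, hv using Nat.le_induction with
    | base => simp [mul_comm]
    | succ v hv ih =>
      rw [Finset.sum_Ioc_succ_top (by omega), Finset.sum_Ioc_succ_top (by omega), Finset.sum_Ico_succ_top hv, ih]
      ring
  have tel : ∀ v, u + 1 ≤ v → ∑ t ∈ Ico (u + 1) v, (w t - w (t + 1)) = w (u + 1) - w v := by
    intro v hv
    induction v, hv using Nat.le_induction with
    | base => simp
    | succ v hv ih =>
      rw [Finset.sum_Ico_succ_top hv, ih]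
      ring
  have h1 : |w v * ∑ n ∈ Ioc u v, g n| ≤ E * w v := by
    rw [abs_mul, abs_of_nonneg (hw0 v hlt le_rfl), mul_comm]
    exact mul_le_mul_of_nonneg_right (hg v huv le_rfl) (hw0 v hlt le_rfl)
  have h2 : |∑ t ∈ Ico (u + 1) v, (∑ n ∈ Ioc u t, g n) * (w t - w (t + 1))| ≤ E * (w (u + 1) - w v) := by
    rw [← tel v hlt, Finset.mul_sum]
    refine (Finset.abs_sum_le_sum_abs _ _).trans (Finset.sum_le_sum fun t ht => ?_)
    rw [Finset.mem_Ico] at ht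
    have h3 : 0 ≤ w t - w (t + 1) := sub_nonneg.2 (hmono t (by omega) ht.2)
    rw [abs_mul, abs_of_nonneg h3]
    exact mul_le_mul_of_nonneg_right (hg t (by omega) (by omega)) h3
  rw [key v hlt]
  calc _ ≤ E * w v + E * (w (u + 1) - w v) := (abs_add_le _ _).trans (add_le_add h1 h2)
    _ = E * w (u + 1) := by ring
    _ ≤ E * W := mul_le_mul_of_nonneg_left (hwW (u + 1) (by omega) hlt) hE

/-- [PB-J] PROOF: `|∏ 1/log(n+h) - 1/log^k n| ≤ C/n` (each factor `≤ 1/log 2`,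
`0 ≤ 1/log n - 1/log(n+h) ≤ h/(n log^2 n)`), and `∑_{u<n≤v} C/n ≤ C` as `v ≤ 2u`; the sum
`∑_{u<n≤v} 1/log^k n` and the integral differ by at most `1/log^k u` (monotone function,
`AntitoneOn.sum_le_integral`, `AntitoneOn.integral_le_sum`). -/
theorem sum_int (H : Finset ℕ) : ∃ C : ℝ, 0 < C ∧ ∀ u v : ℕ, 2 ≤ u → u ≤ v → v ≤ 2 * u →
    |∑ n ∈ Ioc u v, ∏ h ∈ H, (1 / Real.log ((n + h : ℕ) : ℝ)) -
      ∫ t in (u : ℝ)..v, 1 / (Real.log t) ^ H.card| ≤ C :=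
  sum_int_aux H

end Pool.MP_92ef0c_nt.PB
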