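import Pool.Agent.Lib_MP_92ef0c_pb.Block_config

/-! # [PB-E] the configuration of one block -/

set_option autoImplicit false

namespace Pool.MP_92ef0c_nt.PB

open Finset

/-- [PB-E2] PROOF: `X n = X_j n` for `j = Nat.log 2 n`; for `u, v` as below all `n + h`, `n + h - d`
(`u < n ≤ v`, `h ∈ H`) lie in `[2^j, 2^(j+1))`, so `cnt` is the same as for `X_j`. -/
theorem exists_X (d : ℕ) (hd : 0 < d) (ρ : ℕ → ℝ) (hρ : ∀ n, 0 ≤ ρ n ∧ ρ n ≤ 1 / 4) :
    ∃ X : ℕ → Bool, (∀ n, X n = true → 0 < ρ n) ∧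
      ∀ j : ℕ, ∀ H ⊆ range (j + 1), NoDiff d H → ∀ q a u v : ℕ, 0 < q → q ≤ 2 ^ (j + 1) →
        2 ^ j + d ≤ u → u ≤ v → v + j < 2 ^ (j + 1) →
        |(cnt (PP d X) H q a u v : ℝ) -
          ∑ n ∈ (Ioc u v).filter (fun n => n ≡ a [MOD q]), ∏ h ∈ H, ρ (n + h)| ≤
          10 * ((j : ℝ) + d + 1) ^ 2 * (√(((v : ℝ) - u) / q) + 1) := by
  choose Xj hpos hmain using block_config d hd ρ hρ
  refine ⟨fun n => Xj (Nat.log 2 n) n, fun n hn => hpos _ n hn, ?_⟩
  intro j H hH hND q a u v hq hq2 hu huv hv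
  have hcnt : cnt (PP d (fun n => Xj (Nat.log 2 n) n)) H q a u v = cnt (PP d (Xj j)) H q a u v := by
    unfold cnt
    congr 1
    ext n
    simp only [Finset.mem_filter]
    refine and_congr_right fun hn => ?_
    rw [Finset.mem_Ioc] at hn
    have key : ∀ h ∈ H, (n + h ∈ PP d (fun n => Xj (Nat.log 2 n) n) ↔ n + h ∈ PP d (Xj j)) := by
      intro h hh
      have hhj := Finset.mem_range.1 (hH hh)
      have e1 : Nat.log 2 (n + h) = j :=
        Nat.log_eq_of_pow_le_of_lt_pow (by omega) (by omega)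
      have e2 : Nat.log 2 (n + h - d) = j :=
        Nat.log_eq_of_pow_le_of_lt_pow (by omega) (by omega)
      unfold PP
      simp only [Set.mem_ofPred_eq, e1, e2]
    constructor
    · rintro ⟨h1, h2⟩
      exact ⟨h1, fun h hh => (key h hh).1 (h2 h hh)⟩
    · rintro ⟨h1, h2⟩
      exact ⟨h1, fun h hh => (key h hh).2 (h2 h hh)⟩
  rw [hcnt]
  exact hmain j H hH hND q a u v hq hq2 hu huv hv

end Pool.MP_92ef0c_nt.PB
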