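import Pool.Agent.Lib_MP_92ef0c_pb.Defs

/-! # [PB-K] the Hardy-Littlewood constant -/

set_option autoImplicit false

namespace Pool.MP_92ef0c_nt.PB

open Finset

/-- PROOF: induction on the largest element: `m = max S ≥ S.card + 1`, so
`(1 - 1/m)⁻¹ = m/(m-1) ≤ (S.card + 1)/S.card`. -/
theorem prod_div_le (S : Finset ℕ) (hS : ∀ p ∈ S, 2 ≤ p) :
    ∏ p ∈ S, (1 - 1 / (p : ℝ))⁻¹ ≤ S.card + 1 := by
  induction S using Finset.induction_on_max with
  | empty => simp
  | insert a s ha ih =>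
    have hna : a ∉ s := fun h => lt_irrefl a (ha a h)
    rw [prod_insert hna, card_insert_of_notMem hna]
    have h2 : 2 ≤ a := hS a (mem_insert_self _ _)
    have hsub : s ⊆ Ico 2 a := by
      intro x hx
      rw [mem_Ico]
      exact ⟨hS x (mem_insert_of_mem hx), ha x hx⟩
    have hcard : s.card + 2 ≤ a := by
      have := card_le_card hsub
      rw [Nat.card_Ico] at this
      omega
    have hih := ih fun p hp => hS p (mem_insert_of_mem hp)
    have hcR : (s.card : ℝ) + 2 ≤ a := by exact_mod_cast hcard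
    have ha0 : (0 : ℝ) < a := by positivity
    have ha1 : (0 : ℝ) < (a : ℝ) - 1 := by
      have : (2 : ℝ) ≤ a := by exact_mod_cast h2
      linarith
    have hc0 : (0 : ℝ) < (s.card : ℝ) + 1 := by positivity
    have hfac : (1 - 1 / (a : ℝ))⁻¹ = a / ((a : ℝ) - 1) := by
      field_simp
    have hfac2 : (a : ℝ) / ((a : ℝ) - 1) ≤ ((s.card : ℝ) + 2) / (s.card + 1) := by
      rw [div_le_div_iff₀ ha1 hc0]
      nlinarith
    rw [hfac]
    calc (a : ℝ) / ((a : ℝ) - 1) * ∏ p ∈ s, (1 - 1 / (p : ℝ))⁻¹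
        ≤ ((s.card : ℝ) + 2) / (s.card + 1) * (s.card + 1) := by
          apply mul_le_mul hfac2 hih
          · apply prod_nonneg
            intro p hp
            have : (2 : ℝ) ≤ p := by exact_mod_cast hS p (mem_insert_of_mem hp)
            rw [inv_nonneg, sub_nonneg, div_le_one (by linarith)]
            linarith
          · positivity
      _ = (s.card : ℝ) + 2 := by field_simp
      _ = ((s.card + 1 : ℕ) : ℝ) + 1 := by push_cast; ring

theorem loc_nonneg (H : Finset ℕ) (q p : ℕ) (hp : p.Prime) : 0 ≤ loc H q p := by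
  have h2 : (2 : ℝ) ≤ p := by exact_mod_cast hp.two_le
  have h1 : 0 ≤ ((1 - 1 / (p : ℝ))⁻¹) ^ H.card := by
    apply pow_nonneg
    rw [inv_nonneg, sub_nonneg, div_le_one (by linarith)]
    linarith
  have hnu : nu H p ≤ p := by
    have h3 : H.image (fun h => h % p) ⊆ range p := by
      intro x hx
      obtain ⟨h, _, rfl⟩ := mem_image.1 hx
      exact mem_range.2 (Nat.mod_lt _ hp.pos)
    have := card_le_card h3
    rwa [card_range] at this
  unfold loc
  split_ifs with h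
  · exact h1
  · apply mul_nonneg _ h1
    have : (nu H p : ℝ) ≤ p := by exact_mod_cast hnu
    rw [sub_nonneg, div_le_one (by linarith)]
    exact this

private theorem pow_upper_hl (k : ℕ) (x : ℝ) (h0 : 0 ≤ x) (h1 : x ≤ 1) :
    (1 - x) ^ k ≤ 1 - k * x + (k : ℝ) ^ 2 * x ^ 2 := by
  induction k with
  | zero => simp
  | succ k ih =>
    have h2 : (1 - x) ^ (k + 1) ≤ (1 - x) * (1 - k * x + (k : ℝ) ^ 2 * x ^ 2) := by
      rw [pow_succ, mul_comm]
      exact mul_le_mul_of_nonneg_left ih (by linarith)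
    have hk : (0 : ℝ) ≤ k := Nat.cast_nonneg k
    have h3 : 0 ≤ (k : ℝ) ^ 2 * x ^ 3 := by positivity
    have h4 : 0 ≤ (k : ℝ) * x ^ 2 := by positivity
    have h5 : 0 ≤ x ^ 2 := by positivity
    push_cast
    nlinarith

private theorem pow_lower_hl (k : ℕ) (x : ℝ) (h1 : x ≤ 1) :
    1 - k * x ≤ (1 - x) ^ k := by
  have := one_add_mul_le_pow (a := -x) (by linarith) k
  have h2 : 1 + (k : ℝ) * -x = 1 - k * x := by ring
  have h3 : 1 + -x = 1 - x := by ring
  rw [h2, h3] at this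
  exact this

/-- for large `p` the local factor is `1 + O(1/p²)` -/
private theorem loc_sub_one_hl (H : Finset ℕ) (q p : ℕ) (hp2 : 2 ≤ p) (hpq : ¬ p ∣ q)
    (hH : ∀ h ∈ H, h < p) :
    |loc H q p - 1| ≤ (2 ^ H.card * (H.card : ℝ) ^ 2) * (1 / (p : ℝ) ^ 2) := by
  have hnu : nu H p = H.card := by
    unfold nu
    apply card_image_of_injOn
    intro a ha b hb hab
    simp only at hab
    rwa [Nat.mod_eq_of_lt (hH a ha), Nat.mod_eq_of_lt (hH b hb)] at hab
  have h2 : (2 : ℝ) ≤ p := by exact_mod_cast hp2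
  have hp0 : (0 : ℝ) < p := by linarith
  unfold loc
  rw [if_neg hpq, hnu]
  set k := H.card
  have hx0 : 0 ≤ 1 / (p : ℝ) := by positivity
  have hx1 : 1 / (p : ℝ) ≤ 1 / 2 := one_div_le_one_div_of_le (by norm_num) h2
  have hk1 : (k : ℝ) / p = k * (1 / (p : ℝ)) := by ring
  have hk2 : (1 / (p : ℝ) ^ 2) = (1 / (p : ℝ)) ^ 2 := by
    rw [div_pow, one_pow]
  rw [hk1, hk2]
  set x := 1 / (p : ℝ)
  have hA0 : (1 / 2 : ℝ) ^ k ≤ (1 - x) ^ k := by
    apply pow_le_pow_left₀ (by norm_num)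
    linarith
  have hApos : 0 < (1 - x) ^ k := lt_of_lt_of_le (by positivity) hA0
  have hlow := pow_lower_hl k x (by linarith)
  have hup := pow_upper_hl k x hx0 (by linarith)
  have heq : (1 - k * x) * ((1 - x)⁻¹) ^ k - 1 = -(((1 - x) ^ k - (1 - k * x)) / (1 - x) ^ k) := by
    rw [inv_pow]
    field_simp
    ring
  rw [heq, abs_neg, abs_of_nonneg (div_nonneg (by linarith) hApos.le), div_le_iff₀ hApos]
  have hb : 1 ≤ 2 ^ k * (1 - x) ^ k := by
    calc (1 : ℝ) = 2 ^ k * (1 / 2) ^ k := by rw [← mul_pow]; norm_num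
      _ ≤ 2 ^ k * (1 - x) ^ k := mul_le_mul_of_nonneg_left hA0 (by positivity)
  have hkx : 0 ≤ (k : ℝ) ^ 2 * x ^ 2 := by positivity
  calc (1 - x) ^ k - (1 - k * x) ≤ ((k : ℝ) ^ 2 * x ^ 2) * 1 := by linarith
    _ ≤ ((k : ℝ) ^ 2 * x ^ 2) * (2 ^ k * (1 - x) ^ k) := mul_le_mul_of_nonneg_left hb hkx
    _ = 2 ^ k * (k : ℝ) ^ 2 * x ^ 2 * (1 - x) ^ k := by ring

/-- [PB-K1] PROOF: for `p > max H` and `p ∤ q`: `nu H p = k = H.card` and
`loc = (1 - k/p)(1 - 1/p)^(-k)`, `|loc - 1| ≤ C/p^2`. Infinitely many `p` : product converges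
(`multipliable_one_add_of_summable` or Cauchy). -/
theorem HL_exists (H : Finset ℕ) (q : ℕ) (hq : 0 < q) : ∃ S : ℝ, IsHL H q S := by
  classical
  set f : ℕ → ℝ := fun n => if n.Prime then loc H q n - 1 else 0 with hf
  have hsum : Summable f := by
    refine Summable.of_norm_bounded_eventually_nat
      (g := fun n : ℕ => (2 ^ H.card * (H.card : ℝ) ^ 2) * (1 / (n : ℝ) ^ 2)) ?_ ?_
    · exact (Real.summable_one_div_nat_pow.2 (by norm_num)).mul_left _
    · filter_upwards [Filter.eventually_gt_atTop (q + 2 + H.sup id)] with n hn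
      rw [hf, Real.norm_eq_abs]
      simp only
      split_ifs with hp
      · refine loc_sub_one_hl H q n (by omega) (fun hd => ?_) (fun h hh => ?_)
        · have := Nat.le_of_dvd hq hd
          omega
        · have : h ≤ H.sup id := Finset.le_sup (f := id) hh
          omega
      · rw [abs_zero]
        positivity
  have hmul : Multipliable (fun n => 1 + f n) := by
    apply multipliable_one_add_of_summable
    exact hsum.norm
  refine ⟨∏' n, (1 + f n), ?_⟩
  have ht := hmul.hasProd.tendsto_prod_nat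
  unfold IsHL
  have ht2 := ht.comp (Filter.tendsto_add_atTop_nat 1)
  refine ht2.congr fun z => ?_
  simp only [Function.comp_apply]
  unfold SSz Pz
  have hset : (Icc 1 z).filter Nat.Prime = (range (z + 1)).filter Nat.Prime := by
    ext p
    simp only [mem_filter, mem_Icc, mem_range]
    constructor
    · rintro ⟨⟨h1, h2⟩, h3⟩
      exact ⟨by omega, h3⟩
    · rintro ⟨h1, h3⟩
      exact ⟨⟨h3.one_le, by omega⟩, h3⟩
  rw [hset, prod_filter]
  refine prod_congr rfl fun n _ => ?_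
  rw [hf]
  simp only
  split_ifs with h
  · ring
  · ring

private lemma nu_eq_k2 (H : Finset ℕ) (p : ℕ) (hp : H.sup id < p) : nu H p = H.card := by
  unfold nu
  refine card_image_of_injOn ?_
  intro a ha b hb hab
  have h1 : a < p := lt_of_le_of_lt (le_sup (f := id) ha) hp
  have h2 : b < p := lt_of_le_of_lt (le_sup (f := id) hb) hp
  simpa [Nat.mod_eq_of_lt h1, Nat.mod_eq_of_lt h2] using hab

private lemma inv_ge_one_k2 {p : ℕ} (hp : 2 ≤ p) : 1 ≤ (1 - 1 / (p : ℝ))⁻¹ := by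
  have h : (2 : ℝ) ≤ p := by exact_mod_cast hp
  have h1 : 1 / (p : ℝ) ≤ 1 / 2 := one_div_le_one_div_of_le (by norm_num) h
  have h2 : 0 ≤ 1 / (p : ℝ) := by positivity
  exact (one_le_inv₀ (by linarith)).2 (by linarith)

private lemma loc_le_pow_k2 (H : Finset ℕ) (q p : ℕ) (hp : 2 ≤ p) :
    loc H q p ≤ ((1 - 1 / (p : ℝ))⁻¹) ^ H.card := by
  have h1 := inv_ge_one_k2 hp
  have h3 : (0 : ℝ) ≤ ((1 - 1 / (p : ℝ))⁻¹) ^ H.card := by positivity
  unfold loc
  split_ifs with h
  · exact le_rfl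
  · have h2 : (0 : ℝ) ≤ (nu H p : ℝ) / p := by positivity
    nlinarith

/-- for large primes not dividing `q` the local factor is between `1 - k²/p²` and `1` -/
private lemma loc_large_k2 (H : Finset ℕ) (q p : ℕ) (hp : H.sup id + 2 * H.card + 2 ≤ p)
    (hq : ¬ p ∣ q) : 1 - (H.card : ℝ) ^ 2 / (p : ℝ) ^ 2 ≤ loc H q p ∧ loc H q p ≤ 1 := by
  have hnu : nu H p = H.card := nu_eq_k2 H p (by omega)
  have hp0 : (2 : ℝ) ≤ p := by exact_mod_cast (by omega : 2 ≤ p)
  have hpk : (H.card : ℝ) ≤ p := by exact_mod_cast (by omega : H.card ≤ p)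
  have hpos : (0 : ℝ) < p := by linarith
  have h1 : 1 / (p : ℝ) ≤ 1 / 2 := one_div_le_one_div_of_le (by norm_num) hp0
  have h2 : 0 ≤ 1 / (p : ℝ) := by positivity
  have h3 : 0 < 1 - 1 / (p : ℝ) := by linarith
  have hkp : (H.card : ℝ) / p ≤ 1 := (div_le_one hpos).2 hpk
  have e : loc H q p = (1 - (H.card : ℝ) / p) * ((1 - 1 / (p : ℝ))⁻¹) ^ H.card := by
    unfold loc
    rw [if_neg hq, hnu]
  constructor
  · have h4 : 1 + 1 / (p : ℝ) ≤ (1 - 1 / (p : ℝ))⁻¹ := by
      rw [← one_div, le_div_iff₀ h3]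
      nlinarith
    have h5 : 1 + (H.card : ℝ) * (1 / (p : ℝ)) ≤ (1 + 1 / (p : ℝ)) ^ H.card :=
      one_add_mul_le_pow (by linarith) _
    have h6 : (1 + 1 / (p : ℝ)) ^ H.card ≤ ((1 - 1 / (p : ℝ))⁻¹) ^ H.card :=
      pow_le_pow_left₀ (by linarith) h4 _
    rw [e]
    have h7 : 0 ≤ 1 - (H.card : ℝ) / p := by linarith
    calc 1 - (H.card : ℝ) ^ 2 / (p : ℝ) ^ 2
        = (1 - (H.card : ℝ) / p) * (1 + (H.card : ℝ) * (1 / (p : ℝ))) := by
          field_simp
          ring
      _ ≤ (1 - (H.card : ℝ) / p) * ((1 - 1 / (p : ℝ))⁻¹) ^ H.card :=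
          mul_le_mul_of_nonneg_left (h5.trans h6) h7
  · have h4 : 1 + (H.card : ℝ) * (-(1 / (p : ℝ))) ≤ (1 + -(1 / (p : ℝ))) ^ H.card :=
      one_add_mul_le_pow (by linarith) _
    rw [e, inv_pow, ← div_eq_mul_inv, div_le_one (pow_pos h3 _)]
    have h5 : (1 - 1 / (p : ℝ)) ^ H.card = (1 + -(1 / (p : ℝ))) ^ H.card := by ring
    rw [h5]
    calc 1 - (H.card : ℝ) / p = 1 + (H.card : ℝ) * (-(1 / (p : ℝ))) := by ring
      _ ≤ _ := h4

/-- number of prime divisors -/
private lemma omega_le_k2 {q : ℕ} (hq : 0 < q) (s : Finset ℕ) (hs : ∀ p ∈ s, p.Prime ∧ p ∣ q) :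
    (s.card : ℝ) ≤ 2 * Real.log q := by
  have h1 : s ⊆ q.primeFactors := fun p hp =>
    Nat.mem_primeFactors.2 ⟨(hs p hp).1, (hs p hp).2, hq.ne'⟩
  have h2 : 2 ^ s.card ≤ ∏ p ∈ s, p := by
    rw [← prod_const]
    exact prod_le_prod' fun p hp => (hs p hp).1.two_le
  have h3 : ∏ p ∈ s, p ≤ q := by
    refine Nat.le_of_dvd hq (dvd_trans (prod_dvd_prod_of_subset _ _ _ h1) ?_)
    exact Nat.prod_primeFactors_dvd q
  have h4 : (2 : ℝ) ^ s.card ≤ q := by exact_mod_cast h2.trans h3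
  have h5 := Real.log_le_log (by positivity) h4
  rw [Real.log_pow] at h5
  have h6 : (1 / 2 : ℝ) ≤ Real.log 2 := by linarith [Real.log_two_gt_d9]
  have h7 : (0 : ℝ) ≤ s.card := by positivity
  nlinarith

private lemma mem_Pz_k2 {z p : ℕ} : p ∈ Pz z ↔ p.Prime ∧ p ≤ z := by
  unfold Pz
  rw [mem_filter, mem_Icc]
  constructor
  · rintro ⟨⟨_, h⟩, hp⟩
    exact ⟨hp, h⟩
  · rintro ⟨hp, h⟩
    exact ⟨⟨hp.one_lt.le, h⟩, hp⟩

private lemma SSz_nonneg_k2 (H : Finset ℕ) (q z : ℕ) : 0 ≤ SSz H q z :=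
  prod_nonneg fun p hp => loc_nonneg H q p (mem_Pz_k2.1 hp).1

/-- uniform upper bound -/
private lemma SSz_le_k2 (H : Finset ℕ) {q : ℕ} (hq : 0 < q) (z : ℕ) :
    SSz H q z ≤ (2 * ((H.sup id + 2 * H.card + 2 : ℕ) + 1) * (1 + Real.log q)) ^ H.card := by
  set M := H.sup id + 2 * H.card + 2 with hM
  have hlog : 0 ≤ Real.log q := Real.log_natCast_nonneg q
  have step : ∀ p ∈ Pz z, loc H q p ≤
      (if p ∣ q then ((1 - 1 / (p : ℝ))⁻¹) ^ H.card else 1) *
        (if p ≤ M then ((1 - 1 / (p : ℝ))⁻¹) ^ H.card else 1) := by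
    intro p hp
    have hp2 := (mem_Pz_k2.1 hp).1.two_le
    have h1 : 1 ≤ ((1 - 1 / (p : ℝ))⁻¹) ^ H.card := one_le_pow₀ (inv_ge_one_k2 hp2)
    have h2 := loc_le_pow_k2 H q p hp2
    by_cases hd : p ∣ q
    · rw [if_pos hd]
      by_cases hpm : p ≤ M
      · rw [if_pos hpm]
        nlinarith
      · rw [if_neg hpm, mul_one]
        exact h2
    · rw [if_neg hd, one_mul]
      by_cases hpm : p ≤ M
      · rw [if_pos hpm]
        exact h2
      · rw [if_neg hpm]
        exact (loc_large_k2 H q p (by omega) hd).2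
  have h1 : SSz H q z ≤ (∏ p ∈ Pz z, (if p ∣ q then ((1 - 1 / (p : ℝ))⁻¹) ^ H.card else 1)) *
      ∏ p ∈ Pz z, (if p ≤ M then ((1 - 1 / (p : ℝ))⁻¹) ^ H.card else 1) := by
    rw [← prod_mul_distrib]
    exact prod_le_prod (fun p hp => loc_nonneg H q p (mem_Pz_k2.1 hp).1) step
  rw [← prod_filter, ← prod_filter, prod_pow, prod_pow] at h1
  have h2 : ∏ p ∈ (Pz z).filter (fun p => p ∣ q), (1 - 1 / (p : ℝ))⁻¹ ≤ 2 * (1 + Real.log q) := by
    refine (prod_div_le _ fun p hp => ((mem_Pz_k2.1 (mem_filter.1 hp).1).1).two_le).trans ?_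
    have := omega_le_k2 hq ((Pz z).filter (fun p => p ∣ q)) fun p hp =>
      ⟨(mem_Pz_k2.1 (mem_filter.1 hp).1).1, (mem_filter.1 hp).2⟩
    linarith
  have h3 : ∏ p ∈ (Pz z).filter (fun p => p ≤ M), (1 - 1 / (p : ℝ))⁻¹ ≤ (M : ℝ) + 1 := by
    refine (prod_div_le _ fun p hp => ((mem_Pz_k2.1 (mem_filter.1 hp).1).1).two_le).trans ?_
    have h4 : (Pz z).filter (fun p => p ≤ M) ⊆ Icc 1 M := by
      intro p hp
      rw [mem_filter] at hp
      exact mem_Icc.2 ⟨(mem_Pz_k2.1 hp.1).1.one_lt.le, hp.2⟩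
    have h5 := card_le_card h4
    rw [Nat.card_Icc] at h5
    have h6 : (((Pz z).filter (fun p => p ≤ M)).card : ℝ) ≤ M := by
      exact_mod_cast (by omega : ((Pz z).filter (fun p => p ≤ M)).card ≤ M)
    linarith
  have h4 : 0 ≤ ∏ p ∈ (Pz z).filter (fun p => p ∣ q), (1 - 1 / (p : ℝ))⁻¹ :=
    prod_nonneg fun p hp =>
      zero_le_one.trans (inv_ge_one_k2 ((mem_Pz_k2.1 (mem_filter.1 hp).1).1).two_le)
  have h5 : 0 ≤ ∏ p ∈ (Pz z).filter (fun p => p ≤ M), (1 - 1 / (p : ℝ))⁻¹ :=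
    prod_nonneg fun p hp =>
      zero_le_one.trans (inv_ge_one_k2 ((mem_Pz_k2.1 (mem_filter.1 hp).1).1).two_le)
  refine h1.trans ?_
  rw [← mul_pow]
  refine pow_le_pow_left₀ (mul_nonneg h4 h5) ?_ _
  calc _ ≤ (2 * (1 + Real.log q)) * ((M : ℝ) + 1) :=
        mul_le_mul h2 h3 h5 (by positivity)
    _ = _ := by push_cast; ring

private lemma one_sub_sum_le_prod_k2 (s : Finset ℕ) (f : ℕ → ℝ) (h0 : ∀ i ∈ s, 0 ≤ f i)
    (h1 : ∀ i ∈ s, f i ≤ 1) : 1 - ∑ i ∈ s, f i ≤ ∏ i ∈ s, (1 - f i) := by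
  classical
  induction s using Finset.induction_on with
  | empty => simp
  | insert a s ha ih =>
    rw [sum_insert ha, prod_insert ha]
    have i1 := ih (fun i hi => h0 i (mem_insert_of_mem hi)) (fun i hi => h1 i (mem_insert_of_mem hi))
    have i2 := h0 a (mem_insert_self a s)
    have i3 := h1 a (mem_insert_self a s)
    have i4 : 0 ≤ ∑ i ∈ s, f i := sum_nonneg fun i hi => h0 i (mem_insert_of_mem hi)
    nlinarith

private lemma tail_k2 (H : Finset ℕ) {q : ℕ} (hq : 0 < q) {z z' : ℕ} (hz : z ≤ z')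
    (hM : H.sup id + 2 * H.card + 2 ≤ z) (hk : 2 * (H.card : ℝ) * Real.log q ≤ z) :
    |∏ p ∈ (Ioc z z').filter Nat.Prime, loc H q p - 1| ≤
      (4 * H.card * Real.log q + (H.card : ℝ) ^ 2) / z := by
  have hz2 : 2 ≤ z := by omega
  have hz0 : (0 : ℝ) < z := by exact_mod_cast (by omega : 0 < z)
  have hlog : 0 ≤ Real.log q := Real.log_natCast_nonneg q
  have hmem : ∀ p ∈ (Ioc z z').filter Nat.Prime, z < p ∧ p.Prime := fun p hp =>
    ⟨(mem_Ioc.1 (mem_filter.1 hp).1).1, (mem_filter.1 hp).2⟩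
  -- lower bound
  have hlow : 1 - (H.card : ℝ) ^ 2 / z ≤ ∏ p ∈ (Ioc z z').filter Nat.Prime, loc H q p := by
    have h1 : ∀ p ∈ (Ioc z z').filter Nat.Prime, (H.card : ℝ) ^ 2 / (p : ℝ) ^ 2 ≤ 1 := by
      intro p hp
      have h := (hmem p hp).1
      have h2 : (H.card : ℝ) ≤ p := by exact_mod_cast (by omega : H.card ≤ p)
      have h3 : (0 : ℝ) < p := by exact_mod_cast (by omega : 0 < p)
      rw [div_le_one (by positivity)]
      exact pow_le_pow_left₀ (by positivity) h2 2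
    have h2 : ∏ p ∈ (Ioc z z').filter Nat.Prime, (1 - (H.card : ℝ) ^ 2 / (p : ℝ) ^ 2) ≤
        ∏ p ∈ (Ioc z z').filter Nat.Prime, loc H q p := by
      refine prod_le_prod (fun p hp => by linarith [h1 p hp]) fun p hp => ?_
      have h := hmem p hp
      by_cases hd : p ∣ q
      · have h3 : 1 ≤ loc H q p := by
          unfold loc
          rw [if_pos hd]
          exact one_le_pow₀ (inv_ge_one_k2 h.2.two_le)
        have h4 : 0 ≤ (H.card : ℝ) ^ 2 / (p : ℝ) ^ 2 := by positivity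
        linarith
      · exact (loc_large_k2 H q p (by omega) hd).1
    have h3 := one_sub_sum_le_prod_k2 ((Ioc z z').filter Nat.Prime)
      (fun p => (H.card : ℝ) ^ 2 / (p : ℝ) ^ 2) (fun p _ => by positivity) h1
    have h4 : ∑ p ∈ (Ioc z z').filter Nat.Prime, (H.card : ℝ) ^ 2 / (p : ℝ) ^ 2 ≤
        (H.card : ℝ) ^ 2 / z := by
      calc ∑ p ∈ (Ioc z z').filter Nat.Prime, (H.card : ℝ) ^ 2 / (p : ℝ) ^ 2
          ≤ ∑ p ∈ Ioc z z', (H.card : ℝ) ^ 2 / (p : ℝ) ^ 2 :=
            sum_le_sum_of_subset_of_nonneg (filter_subset _ _) fun p _ _ => by positivity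
        _ = (H.card : ℝ) ^ 2 * ∑ p ∈ Ioc z z', ((p : ℝ) ^ 2)⁻¹ := by
            rw [mul_sum]
            exact sum_congr rfl fun p _ => by rw [div_eq_mul_inv]
        _ ≤ (H.card : ℝ) ^ 2 * ((z : ℝ)⁻¹ - (z' : ℝ)⁻¹) :=
            mul_le_mul_of_nonneg_left (sum_Ioc_inv_sq_le_sub (by omega) hz) (by positivity)
        _ ≤ (H.card : ℝ) ^ 2 * (z : ℝ)⁻¹ := by
            refine mul_le_mul_of_nonneg_left ?_ (by positivity)
            have : (0 : ℝ) ≤ (z' : ℝ)⁻¹ := by positivity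
            linarith
        _ = _ := by rw [div_eq_mul_inv]
    linarith
  -- upper bound
  have hup : ∏ p ∈ (Ioc z z').filter Nat.Prime, loc H q p ≤
      Real.exp (2 * H.card * Real.log q / z) := by
    have h1 : ∀ p ∈ (Ioc z z').filter Nat.Prime, loc H q p ≤
        (if p ∣ q then Real.exp ((H.card : ℝ) / z) else 1) := by
      intro p hp
      have h := hmem p hp
      split_ifs with hd
      · refine (loc_le_pow_k2 H q p h.2.two_le).trans ?_
        have h2 : (1 - 1 / (p : ℝ))⁻¹ ≤ Real.exp (1 / z) := by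
          have hpz : (z : ℝ) + 1 ≤ p := by exact_mod_cast (by omega : z + 1 ≤ p)
          have h3 : (1 - 1 / (p : ℝ))⁻¹ ≤ 1 / z + 1 := by
            have h4 : 1 / (p : ℝ) ≤ 1 / ((z : ℝ) + 1) := one_div_le_one_div_of_le (by positivity) hpz
            have h5 : (1 : ℝ) / z + 1 = (1 - 1 / ((z : ℝ) + 1))⁻¹ := by
              have e0 : 1 - 1 / ((z : ℝ) + 1) = z / ((z : ℝ) + 1) := by
                rw [eq_div_iff (by positivity), sub_mul, div_mul_cancel₀ _ (by positivity)]
                ring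
              rw [e0, inv_div, add_div, div_self hz0.ne']
              ring
            rw [h5]
            have h6 : (0 : ℝ) < 1 - 1 / ((z : ℝ) + 1) := by
              have : 1 / ((z : ℝ) + 1) < 1 := by
                rw [div_lt_one (by positivity)]
                linarith
              linarith
            exact inv_anti₀ h6 (by linarith)
          exact h3.trans (Real.add_one_le_exp _)
        calc ((1 - 1 / (p : ℝ))⁻¹) ^ H.card ≤ (Real.exp (1 / z)) ^ H.card :=
              pow_le_pow_left₀ (zero_le_one.trans (inv_ge_one_k2 h.2.two_le)) h2 _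
          _ = Real.exp ((H.card : ℝ) / z) := by
              rw [← Real.exp_nat_mul]
              ring_nf
      · exact (loc_large_k2 H q p (by omega) hd).2
    have h2 := prod_le_prod (fun p hp => loc_nonneg H q p (hmem p hp).2) h1
    rw [← prod_filter, prod_const, ← Real.exp_nat_mul] at h2
    refine h2.trans (Real.exp_le_exp.2 ?_)
    have h3 := omega_le_k2 hq (((Ioc z z').filter Nat.Prime).filter (fun p => p ∣ q)) fun p hp =>
      ⟨(hmem p (mem_filter.1 hp).1).2, (mem_filter.1 hp).2⟩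
    calc ((((Ioc z z').filter Nat.Prime).filter (fun p => p ∣ q)).card : ℝ) * ((H.card : ℝ) / z)
        ≤ (2 * Real.log q) * ((H.card : ℝ) / z) := mul_le_mul_of_nonneg_right h3 (by positivity)
      _ = _ := by ring
  have hx0 : 0 ≤ 2 * H.card * Real.log q / z := by positivity
  have hx1 : 2 * H.card * Real.log q / z ≤ 1 := (div_le_one hz0).2 hk
  have hexp : Real.exp (2 * H.card * Real.log q / z) - 1 ≤ 2 * (2 * H.card * Real.log q / z) := by
    have := Real.abs_exp_sub_one_le (x := 2 * H.card * Real.log q / z) (by rw [abs_of_nonneg hx0]; exact hx1)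
    rw [abs_of_nonneg hx0] at this
    exact (le_abs_self _).trans this
  have h1 : 2 * (2 * H.card * Real.log q / z) ≤
      (4 * H.card * Real.log q + (H.card : ℝ) ^ 2) / z := by
    rw [add_div]
    have : 0 ≤ (H.card : ℝ) ^ 2 / z := by positivity
    have e : 2 * (2 * H.card * Real.log q / z) = 4 * H.card * Real.log q / z := by ring
    linarith
  have h2 : (H.card : ℝ) ^ 2 / z ≤ (4 * H.card * Real.log q + (H.card : ℝ) ^ 2) / z := by
    rw [add_div]
    have : 0 ≤ 4 * H.card * Real.log q / z := by positivity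
    linarith
  rw [abs_le]
  constructor <;> linarith

private lemma SSz_split_k2 (H : Finset ℕ) (q : ℕ) {z z' : ℕ} (hz : z ≤ z') :
    SSz H q z' = SSz H q z * ∏ p ∈ (Ioc z z').filter Nat.Prime, loc H q p := by
  unfold SSz
  have h1 : Pz z' = (Pz z) ∪ (Ioc z z').filter Nat.Prime := by
    ext p
    rw [mem_union, mem_Pz_k2, mem_Pz_k2, mem_filter, mem_Ioc]
    constructor
    · rintro ⟨hp, h⟩
      by_cases hpz : p ≤ z
      · exact Or.inl ⟨hp, hpz⟩
      · exact Or.inr ⟨⟨by omega, h⟩, hp⟩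
    · rintro (⟨hp, h⟩ | ⟨⟨_, h⟩, hp⟩)
      · exact ⟨hp, h.trans hz⟩
      · exact ⟨hp, h⟩
  have h2 : Disjoint (Pz z) ((Ioc z z').filter Nat.Prime) := by
    rw [disjoint_left]
    intro p hp hp'
    rw [mem_Pz_k2] at hp
    rw [mem_filter, mem_Ioc] at hp'
    omega
  rw [h1, prod_union h2]

/-- [PB-K2] PROOF: the primes `p ∣ q` contribute at most `(∏_{p ∣ q} (1-1/p)⁻¹)^k ≤ (1 + log₂ q)^k`
(`prod_div_le`, `q` has at most `log₂ q` prime factors), the others at most `C`
(`loc ≤ (1-1/p)^(-k)` for `p ≤ max H + 2k`, `≤ 1 + C/p^2` beyond). Tail: for `z' ≥ z ≥ max H + 2k + 2` the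
quotient `SSz z' / SSz z` is between `exp (-C/z)` and `exp (C/z + 2k ω/z)`, `ω ≤ log₂ q` the number of primes
`p ∣ q`; if `z ≥ log q` use `|exp x - 1| ≤ C' x`, if `z < log q` or `z` small the trivial bound. Let
`z' → ∞`. -/
theorem HL_quant (H : Finset ℕ) : ∃ C : ℝ, 0 < C ∧ ∀ q : ℕ, 0 < q → ∀ S : ℝ, IsHL H q S →
    0 ≤ S ∧ S ≤ C * (1 + Real.log q) ^ H.card ∧
      ∀ z : ℕ, 2 ≤ z → |SSz H q z - S| ≤ C * (1 + Real.log q) ^ (H.card + 1) / z := by
  set M : ℕ := H.sup id + 2 * H.card + 2 with hM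
  set A : ℝ := (2 * ((M : ℝ) + 1)) ^ H.card with hA
  have hA0 : 0 < A := by positivity
  refine ⟨A * (4 * H.card + (H.card : ℝ) ^ 2 + M + 1), by positivity, ?_⟩
  intro q hq S hS
  have hlog : 0 ≤ Real.log q := Real.log_natCast_nonneg q
  have hL : 1 ≤ 1 + Real.log q := by linarith
  have hB : ∀ z, SSz H q z ≤ A * (1 + Real.log q) ^ H.card := by
    intro z
    refine (SSz_le_k2 H hq z).trans (le_of_eq ?_)
    rw [hA, ← mul_pow]
  have hN : ∀ z, 0 ≤ SSz H q z := SSz_nonneg_k2 H q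
  have hB0 : 0 ≤ A * (1 + Real.log q) ^ H.card := by positivity
  have hS0 : 0 ≤ S := ge_of_tendsto' hS hN
  have hSB : S ≤ A * (1 + Real.log q) ^ H.card := le_of_tendsto' hS hB
  have hKge : (1 : ℝ) ≤ 4 * H.card + (H.card : ℝ) ^ 2 + M + 1 := by
    have : (0 : ℝ) ≤ 4 * H.card + (H.card : ℝ) ^ 2 + M := by positivity
    linarith
  refine ⟨hS0, hSB.trans ?_, ?_⟩
  · calc A * (1 + Real.log q) ^ H.card = A * 1 * (1 + Real.log q) ^ H.card := by ring
      _ ≤ A * (4 * H.card + (H.card : ℝ) ^ 2 + M + 1) * (1 + Real.log q) ^ H.card := by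
          gcongr
  · intro z hz
    have hz0 : (0 : ℝ) < z := by exact_mod_cast (by omega : 0 < z)
    -- comparison of two levels
    have key : ∀ z', z ≤ z' → |SSz H q z - SSz H q z'| ≤
        A * (4 * H.card + (H.card : ℝ) ^ 2 + M + 1) * (1 + Real.log q) ^ (H.card + 1) / z := by
      intro z' hzz
      have hfin : A * (1 + Real.log q) ^ H.card *
          ((4 * H.card * Real.log q + (H.card : ℝ) ^ 2 + M) / z) ≤
          A * (4 * H.card + (H.card : ℝ) ^ 2 + M + 1) * (1 + Real.log q) ^ (H.card + 1) / z := by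
        have h1 : 4 * H.card * Real.log q + (H.card : ℝ) ^ 2 + M ≤
            (4 * H.card + (H.card : ℝ) ^ 2 + M + 1) * (1 + Real.log q) := by
          have h2 : 0 ≤ ((H.card : ℝ) ^ 2 + M + 1) * Real.log q := by positivity
          have h3 : (0 : ℝ) ≤ H.card := by positivity
          nlinarith
        calc A * (1 + Real.log q) ^ H.card *
              ((4 * H.card * Real.log q + (H.card : ℝ) ^ 2 + M) / z)
            ≤ A * (1 + Real.log q) ^ H.card *
              (((4 * H.card + (H.card : ℝ) ^ 2 + M + 1) * (1 + Real.log q)) / z) := by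
              refine mul_le_mul_of_nonneg_left ?_ hB0
              exact div_le_div_of_nonneg_right h1 hz0.le
          _ = _ := by ring
      have htriv : |SSz H q z - SSz H q z'| ≤ A * (1 + Real.log q) ^ H.card := by
        rw [abs_le]
        constructor <;> linarith [hB z, hB z', hN z, hN z']
      have hbig : (z : ℝ) ≤ 4 * H.card * Real.log q + (H.card : ℝ) ^ 2 + M →
          |SSz H q z - SSz H q z'| ≤
          A * (4 * H.card + (H.card : ℝ) ^ 2 + M + 1) * (1 + Real.log q) ^ (H.card + 1) / z := by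
        intro h
        refine htriv.trans (le_trans ?_ hfin)
        have h1 : 1 ≤ (4 * H.card * Real.log q + (H.card : ℝ) ^ 2 + M) / z :=
          (one_le_div hz0).2 h
        nlinarith
      by_cases h1 : (z : ℝ) ≤ 4 * H.card * Real.log q + (H.card : ℝ) ^ 2 + M
      · exact hbig h1
      · push Not at h1
        have h2 : M ≤ z := by
          have h3 : (M : ℝ) < z := by
            have : (0 : ℝ) ≤ 4 * H.card * Real.log q + (H.card : ℝ) ^ 2 := by positivity
            linarith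
          exact_mod_cast h3.le
        have h3 : 2 * (H.card : ℝ) * Real.log q ≤ z := by
          have h4 : (0 : ℝ) ≤ 2 * H.card * Real.log q := by positivity
          have h5 : (0 : ℝ) ≤ (H.card : ℝ) ^ 2 + M := by positivity
          linarith
        have ht := tail_k2 H hq hzz h2 h3
        rw [SSz_split_k2 H q hzz]
        have e : SSz H q z - SSz H q z * ∏ p ∈ (Ioc z z').filter Nat.Prime, loc H q p =
            -(SSz H q z * (∏ p ∈ (Ioc z z').filter Nat.Prime, loc H q p - 1)) := by ring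
        rw [e, abs_neg, abs_mul, abs_of_nonneg (hN z)]
        refine le_trans ?_ hfin
        refine mul_le_mul (hB z) (ht.trans ?_) (abs_nonneg _) hB0
        refine div_le_div_of_nonneg_right ?_ hz0.le
        have : (0 : ℝ) ≤ M := by positivity
        linarith
    have hlim : Filter.Tendsto (fun z' => |SSz H q z - SSz H q z'|) Filter.atTop
        (nhds |SSz H q z - S|) := (tendsto_const_nhds.sub hS).abs
    exact le_of_tendsto hlim (Filter.eventually_atTop.2 ⟨z, key⟩)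

end Pool.MP_92ef0c_nt.PB
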