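import Pool.Agent.Lib_MP_92ef0c_pb.Sieve
import Pool.Agent.Lib_MP_92ef0c_pb.Abel
import Pool.Agent.Lib_MP_92ef0c_pb.HL

/-! # [PB-M] main term of one block -/

set_option autoImplicit false

namespace Pool.MP_92ef0c_nt.PB

open Finset

/-- [PB-M0] -/
theorem SSz_eq (H : Finset ℕ) (q z : ℕ) :
    (V z)⁻¹ ^ H.card * dens z H q = SSz H q z / q := by
  have h1 : SSz H q z = (∏ p ∈ (Pz z).filter (fun p => ¬ p ∣ q), (1 - (nu H p : ℝ) / p)) *
      (V z)⁻¹ ^ H.card := by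
    have h2 : ∀ p ∈ Pz z, loc H q p =
        (if ¬ p ∣ q then (1 - (nu H p : ℝ) / p) else 1) * ((1 - 1 / (p : ℝ))⁻¹) ^ H.card := by
      intro p _
      unfold loc
      by_cases h : p ∣ q
      · rw [if_pos h, if_neg (not_not.2 h), one_mul]
      · rw [if_neg h, if_pos h]
    rw [SSz, Finset.prod_congr rfl h2, Finset.prod_mul_distrib, ← Finset.prod_filter,
      Finset.prod_pow, Finset.prod_inv_distrib, V]
  rw [h1, dens]
  ring

private theorem pow_exp_bm (k : ℕ) (c x : ℝ) (hc : 0 < c) (hx : 0 ≤ x) :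
    x ^ k ≤ ((k.factorial : ℝ) / c ^ k) * Real.exp (c * x) := by
  have h := Real.pow_div_factorial_le_exp (c * x) (by positivity) k
  have hf : (0 : ℝ) < k.factorial := by exact_mod_cast k.factorial_pos
  rw [div_le_iff₀ hf, mul_pow] at h
  rw [div_mul_eq_mul_div, le_div_iff₀ (by positivity)]
  linarith

open Classical in
private theorem rho_block_bm (N₀ j n : ℕ) (h1 : 2 ^ j ≤ n) (h2 : n < 2 ^ (j + 1)) (h0 : N₀ ≤ n) :
    rho N₀ n = (if Rough (zz j) n then (1 : ℝ) else 0) * ((V (zz j))⁻¹ * (1 / Real.log n)) := by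
  have hn0 : n ≠ 0 := by
    have := Nat.two_pow_pos j
    omega
  have hl : Nat.log 2 n = j := by
    rw [Nat.log_eq_iff (Or.inr ⟨by norm_num, hn0⟩)]
    exact ⟨h1, h2⟩
  unfold rho
  rw [hl]
  by_cases h : Rough (zz j) n
  · rw [if_pos ⟨h0, h⟩, if_pos h, one_mul, one_div, one_div, mul_inv]
  · rw [if_neg (fun hh => h hh.2), if_neg h, zero_mul]

open Classical in
private theorem prod_rho_bm (N₀ j n : ℕ) (H : Finset ℕ) (h1 : 2 ^ j ≤ n)
    (h2 : ∀ h ∈ H, n + h < 2 ^ (j + 1)) (h0 : N₀ ≤ n) :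
    ∏ h ∈ H, rho N₀ (n + h) = (if ∀ h ∈ H, Rough (zz j) (n + h) then (1 : ℝ) else 0) *
      (((V (zz j))⁻¹) ^ H.card * ∏ h ∈ H, (1 / Real.log ((n + h : ℕ) : ℝ))) := by
  rw [Finset.prod_congr rfl (fun h hh => rho_block_bm N₀ j (n + h) (by omega) (h2 h hh) (by omega)),
    Finset.prod_mul_distrib, Finset.prod_mul_distrib, Finset.prod_const]
  congr 1
  by_cases hr : ∀ h ∈ H, Rough (zz j) (n + h)
  · rw [if_pos hr]
    exact Finset.prod_eq_one (fun h hh => if_pos (hr h hh))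
  · rw [if_neg hr]
    push Not at hr
    obtain ⟨h, hh, hn⟩ := hr
    exact Finset.prod_eq_zero hh (if_neg hn)

/-- the weight -/
private noncomputable def w_bm (H : Finset ℕ) (n : ℕ) : ℝ :=
  ∏ h ∈ H, (1 / Real.log ((n + h : ℕ) : ℝ))

private theorem log_ge_bm {n : ℕ} (hn : 2 ≤ n) : Real.log 2 ≤ Real.log (n : ℝ) :=
  Real.log_le_log (by norm_num) (by exact_mod_cast hn)

private theorem w_nonneg_bm (H : Finset ℕ) {n : ℕ} (hn : 2 ≤ n) : 0 ≤ w_bm H n := by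
  apply Finset.prod_nonneg
  intro h _
  have h1 := log_ge_bm (show 2 ≤ n + h by omega)
  have h2 : 0 < Real.log 2 := Real.log_pos (by norm_num)
  exact div_nonneg zero_le_one (by linarith)

private theorem w_le_bm (H : Finset ℕ) {n : ℕ} (hn : 2 ≤ n) : w_bm H n ≤ (1 / Real.log 2) ^ H.card := by
  rw [← Finset.prod_const]
  have h2 : 0 < Real.log 2 := Real.log_pos (by norm_num)
  apply Finset.prod_le_prod
  · intro h _
    have h1 := log_ge_bm (show 2 ≤ n + h by omega)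
    exact div_nonneg zero_le_one (by linarith)
  · intro h _
    have h1 := log_ge_bm (show 2 ≤ n + h by omega)
    exact one_div_le_one_div_of_le h2 h1

private theorem w_anti_bm (H : Finset ℕ) {n : ℕ} (hn : 2 ≤ n) : w_bm H (n + 1) ≤ w_bm H n := by
  have h2 : 0 < Real.log 2 := Real.log_pos (by norm_num)
  apply Finset.prod_le_prod
  · intro h _
    have h1 := log_ge_bm (show 2 ≤ n + 1 + h by omega)
    exact div_nonneg zero_le_one (by linarith)
  · intro h _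
    have h1 := log_ge_bm (show 2 ≤ n + h by omega)
    apply one_div_le_one_div_of_le (by linarith)
    apply Real.log_le_log
    · have : 0 < n + h := by omega
      exact_mod_cast this
    · exact_mod_cast (by omega : n + h ≤ n + 1 + h)

open Classical in
private theorem sum_G_bm (z : ℕ) (H : Finset ℕ) (q a u t : ℕ) :
    (∑ n ∈ Ioc u t, if (n ≡ a [MOD q] ∧ ∀ h ∈ H, Rough z (n + h)) then (1 : ℝ) else 0) =
      G z H q a u t := by
  rw [Finset.sum_boole, G]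

/-- the weighted sum in one block -/
private theorem step1_bm (N₀ : ℕ) (H : Finset ℕ) (j q a u v : ℕ) (E : ℝ) (hj : 1 ≤ j)
    (hu : 2 ^ j ≤ u) (huv : u ≤ v) (hvh : ∀ h ∈ H, v + h < 2 ^ (j + 1)) (hN : N₀ ≤ u)
    (hE : ∀ t, u ≤ t → t ≤ v →
      |(G (zz j) H q a u t : ℝ) - dens (zz j) H q * ((t : ℝ) - u)| ≤ E) :
    |∑ n ∈ (Ioc u v).filter (fun n => n ≡ a [MOD q]), ∏ h ∈ H, rho N₀ (n + h) -
      SSz H q (zz j) / q * ∑ n ∈ Ioc u v, w_bm H n| ≤
      (V (zz j))⁻¹ ^ H.card * (E * (1 / Real.log 2) ^ H.card) := by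
  classical
  have h2j : 2 ≤ 2 ^ j := by
    calc 2 = 2 ^ 1 := by norm_num
      _ ≤ 2 ^ j := Nat.pow_le_pow_right (by norm_num) hj
  have hV := V_pos (zz j)
  have hVk : 0 ≤ (V (zz j))⁻¹ ^ H.card := by positivity
  set g : ℕ → ℝ := fun n => (if (n ≡ a [MOD q] ∧ ∀ h ∈ H, Rough (zz j) (n + h)) then (1 : ℝ) else 0) -
    dens (zz j) H q with hg
  have h1 : ∑ n ∈ (Ioc u v).filter (fun n => n ≡ a [MOD q]), ∏ h ∈ H, rho N₀ (n + h) =
      ∑ n ∈ Ioc u v, (V (zz j))⁻¹ ^ H.card *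
        ((if (n ≡ a [MOD q] ∧ ∀ h ∈ H, Rough (zz j) (n + h)) then (1 : ℝ) else 0) * w_bm H n) := by
    rw [Finset.sum_filter]
    apply Finset.sum_congr rfl
    intro n hn
    rw [Finset.mem_Ioc] at hn
    rw [prod_rho_bm N₀ j n H (by omega) (fun h hh => by have := hvh h hh; omega) (by omega)]
    by_cases hc : n ≡ a [MOD q]
    · rw [if_pos hc]
      by_cases hr : ∀ h ∈ H, Rough (zz j) (n + h)
      · rw [if_pos hr, if_pos ⟨hc, hr⟩, one_mul, one_mul, w_bm]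
      · rw [if_neg hr, if_neg (fun hh => hr hh.2)]
        ring
    · rw [if_neg hc, if_neg (fun hh => hc hh.1)]
      ring
  have h2 : ∑ n ∈ (Ioc u v).filter (fun n => n ≡ a [MOD q]), ∏ h ∈ H, rho N₀ (n + h) -
      SSz H q (zz j) / q * ∑ n ∈ Ioc u v, w_bm H n =
      (V (zz j))⁻¹ ^ H.card * ∑ n ∈ Ioc u v, g n * w_bm H n := by
    rw [h1, ← SSz_eq, ← Finset.mul_sum, mul_assoc, ← mul_sub, Finset.mul_sum, ← Finset.sum_sub_distrib]
    congr 1
    apply Finset.sum_congr rfl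
    intro n _
    rw [hg]
    ring
  rw [h2, abs_mul, abs_of_nonneg hVk]
  apply mul_le_mul_of_nonneg_left _ hVk
  apply abel_bound g (w_bm H) u v E ((1 / Real.log 2) ^ H.card)
  · have h2 : 0 < Real.log 2 := Real.log_pos (by norm_num)
    positivity
  · intro n hn _
    exact w_anti_bm H (by omega)
  · intro n hn _
    exact w_nonneg_bm H (by omega)
  · intro n hn _
    exact w_le_bm H (by omega)
  · intro t ht1 ht2
    have h3 := hE t ht1 ht2
    rw [hg, Finset.sum_sub_distrib, sum_G_bm, Finset.sum_const, Nat.card_Ioc, nsmul_eq_mul,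
      Nat.cast_sub ht1, mul_comm]
    exact h3
  · exact huv

private theorem zz_two_bm {j : ℕ} (hj : 1 ≤ j) : 2 ≤ zz j := by
  have h1 : 1 ≤ Nat.sqrt j := Nat.le_sqrt.2 (by omega)
  calc 2 = 2 ^ 1 := by norm_num
    _ ≤ 2 ^ Nat.sqrt j := Nat.pow_le_pow_right (by norm_num) h1

private theorem log_zz_bm (j : ℕ) : Real.log (zz j : ℕ) ≤ √(j : ℝ) := by
  have h1 : ((zz j : ℕ) : ℝ) = (2 : ℝ) ^ Nat.sqrt j := by
    unfold zz
    push_cast
    rfl
  rw [h1, Real.log_pow]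
  have h2 : (Nat.sqrt j : ℝ) ≤ √(j : ℝ) := Real.nat_sqrt_le_real_sqrt
  have h3 : Real.log 2 ≤ 1 := by
    have := Real.log_two_lt_d9
    linarith
  have h4 : 0 < Real.log 2 := Real.log_pos (by norm_num)
  calc (Nat.sqrt j : ℝ) * Real.log 2 ≤ (Nat.sqrt j : ℝ) * 1 :=
        mul_le_mul_of_nonneg_left h3 (Nat.cast_nonneg _)
    _ ≤ √(j : ℝ) := by rw [mul_one]; exact h2

private theorem inv_zz_bm (j : ℕ) : 1 / ((zz j : ℕ) : ℝ) ≤ 2 * Real.exp (-(Real.log 2 * √(j : ℝ))) := by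
  have h1 : ((zz j : ℕ) : ℝ) = Real.exp (Real.log 2 * Nat.sqrt j) := by
    unfold zz
    push_cast
    rw [← Real.rpow_natCast, Real.rpow_def_of_pos (by norm_num)]
  have h2 : √(j : ℝ) ≤ Nat.sqrt j + 1 := Real.real_sqrt_le_nat_sqrt_succ
  have h3 : 0 < Real.log 2 := Real.log_pos (by norm_num)
  rw [h1, one_div, ← Real.exp_neg]
  have h4 : (2 : ℝ) = Real.exp (Real.log 2) := (Real.exp_log (by norm_num)).symm
  calc Real.exp (-(Real.log 2 * Nat.sqrt j)) ≤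
        Real.exp (Real.log 2 + -(Real.log 2 * √(j : ℝ))) := by
        apply Real.exp_le_exp.2
        nlinarith
    _ = 2 * Real.exp (-(Real.log 2 * √(j : ℝ))) := by
        rw [Real.exp_add, ← h4]

private theorem int_bound_bm (k u v : ℕ) (hu : 2 ≤ u) (huv : u ≤ v) :
    |∫ t in (u : ℝ)..v, 1 / (Real.log t) ^ k| ≤ (1 / Real.log 2) ^ k * ((v : ℝ) - u) := by
  have huv' : (u : ℝ) ≤ v := by exact_mod_cast huv
  have hu' : (2 : ℝ) ≤ u := by exact_mod_cast hu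
  have h3 : 0 < Real.log 2 := Real.log_pos (by norm_num)
  have h := intervalIntegral.norm_integral_le_of_norm_le_const (a := (u : ℝ)) (b := v)
    (f := fun t => 1 / (Real.log t) ^ k) (C := (1 / Real.log 2) ^ k) (by
      intro t ht
      rw [Set.uIoc_of_le huv'] at ht
      have h4 : Real.log 2 ≤ Real.log t := Real.log_le_log (by norm_num) (by linarith [ht.1])
      have h5 : 0 < Real.log t := by linarith
      rw [Real.norm_eq_abs, abs_of_nonneg (by positivity), one_div_pow]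
      apply one_div_le_one_div_of_le (by positivity)
      exact pow_le_pow_left₀ h3.le h4 k)
  rw [Real.norm_eq_abs, abs_of_nonneg (by linarith : (0 : ℝ) ≤ (v : ℝ) - u)] at h
  exact h

/-- [PB-M] PROOF. For `u < n ≤ v` and `h ∈ H`: `Nat.log 2 (n+h) = j`, so
`∏ rho = V^(-k) 1[all n+h rough] w n`, `w n = ∏ 1/log(n+h)`, `V = V (zz j)`. `abel_bound` with
`g n = 1[n ≡ a, all n+h rough] - dens`, `E = K ((v-u)/q e^(-c√j) + 2^(ε j/2))` (`sieve` with `ε/2`),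
`W = (1/log 2)^k`; then `V^(-k) dens ∑ w = SSz/q ∑ w` (`SSz_eq`), `sum_int`, `HL_quant` with `z = zz j`,
`1/zz j ≤ 2 exp(-log 2 √j)`. `V^(-1) ≤ C √j` (`V_lower`, `j ≥ 1`), and
`(C √j)^k e^(-c √j) ≤ K' e^(-(c/2) √j)`, `(C √j)^k 2^(ε j/2) ≤ K' 2^(ε j)`. -/
theorem block_main (N₀ : ℕ) (H : Finset ℕ) (ε : ℝ) (hε : 0 < ε) : ∃ c K : ℝ, 0 < c ∧ 0 < K ∧
    ∀ j q a u v : ℕ, 1 ≤ j → 0 < q → (∀ h ∈ H, Nat.Coprime (a + h) q) → ∀ S : ℝ, IsHL H q S →
      2 ^ j ≤ u → u ≤ v → v < 2 ^ (j + 1) → (∀ h ∈ H, v + h < 2 ^ (j + 1)) → N₀ ≤ u →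
      |∑ n ∈ (Ioc u v).filter (fun n => n ≡ a [MOD q]), ∏ h ∈ H, rho N₀ (n + h) -
        S / q * ∫ t in (u : ℝ)..v, 1 / (Real.log t) ^ H.card| ≤
        K * (1 + Real.log q) ^ (H.card + 1) *
          (((v : ℝ) - u) / q * Real.exp (-(c * √j)) + (2 : ℝ) ^ (ε * j)) := by
  set k := H.card with hk
  obtain ⟨c₁, K₁, hc₁, hK₁, hs⟩ := sieve k (ε / 2) (by positivity)
  obtain ⟨c₂, hc₂, hV⟩ := V_lower
  obtain ⟨C₃, hC₃, hsi⟩ := sum_int H
  obtain ⟨C₄, hC₄, hHL⟩ := HL_quant H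
  have hl2 : 0 < Real.log 2 := Real.log_pos (by norm_num)
  set W : ℝ := (1 / Real.log 2) ^ k with hW
  have hW0 : 0 < W := by positivity
  set A₁ : ℝ := (k.factorial : ℝ) / (c₁ / 2) ^ k with hA₁
  set A₂ : ℝ := (k.factorial : ℝ) / (ε * Real.log 2 / 2) ^ k with hA₂
  have hA₁0 : 0 < A₁ := by positivity
  have hA₂0 : 0 < A₂ := by positivity
  refine ⟨min (c₁ / 2) (Real.log 2), (1 / c₂) ^ k * W * K₁ * (A₁ + A₂) + 2 * C₃ * C₄ + 2 * C₄ * W,
    lt_min (by positivity) hl2, by positivity, ?_⟩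
  intro j q a u v hj hq hcop S hS hu huv hv hvh hN
  have h2j : 2 ≤ 2 ^ j := by
    calc 2 = 2 ^ 1 := by norm_num
      _ ≤ 2 ^ j := Nat.pow_le_pow_right (by norm_num) hj
  have hj0 : (0 : ℝ) ≤ j := Nat.cast_nonneg j
  have hj1 : (1 : ℝ) ≤ j := by exact_mod_cast hj
  have hsj1 : 1 ≤ √(j : ℝ) := Real.one_le_sqrt.2 hj1
  have hsj : √(j : ℝ) ≤ j := by
    rw [Real.sqrt_le_left (by linarith)]
    nlinarith
  have hq1 : (1 : ℝ) ≤ q := by exact_mod_cast hq
  have hq0 : (0 : ℝ) < q := by linarith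
  have hvu : (0 : ℝ) ≤ (v : ℝ) - u := by
    have : (u : ℝ) ≤ v := by exact_mod_cast huv
    linarith
  set N : ℝ := ((v : ℝ) - u) / q with hNdef
  have hN0 : 0 ≤ N := by positivity
  set c : ℝ := min (c₁ / 2) (Real.log 2) with hc
  set Lq : ℝ := (1 + Real.log q) with hLq
  have hLq1 : 1 ≤ Lq := by
    have := Real.log_nonneg hq1
    linarith
  have hLqk : 1 ≤ Lq ^ (k + 1) := one_le_pow₀ hLq1
  set T : ℝ := N * Real.exp (-(c * √j)) + (2 : ℝ) ^ (ε * j) with hT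
  have h2e : (1 : ℝ) ≤ (2 : ℝ) ^ (ε * j) := Real.one_le_rpow (by norm_num) (by positivity)
  have hT1 : N * Real.exp (-(c * √j)) ≤ T := by linarith
  have hT2 : (2 : ℝ) ^ (ε * j) ≤ T := by
    have : 0 ≤ N * Real.exp (-(c * √j)) := by positivity
    linarith
  have hT0 : 1 ≤ T := h2e.trans hT2
  -- step 1
  set E : ℝ := K₁ * (N * Real.exp (-(c₁ * √j)) + (2 : ℝ) ^ (ε / 2 * j)) with hE
  have hs1 : ∀ t, u ≤ t → t ≤ v →
      |(G (zz j) H q a u t : ℝ) - dens (zz j) H q * ((t : ℝ) - u)| ≤ E := by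
    intro t ht1 ht2
    refine (hs j H le_rfl q a u t hq hcop ht1).trans ?_
    have h1 : ((t : ℝ) - u) / q ≤ N := by
      apply div_le_div_of_nonneg_right _ hq0.le
      have : (t : ℝ) ≤ v := by exact_mod_cast ht2
      linarith
    rw [hE]
    gcongr
  have hstep1 := step1_bm N₀ H j q a u v E hj hu huv hvh hN hs1
  rw [← hk, ← hW] at hstep1
  -- the factor V⁻¹
  have hVi : (V (zz j))⁻¹ ≤ √j * (1 / c₂) := by
    have h1 := hV (zz j) (zz_two_bm hj)
    have h2 := log_zz_bm j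
    have hz : (2 : ℝ) ≤ (zz j : ℕ) := by exact_mod_cast zz_two_bm hj
    have h3 : 0 < Real.log (zz j : ℕ) := Real.log_pos (by linarith)
    have h4 : (V (zz j))⁻¹ ≤ (c₂ / Real.log (zz j : ℕ))⁻¹ := inv_anti₀ (by positivity) h1
    refine h4.trans ?_
    rw [inv_div, div_eq_mul_one_div]
    exact mul_le_mul_of_nonneg_right h2 (by positivity)
  have hVk : (V (zz j))⁻¹ ^ k ≤ (√j) ^ k * (1 / c₂) ^ k := by
    rw [← mul_pow]
    exact pow_le_pow_left₀ (inv_nonneg.2 (V_pos _).le) hVi k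
  have hB1 : (√j) ^ k * (N * Real.exp (-(c₁ * √j))) ≤ A₁ * T := by
    have h1 := pow_exp_bm k (c₁ / 2) (√j) (by positivity) (Real.sqrt_nonneg _)
    have h2 : Real.exp (c₁ / 2 * √j) * Real.exp (-(c₁ * √j)) = Real.exp (-(c₁ / 2 * √j)) := by
      rw [← Real.exp_add]
      congr 1
      ring
    have h3 : Real.exp (-(c₁ / 2 * √j)) ≤ Real.exp (-(c * √j)) := by
      apply Real.exp_le_exp.2
      have : c ≤ c₁ / 2 := min_le_left _ _
      nlinarith
    calc (√j) ^ k * (N * Real.exp (-(c₁ * √j)))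
        ≤ (A₁ * Real.exp (c₁ / 2 * √j)) * (N * Real.exp (-(c₁ * √j))) :=
          mul_le_mul_of_nonneg_right h1 (by positivity)
      _ = A₁ * (N * Real.exp (-(c₁ / 2 * √j))) := by rw [← h2]; ring
      _ ≤ A₁ * (N * Real.exp (-(c * √j))) := by gcongr
      _ ≤ A₁ * T := by gcongr
  have hB2 : (√j) ^ k * (2 : ℝ) ^ (ε / 2 * j) ≤ A₂ * T := by
    have h0 : (√(j : ℝ)) ^ k ≤ (j : ℝ) ^ k := pow_le_pow_left₀ (Real.sqrt_nonneg _) hsj k
    have h1 := pow_exp_bm k (ε * Real.log 2 / 2) j (by positivity) hj0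
    have h2 : Real.exp (ε * Real.log 2 / 2 * j) = (2 : ℝ) ^ (ε / 2 * j) := by
      rw [Real.rpow_def_of_pos (by norm_num)]
      congr 1
      ring
    have h3 : (2 : ℝ) ^ (ε / 2 * j) * (2 : ℝ) ^ (ε / 2 * j) = (2 : ℝ) ^ (ε * j) := by
      rw [← Real.rpow_add (by norm_num)]
      congr 1
      ring
    rw [h2] at h1
    calc (√j) ^ k * (2 : ℝ) ^ (ε / 2 * j)
        ≤ (A₂ * (2 : ℝ) ^ (ε / 2 * j)) * (2 : ℝ) ^ (ε / 2 * j) :=
          mul_le_mul_of_nonneg_right (h0.trans h1) (by positivity)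
      _ = A₂ * (2 : ℝ) ^ (ε * j) := by rw [mul_assoc, h3]
      _ ≤ A₂ * T := by gcongr
  have hP1 : (V (zz j))⁻¹ ^ k * (E * W) ≤ (1 / c₂) ^ k * W * K₁ * (A₁ + A₂) * T := by
    have hEW : 0 ≤ E * W := by positivity
    calc (V (zz j))⁻¹ ^ k * (E * W) ≤ ((√j) ^ k * (1 / c₂) ^ k) * (E * W) :=
          mul_le_mul_of_nonneg_right hVk hEW
      _ = (1 / c₂) ^ k * W * K₁ * ((√j) ^ k * (N * Real.exp (-(c₁ * √j))) +
            (√j) ^ k * (2 : ℝ) ^ (ε / 2 * j)) := by rw [hE]; ring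
      _ ≤ (1 / c₂) ^ k * W * K₁ * (A₁ * T + A₂ * T) := by
          have h0 : 0 ≤ (1 / c₂) ^ k * W * K₁ := by positivity
          exact mul_le_mul_of_nonneg_left (add_le_add hB1 hB2) h0
      _ = _ := by ring
  -- the sum and the integral
  obtain ⟨hS0, hSle, hSz⟩ := hHL q hq S hS
  have hSz' := hSz (zz j) (zz_two_bm hj)
  rw [← hk, ← hLq] at hSz' hSle
  have hz1 : (1 : ℝ) ≤ (zz j : ℕ) := by
    have := zz_two_bm hj
    exact_mod_cast (by omega : 1 ≤ zz j)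
  have hSS : |SSz H q (zz j)| ≤ 2 * C₄ * Lq ^ (k + 1) := by
    have h1 : C₄ * Lq ^ (k + 1) / (zz j : ℕ) ≤ C₄ * Lq ^ (k + 1) :=
      div_le_self (by positivity) hz1
    have h2 : C₄ * Lq ^ k ≤ C₄ * Lq ^ (k + 1) := by
      apply mul_le_mul_of_nonneg_left _ hC₄.le
      exact pow_le_pow_right₀ hLq1 (by omega)
    have h3 : |SSz H q (zz j)| ≤ |SSz H q (zz j) - S| + |S| := by
      have := abs_add_le (SSz H q (zz j) - S) S
      simpa using this
    rw [abs_of_nonneg hS0] at h3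
    linarith
  set I : ℝ := ∫ t in (u : ℝ)..v, 1 / (Real.log t) ^ k with hI
  have hIb : |I| ≤ W * ((v : ℝ) - u) := by
    rw [hI, hW]
    exact int_bound_bm k u v (by omega) huv
  have hsum := hsi u v (by omega) huv (by
    have : 2 ^ (j + 1) = 2 * 2 ^ j := by ring
    omega)
  rw [← hk, ← hI] at hsum
  have hP2 : |SSz H q (zz j) / q * ∑ n ∈ Ioc u v, w_bm H n - SSz H q (zz j) / q * I| ≤
      2 * C₃ * C₄ * Lq ^ (k + 1) * T := by
    rw [← mul_sub, abs_mul, abs_div, abs_of_pos hq0]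
    have h1 : |SSz H q (zz j)| / q ≤ 2 * C₄ * Lq ^ (k + 1) :=
      (div_le_self (abs_nonneg _) hq1).trans hSS
    calc |SSz H q (zz j)| / q * |∑ n ∈ Ioc u v, w_bm H n - I|
        ≤ (2 * C₄ * Lq ^ (k + 1)) * C₃ :=
          mul_le_mul h1 hsum (abs_nonneg _) (by positivity)
      _ = 2 * C₃ * C₄ * Lq ^ (k + 1) * 1 := by ring
      _ ≤ 2 * C₃ * C₄ * Lq ^ (k + 1) * T := by gcongr
  have hP3 : |SSz H q (zz j) / q * I - S / q * I| ≤ 2 * C₄ * W * Lq ^ (k + 1) * T := by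
    rw [← sub_mul, ← sub_div, abs_mul, abs_div, abs_of_pos hq0]
    have h1 : C₄ * Lq ^ (k + 1) / (zz j : ℕ) ≤
        C₄ * Lq ^ (k + 1) * (2 * Real.exp (-(c * √j))) := by
      rw [div_eq_mul_one_div]
      apply mul_le_mul_of_nonneg_left _ (by positivity)
      refine (inv_zz_bm j).trans ?_
      have h3 : Real.exp (-(Real.log 2 * √(j : ℝ))) ≤ Real.exp (-(c * √j)) := by
        apply Real.exp_le_exp.2
        have : c ≤ Real.log 2 := min_le_right _ _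
        nlinarith
      linarith
    calc |SSz H q (zz j) - S| / q * |I|
        ≤ (C₄ * Lq ^ (k + 1) * (2 * Real.exp (-(c * √j)))) / q * (W * ((v : ℝ) - u)) := by
          apply mul_le_mul _ hIb (abs_nonneg _) (by positivity)
          exact div_le_div_of_nonneg_right (hSz'.trans h1) hq0.le
      _ = 2 * C₄ * W * Lq ^ (k + 1) * (N * Real.exp (-(c * √j))) := by
          rw [hNdef]
          field_simp
      _ ≤ 2 * C₄ * W * Lq ^ (k + 1) * T := by gcongr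
  have hP1' : (1 / c₂) ^ k * W * K₁ * (A₁ + A₂) * T ≤
      (1 / c₂) ^ k * W * K₁ * (A₁ + A₂) * Lq ^ (k + 1) * T := by
    have h0 : 0 ≤ (1 / c₂) ^ k * W * K₁ * (A₁ + A₂) := by positivity
    have h1 : (1 / c₂) ^ k * W * K₁ * (A₁ + A₂) ≤
        (1 / c₂) ^ k * W * K₁ * (A₁ + A₂) * Lq ^ (k + 1) := le_mul_of_one_le_right h0 hLqk
    exact mul_le_mul_of_nonneg_right h1 (by linarith)
  have htri : |∑ n ∈ (Ioc u v).filter (fun n => n ≡ a [MOD q]), ∏ h ∈ H, rho N₀ (n + h) -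
        S / q * I| ≤
      |∑ n ∈ (Ioc u v).filter (fun n => n ≡ a [MOD q]), ∏ h ∈ H, rho N₀ (n + h) -
        SSz H q (zz j) / q * ∑ n ∈ Ioc u v, w_bm H n| +
      |SSz H q (zz j) / q * ∑ n ∈ Ioc u v, w_bm H n - SSz H q (zz j) / q * I| +
      |SSz H q (zz j) / q * I - S / q * I| := by
    refine (abs_sub_le _ (SSz H q (zz j) / q * ∑ n ∈ Ioc u v, w_bm H n) _).trans ?_
    have := abs_sub_le (SSz H q (zz j) / q * ∑ n ∈ Ioc u v, w_bm H n)
      (SSz H q (zz j) / q * I) (S / q * I)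
    linarith
  refine htri.trans ?_
  calc _ ≤ (1 / c₂) ^ k * W * K₁ * (A₁ + A₂) * Lq ^ (k + 1) * T +
        2 * C₃ * C₄ * Lq ^ (k + 1) * T + 2 * C₄ * W * Lq ^ (k + 1) * T := by
        have := hstep1.trans (hP1.trans hP1')
        linarith
    _ = _ := by ring

end Pool.MP_92ef0c_nt.PB
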