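import Pool.Agent.Lib_MP_92ef0c_pb.Defs

/-! # [PB-B] the intensity before the deletion -/

set_option autoImplicit false

namespace Pool.MP_92ef0c_nt.PB

/-- PROOF: strong induction: `0 ≤ ρ n / (1 - r (n-d)) ≤ (1/4) / (1/2)`. -/
theorem rr_bounds (d : ℕ) (ρ : ℕ → ℝ) (hρ : ∀ n, 0 ≤ ρ n ∧ ρ n ≤ 1 / 4) (n : ℕ) :
    0 ≤ rr d ρ n ∧ rr d ρ n ≤ 1 / 2 := by
  induction n using Nat.strong_induction_on with
  | _ n ih =>
    rw [rr]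
    split_ifs with h
    · obtain ⟨h1, h2⟩ := ih (n - d) (by omega)
      have hpos : 0 < 1 - rr d ρ (n - d) := by linarith
      refine ⟨div_nonneg (hρ n).1 hpos.le, ?_⟩
      rw [div_le_iff₀ hpos]
      have := (hρ n).2
      linarith
    · exact ⟨(hρ n).1, by linarith [(hρ n).2]⟩

theorem rr_mul (d : ℕ) (hd : 0 < d) (ρ : ℕ → ℝ) (hρ : ∀ n, 0 ≤ ρ n ∧ ρ n ≤ 1 / 4) {n : ℕ}
    (hn : d ≤ n) : rr d ρ n * (1 - rr d ρ (n - d)) = ρ n := by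
  have h1 := rr_bounds d ρ hρ (n - d)
  have hpos : 0 < 1 - rr d ρ (n - d) := by linarith [h1.2]
  rw [rr, dif_pos ⟨hd, hn⟩]
  exact div_mul_cancel₀ _ hpos.ne'

theorem rr_pos (d : ℕ) (ρ : ℕ → ℝ) (hρ : ∀ n, 0 ≤ ρ n ∧ ρ n ≤ 1 / 4) {n : ℕ}
    (h : 0 < rr d ρ n) : 0 < ρ n := by
  rw [rr] at h
  split_ifs at h with hc
  · have h1 := rr_bounds d ρ hρ (n - d)
    have hpos : 0 < 1 - rr d ρ (n - d) := by linarith [h1.2]
    have := mul_pos h hpos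
    rwa [div_mul_cancel₀ _ hpos.ne'] at this
  · exact h

end Pool.MP_92ef0c_nt.PB
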