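import Pool.Agent.Lib_MP_92ef0c_pb.Fin
import Pool.Agent.Lib_MP_92ef0c_pb.RR

/-! # [PB-E] the configuration of one block -/

set_option autoImplicit false

namespace Pool.MP_92ef0c_nt.PB

open Finset

/-- number of `u < n ≤ v` in a residue class -/
theorem card_class_le (u v Q a : ℕ) (hQ : 0 < Q) (huv : u ≤ v) :
    (((Ioc u v).filter (fun n => n ≡ a [MOD Q])).card : ℝ) ≤ ((v : ℝ) - u) / Q + 1 := by
  have h1 := Nat.Ioc_filter_modEq_card u v hQ a
  have h2 : (((Ioc u v).filter (fun n => n ≡ a [MOD Q])).card : ℚ) ≤ ((v : ℚ) - u) / Q + 1 := by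
    have h3 : ((((Ioc u v).filter (fun n => n ≡ a [MOD Q])).card : ℤ) : ℚ) ≤ ((v : ℚ) - u) / Q + 1 := by
      rw [h1]
      have hQ' : (0 : ℚ) < Q := by exact_mod_cast hQ
      have huv' : (u : ℚ) ≤ v := by exact_mod_cast huv
      have h4 : 0 ≤ ((v : ℚ) - u) / Q + 1 := by
        have : 0 ≤ ((v : ℚ) - u) / Q := div_nonneg (by linarith) hQ'.le
        linarith
      rw [Int.cast_max]
      apply max_le
      · have h5 := Int.floor_le (((v : ℚ) - a) / Q)
        have h6 := Int.lt_floor_add_one (((u : ℚ) - a) / Q)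
        push_cast
        have h7 : ((v : ℚ) - u) / Q = ((v : ℚ) - a) / Q - ((u : ℚ) - a) / Q := by ring
        rw [h7]
        linarith
      · simpa using h4
    exact_mod_cast h3
  have h8 := (Rat.cast_le (K := ℝ)).2 h2
  push_cast at h8
  exact h8

/-- a class modulo `q` is the union of `L` classes modulo `q L` -/
theorem class_split (q L a : ℕ) (hq : 0 < q) (u v : ℕ) (g : ℕ → ℝ) (hL : 0 < L) :
    ∑ n ∈ (Ioc u v).filter (fun n => n ≡ a [MOD q]), g n =
      ∑ i ∈ range L, ∑ n ∈ (Ioc u v).filter (fun n => n ≡ a % q + q * i [MOD q * L]), g n := by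
  rw [← Finset.sum_fiberwise_of_maps_to (s := (Ioc u v).filter (fun n => n ≡ a [MOD q]))
    (t := range L) (g := fun n => n / q % L)
    (fun n _ => mem_range.2 (Nat.mod_lt _ hL))]
  apply Finset.sum_congr rfl
  intro i hi
  rw [mem_range] at hi
  apply Finset.sum_congr _ (fun _ _ => rfl)
  ext n
  simp only [mem_filter, and_assoc]
  refine and_congr_right fun _ => ?_
  have h1 : n % (q * L) = n % q + q * (n / q % L) := Nat.mod_mul
  have h2 : a % q + q * i < q * L := by
    have h3 := Nat.mod_lt a hq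
    have h4 : q * (i + 1) ≤ q * L := Nat.mul_le_mul_left q hi
    rw [mul_add, mul_one] at h4
    omega
  unfold Nat.ModEq
  rw [Nat.mod_eq_of_lt h2, h1]
  constructor
  · rintro ⟨h3, h4⟩
    rw [h3, h4]
  · intro h3
    have h5 : (n % q + q * (n / q % L)) % q = (a % q + q * i) % q := by rw [h3]
    simp only [Nat.add_mul_mod_self_left, Nat.mod_mod] at h5
    rw [h5] at h3
    exact ⟨h5, Nat.eq_of_mul_eq_mul_left hq (Nat.add_left_cancel h3)⟩

/-- [PB-E] PROOF: `config` with `S = Fin (2^(j+1))`, `r s = rr d ρ s`, tests `(H, Q, a, u, v)` with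
`H ⊆ range (j+1)`, `NoDiff d H`, `j + d < Q ≤ 2^(j+1) (j+d+1)`, `a < Q`, `u, v < 2^(j+1)`; the cluster
of `n` is `{n + h} ∪ {n + h - d}`; a class mod `q` is split into `j+d+1` classes mod `q (j+d+1)`. -/
theorem block_config (d : ℕ) (hd : 0 < d) (ρ : ℕ → ℝ) (hρ : ∀ n, 0 ≤ ρ n ∧ ρ n ≤ 1 / 4) (j : ℕ) :
    ∃ X : ℕ → Bool, (∀ n, X n = true → 0 < ρ n) ∧
      ∀ H ⊆ range (j + 1), NoDiff d H → ∀ q a u v : ℕ, 0 < q → q ≤ 2 ^ (j + 1) →
        2 ^ j + d ≤ u → u ≤ v → v + j < 2 ^ (j + 1) →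
        |(cnt (PP d X) H q a u v : ℝ) -
          ∑ n ∈ (Ioc u v).filter (fun n => n ≡ a [MOD q]), ∏ h ∈ H, ρ (n + h)| ≤
          10 * ((j : ℝ) + d + 1) ^ 2 * (√(((v : ℝ) - u) / q) + 1) := by
  classical
  set N : ℕ := 2 ^ (j + 1) with hN
  have hN0 : 0 < N := by positivity
  set L : ℕ := j + d + 1 with hL
  set σ : ℕ → Fin N := fun m => ⟨m % N, Nat.mod_lt _ hN0⟩ with hσ
  have hσv : ∀ m, m < N → (σ m).1 = m := fun m hm => Nat.mod_eq_of_lt hm
  set r : Fin N → ℝ := fun s => rr d ρ s.1 with hr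
  have hr01 : ∀ s, 0 ≤ r s ∧ r s ≤ 1 := fun s =>
    ⟨(rr_bounds d ρ hρ s.1).1, (rr_bounds d ρ hρ s.1).2.trans (by norm_num)⟩
  set J : Finset (Finset ℕ × ℕ × ℕ × ℕ × ℕ) :=
    ((range (j + 1)).powerset ×ˢ (Ioc 0 (N * L)) ×ˢ (range (N * L)) ×ˢ range N ×ˢ range N).filter
    (fun t => NoDiff d t.1 ∧ j + d < t.2.1 ∧ 2 ^ j + d ≤ t.2.2.2.1 ∧ t.2.2.2.2 + j < N) with hJ
  set T : Finset ℕ × ℕ × ℕ × ℕ × ℕ → Finset ℕ := fun t =>
    (Ioc t.2.2.2.1 t.2.2.2.2).filter (fun n => n ≡ t.2.2.1 [MOD t.2.1]) with hT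
  set K : Finset ℕ × ℕ × ℕ × ℕ × ℕ → ℕ → Finset (Fin N) := fun t n =>
    t.1.image (fun h => σ (n + h)) ∪ t.1.image (fun h => σ (n + h - d)) with hK
  set f : Finset ℕ × ℕ × ℕ × ℕ × ℕ → ℕ → (Fin N → Bool) → ℝ := fun t n w =>
    if (∀ h ∈ t.1, w (σ (n + h)) = true ∧ w (σ (n + h - d)) = false) then 1 else 0 with hf
  have hdep : ∀ t ∈ J, ∀ n ∈ T t, ∀ w w' : Fin N → Bool, (∀ s ∈ K t n, w s = w' s) →
      f t n w = f t n w' := by
    intro t _ n _ w w' hw
    have h1 : ∀ h ∈ t.1, w (σ (n + h)) = w' (σ (n + h)) := fun h hh =>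
      hw _ (mem_union_left _ (mem_image_of_mem _ hh))
    have h2 : ∀ h ∈ t.1, w (σ (n + h - d)) = w' (σ (n + h - d)) := fun h hh =>
      hw _ (mem_union_right _ (mem_image_of_mem _ hh))
    have h3 : (∀ h ∈ t.1, w (σ (n + h)) = true ∧ w (σ (n + h - d)) = false) ↔
        (∀ h ∈ t.1, w' (σ (n + h)) = true ∧ w' (σ (n + h - d)) = false) := by
      constructor
      · intro h4 h hh
        rw [← h1 h hh, ← h2 h hh]
        exact h4 h hh
      · intro h4 h hh
        rw [h1 h hh, h2 h hh]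
        exact h4 h hh
    rw [hf]
    simp only [h3]
  have hmemJ : ∀ t ∈ J, t.1 ⊆ range (j + 1) ∧ NoDiff d t.1 ∧ j + d < t.2.1 ∧
      2 ^ j + d ≤ t.2.2.2.1 ∧ t.2.2.2.2 + j < N := by
    intro t ht
    rw [hJ, mem_filter, mem_product, mem_powerset] at ht
    exact ⟨ht.1.1, ht.2.1, ht.2.2.1, ht.2.2.2.1, ht.2.2.2.2⟩
  have hdis : ∀ t ∈ J, ∀ n ∈ T t, ∀ m ∈ T t, n ≠ m → Disjoint (K t n) (K t m) := by
    intro t ht n hn m hm hne
    obtain ⟨hH, _, hQ, hu, hv⟩ := hmemJ t ht
    rw [hT, mem_filter, mem_Ioc] at hn hm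
    have hval : ∀ n, t.2.2.2.1 < n → n ≤ t.2.2.2.2 → ∀ s ∈ K t n, s.1 ≤ n + j ∧ n ≤ s.1 + d := by
      intro n hn1 hn2 s hs
      rw [hK, mem_union, mem_image, mem_image] at hs
      rcases hs with ⟨h, hh, rfl⟩ | ⟨h, hh, rfl⟩
      · have h1 := mem_range.1 (hH hh)
        rw [hσv _ (by omega)]
        omega
      · have h1 := mem_range.1 (hH hh)
        rw [hσv _ (by omega)]
        omega
    rw [Finset.disjoint_left]
    intro s hs1 hs2
    have h1 := hval n hn.1.1 hn.1.2 s hs1
    have h2 := hval m hm.1.1 hm.1.2 s hs2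
    have h3 : n ≡ m [MOD t.2.1] := hn.2.trans hm.2.symm
    rcases lt_or_gt_of_ne hne with h | h
    · have h4 := (Nat.modEq_iff_dvd' h.le).1 h3
      have h5 := Nat.le_of_dvd (by omega) h4
      omega
    · have h4 := (Nat.modEq_iff_dvd' h.le).1 h3.symm
      have h5 := Nat.le_of_dvd (by omega) h4
      omega
  have h01 : ∀ t n w, 0 ≤ f t n w ∧ f t n w ≤ 1 := by
    intro t n w
    rw [hf]
    dsimp only
    split_ifs <;> norm_num
  have hJcard : (J.card : ℝ) ≤ 2 ^ (5 * (j + 1)) * (L : ℝ) ^ 2 := by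
    have h1 : J.card ≤ 2 ^ (j + 1) * ((N * L) * ((N * L) * (N * N))) := by
      refine (Finset.card_filter_le _ _).trans ?_
      simp only [card_product, card_powerset, card_range, Nat.card_Ioc, Nat.sub_zero]
      exact le_refl _
    have h2 : 2 ^ (j + 1) * ((N * L) * ((N * L) * (N * N))) = 2 ^ (5 * (j + 1)) * L ^ 2 := by
      rw [hN]; ring
    rw [h2] at h1
    exact_mod_cast h1
  have hΛ : Real.log (2 * J.card + 1) ≤ 6 * (L : ℝ) := by
    have hL1 : (1 : ℝ) ≤ (L : ℝ) := by exact_mod_cast (by omega : 1 ≤ L)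
    have h1 : 2 * (J.card : ℝ) + 1 ≤ 2 ^ (5 * (j + 1) + 2) * (L : ℝ) ^ 2 := by
      have h2 : (1 : ℝ) ≤ 2 ^ (5 * (j + 1)) * (L : ℝ) ^ 2 :=
        one_le_mul_of_one_le_of_one_le (one_le_pow₀ (by norm_num)) (one_le_pow₀ hL1)
      rw [pow_add]
      linarith
    have h3 : Real.log (2 * J.card + 1) ≤ Real.log (2 ^ (5 * (j + 1) + 2) * (L : ℝ) ^ 2) :=
      Real.log_le_log (by positivity) h1
    rw [Real.log_mul (by positivity) (by positivity), Real.log_pow, Real.log_pow] at h3
    have h4 := Real.log_two_lt_d9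
    have h5 : Real.log (L : ℝ) ≤ L - 1 := Real.log_le_sub_one_of_pos (by linarith)
    have h6 : ((5 * (j + 1) + 2 : ℕ) : ℝ) ≤ 5 * (L : ℝ) := by
      have : 5 * (j + 1) + 2 ≤ 5 * L := by omega
      exact_mod_cast this
    have h7 : ((5 * (j + 1) + 2 : ℕ) : ℝ) * Real.log 2 ≤ 5 * (L : ℝ) * 0.7 := by
      apply mul_le_mul h6 (by linarith) (Real.log_nonneg (by norm_num)) (by positivity)
    push_cast at h3 h7
    linarith
  obtain ⟨w, hw1, hw2⟩ := config r hr01 J T K f hdep hdis h01 (6 * (L : ℝ)) hΛ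
    (by have : (0 : ℝ) < L := by exact_mod_cast (by omega : 0 < L)
        positivity)
  refine ⟨fun n => decide (n < N) && w (σ n), ?_, ?_⟩
  · intro n hn
    simp only [Bool.and_eq_true, decide_eq_true_eq] at hn
    have h1 := hw1 _ hn.2
    rw [hr] at h1
    simp only [hσv n hn.1] at h1
    exact rr_pos d ρ hρ h1
  · intro H hH hND q a u v hq hqN hu huv hv
    have hfE : ∀ n ∈ Ioc u v, ∀ Q a' u' v' : ℕ,
        EE r (f (H, Q, a', u', v') n) = ∏ h ∈ H, ρ (n + h) := by
      intro n hn Q a' u' v'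
      rw [mem_Ioc] at hn
      have hinj1 : Set.InjOn (fun h => σ (n + h)) (H : Set ℕ) := by
        intro x hx y hy hxy
        have h1 := mem_range.1 (hH hx)
        have h2 := mem_range.1 (hH hy)
        have h3 := congrArg Fin.val hxy
        simp only at h3
        rw [hσv _ (by omega), hσv _ (by omega)] at h3
        omega
      have hinj2 : Set.InjOn (fun h => σ (n + h - d)) (H : Set ℕ) := by
        intro x hx y hy hxy
        have h1 := mem_range.1 (hH hx)
        have h2 := mem_range.1 (hH hy)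
        have h3 := congrArg Fin.val hxy
        simp only at h3
        rw [hσv _ (by omega), hσv _ (by omega)] at h3
        omega
      have hdisj : Disjoint (H.image (fun h => σ (n + h))) (H.image (fun h => σ (n + h - d))) := by
        rw [Finset.disjoint_left]
        intro s hs1 hs2
        rw [mem_image] at hs1 hs2
        obtain ⟨x, hx, rfl⟩ := hs1
        obtain ⟨y, hy, hxy⟩ := hs2
        have h1 := mem_range.1 (hH hx)
        have h2 := mem_range.1 (hH hy)
        have h3 := congrArg Fin.val hxy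
        rw [hσv _ (by omega), hσv _ (by omega)] at h3
        exact hND x hx y hy (by omega)
      have h1 := EE_prod r (H.image (fun h => σ (n + h))) (H.image (fun h => σ (n + h - d))) hdisj
      have h2 : EE r (f (H, Q, a', u', v') n) =
          (∏ s ∈ H.image (fun h => σ (n + h)), r s) *
            ∏ s ∈ H.image (fun h => σ (n + h - d)), (1 - r s) := by
        rw [← h1]
        congr 1
        funext w
        have h4 : (∀ h ∈ H, w (σ (n + h)) = true ∧ w (σ (n + h - d)) = false) ↔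
            ((∀ s ∈ H.image (fun h => σ (n + h)), w s = true) ∧
            (∀ s ∈ H.image (fun h => σ (n + h - d)), w s = false)) := by
          simp only [forall_mem_image, ← forall_and]
        rw [hf]
        dsimp only
        by_cases h5 : (∀ h ∈ H, w (σ (n + h)) = true ∧ w (σ (n + h - d)) = false)
        · rw [if_pos h5, if_pos (h4.1 h5)]
        · rw [if_neg h5, if_neg (fun h6 => h5 (h4.2 h6))]
      rw [h2, Finset.prod_image hinj1, Finset.prod_image hinj2, ← Finset.prod_mul_distrib]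
      apply Finset.prod_congr rfl
      intro h hh
      have h3 := mem_range.1 (hH hh)
      rw [hr]
      simp only
      rw [hσv _ (by omega), hσv _ (by omega)]
      exact rr_mul d hd ρ hρ (by omega)
    have hcnt : (cnt (PP d (fun n => decide (n < N) && w (σ n))) H q a u v : ℝ) =
        ∑ n ∈ (Ioc u v).filter (fun n => n ≡ a [MOD q]), f (H, 0, 0, 0, 0) n w := by
      unfold cnt
      rw [← Finset.filter_filter, Finset.card_filter, Nat.cast_sum]
      apply Finset.sum_congr rfl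
      intro n hn
      rw [mem_filter, mem_Ioc] at hn
      have h1 : (∀ h ∈ H, n + h ∈ PP d (fun n => decide (n < N) && w (σ n))) ↔
          (∀ h ∈ H, w (σ (n + h)) = true ∧ w (σ (n + h - d)) = false) := by
        refine forall₂_congr fun h hh => ?_
        have h3 := mem_range.1 (hH hh)
        have h4 : n + h < N := by omega
        have h5 : n + h - d < N := by omega
        have h6 : d ≤ n + h := by omega
        simp [PP, h4, h5, h6]
      rw [hf]
      simp only [h1]
      split_ifs <;> simp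
    rw [hcnt, ← Finset.sum_sub_distrib, class_split q L a hq u v _ (by omega)]
    have hQ : q * L ≤ N * L := Nat.mul_le_mul_right L hqN
    have hQ0 : L ≤ q * L := Nat.le_mul_of_pos_left L hq
    have hpart : ∀ i ∈ range L,
        |∑ n ∈ (Ioc u v).filter (fun n => n ≡ a % q + q * i [MOD q * L]),
          (f (H, 0, 0, 0, 0) n w - ∏ h ∈ H, ρ (n + h))| ≤
        √(2 * (((v : ℝ) - u) / (q * L) + 1) * (6 * (L : ℝ))) := by
      intro i hi
      rw [mem_range] at hi
      have h2 : a % q + q * i < q * L := by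
        have h3 := Nat.mod_lt a hq
        have h4 : q * (i + 1) ≤ q * L := Nat.mul_le_mul_left q hi
        rw [mul_add, mul_one] at h4
        omega
      have hmem : ((H, q * L, a % q + q * i, u, v) : Finset ℕ × ℕ × ℕ × ℕ × ℕ) ∈ J := by
        rw [hJ, mem_filter, mem_product, mem_product, mem_product, mem_product, mem_powerset,
          mem_Ioc, mem_range, mem_range, mem_range]
        have e1 : 0 < q * L := by omega
        have e2 : a % q + q * i < N * L := lt_of_lt_of_le h2 hQ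
        have e3 : u < N := by omega
        have e4 : v < N := by omega
        have e5 : j + d < q * L := by omega
        exact ⟨⟨hH, ⟨e1, hQ⟩, e2, e3, e4⟩, hND, e5, hu, hv⟩
      have h3 := hw2 _ hmem
      have h4 : ∑ n ∈ T (H, q * L, a % q + q * i, u, v),
          (f (H, q * L, a % q + q * i, u, v) n w - EE r (f (H, q * L, a % q + q * i, u, v) n)) =
          ∑ n ∈ (Ioc u v).filter (fun n => n ≡ a % q + q * i [MOD q * L]),
          (f (H, 0, 0, 0, 0) n w - ∏ h ∈ H, ρ (n + h)) := by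
        apply Finset.sum_congr rfl
        intro n hn
        rw [hT, mem_filter] at hn
        rw [hfE n hn.1]
      rw [h4] at h3
      refine h3.trans (Real.sqrt_le_sqrt ?_)
      have h5 := card_class_le u v (q * L) (a % q + q * i) (by omega) huv
      push_cast at h5
      have hL0 : (0 : ℝ) ≤ 6 * (L : ℝ) := by positivity
      exact mul_le_mul_of_nonneg_right (by linarith) hL0
    refine (Finset.abs_sum_le_sum_abs _ _).trans ((Finset.sum_le_sum hpart).trans ?_)
    rw [Finset.sum_const, card_range, nsmul_eq_mul]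
    have hLr : (L : ℝ) = (j : ℝ) + d + 1 := by rw [hL]; push_cast; ring
    rw [← hLr]
    have hL1 : (1 : ℝ) ≤ (L : ℝ) := by exact_mod_cast (by omega : 1 ≤ L)
    have hq0 : (0 : ℝ) < q := by exact_mod_cast hq
    have huv' : (u : ℝ) ≤ v := by exact_mod_cast huv
    set Δ : ℝ := ((v : ℝ) - u) / q with hΔ
    have hΔ0 : 0 ≤ Δ := div_nonneg (by linarith) hq0.le
    have h1 : 2 * (((v : ℝ) - u) / (q * L) + 1) * (6 * (L : ℝ)) = 12 * Δ + 12 * L := by
      rw [hΔ]; field_simp; ring
    rw [h1]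
    have h2 : √(12 * Δ + 12 * L) ≤ 4 * √Δ + 4 * L := by
      rw [Real.sqrt_le_left (by positivity)]
      have h3 := Real.sq_sqrt hΔ0
      have h4 := Real.sqrt_nonneg Δ
      nlinarith [mul_nonneg h4 (by linarith : (0 : ℝ) ≤ L)]
    calc (L : ℝ) * √(12 * Δ + 12 * L) ≤ L * (4 * √Δ + 4 * L) :=
          mul_le_mul_of_nonneg_left h2 (by linarith)
      _ ≤ 10 * (L : ℝ) ^ 2 * (√Δ + 1) := by
          have h4 := Real.sqrt_nonneg Δ
          have h5 : (L : ℝ) * √Δ ≤ (L : ℝ) ^ 2 * √Δ := by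
            apply mul_le_mul_of_nonneg_right _ h4
            nlinarith
          nlinarith [mul_nonneg (sq_nonneg (L : ℝ)) h4, sq_nonneg (L : ℝ)]

end Pool.MP_92ef0c_nt.PB
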