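import Pool.Agent.Lib_MP_92ef0c_pb.Defs

/-! # [PB-F] Bonferroni inequalities -/

set_option autoImplicit false

namespace Pool.MP_92ef0c_nt.PB

open Finset

private lemma alt_sum_bonf (k s : ℕ) :
    ∑ i ∈ range (s + 1), (-1 : ℝ) ^ i * ((k + 1).choose i : ℝ) = (-1) ^ s * (k.choose s : ℝ) := by
  induction s with
  | zero => simp
  | succ s ih =>
    rw [Finset.sum_range_succ, ih, Nat.choose_succ_succ]
    push_cast
    ring

/-- PROOF: `m = 0` clear. `m ≥ 1`: `∑_{i<r} (-1)^i C(m,i) = (-1)^(r-1) C(m-1, r-1)`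
(`Int.alternating_sum_range_choose` or induction on `r`) and `C(m-1,r-1) ≤ C(m,r)` if `r ≤ m`
(`r C(m,r) = m C(m-1,r-1)`), it is `0` if `m < r`. -/
theorem bonf_nat (m r : ℕ) (hr : 1 ≤ r) :
    |(if m = 0 then (1 : ℝ) else 0) - ∑ i ∈ range r, (-1) ^ i * (m.choose i : ℝ)| ≤ m.choose r := by
  obtain ⟨s, rfl⟩ : ∃ s, r = s + 1 := ⟨r - 1, by omega⟩
  cases m with
  | zero =>
    rw [Finset.sum_range_succ']
    simp
  | succ k =>
    rw [if_neg (Nat.succ_ne_zero k), alt_sum_bonf, zero_sub, abs_neg, abs_mul, abs_pow, abs_neg,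
      abs_one, one_pow, one_mul, abs_of_nonneg (Nat.cast_nonneg _), Nat.choose_succ_succ]
    push_cast
    linarith [(Nat.cast_nonneg (k.choose (s + 1)) : (0 : ℝ) ≤ _)]

private lemma count_bonf {α : Type} [DecidableEq α] (A : Finset α) (Q : Finset ℕ)
    (D : α → Finset ℕ) (hD : ∀ x ∈ A, D x ⊆ Q) (i : ℕ) :
    ∑ E ∈ Q.powersetCard i, ((A.filter (fun x => E ⊆ D x)).card : ℝ) =
      ∑ x ∈ A, ((D x).card.choose i : ℝ) := by
  have h1 : ∀ E ∈ Q.powersetCard i, ((A.filter (fun x => E ⊆ D x)).card : ℝ) =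
      ∑ x ∈ A, if E ⊆ D x then (1 : ℝ) else 0 := by
    intro E _
    rw [Finset.sum_boole]
  rw [Finset.sum_congr rfl h1, Finset.sum_comm]
  refine Finset.sum_congr rfl fun x hx => ?_
  rw [Finset.sum_boole, ← Finset.card_powersetCard]
  congr 2
  ext E
  simp only [Finset.mem_filter, Finset.mem_powersetCard]
  constructor
  · rintro ⟨⟨-, h2⟩, h3⟩
    exact ⟨h3, h2⟩
  · rintro ⟨h3, h2⟩
    exact ⟨⟨h3.trans (hD x hx), h2⟩, h3⟩

/-- PROOF: sum `bonf_nat` with `m = (D x).card` over `x ∈ A`; the subsets `E ∈ Q.powersetCard i` with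
`E ⊆ D x` are `(D x).powersetCard i`. -/
theorem bonf_count {α : Type} [DecidableEq α] (A : Finset α) (Q : Finset ℕ) (D : α → Finset ℕ)
    (hD : ∀ x ∈ A, D x ⊆ Q) (r : ℕ) (hr : 1 ≤ r) :
    |((A.filter (fun x => D x = ∅)).card : ℝ) -
      ∑ i ∈ range r, (-1) ^ i * ∑ E ∈ Q.powersetCard i, ((A.filter (fun x => E ⊆ D x)).card : ℝ)| ≤
      ∑ E ∈ Q.powersetCard r, ((A.filter (fun x => E ⊆ D x)).card : ℝ) := by
  have h0 : ((A.filter (fun x => D x = ∅)).card : ℝ) =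
      ∑ x ∈ A, if (D x).card = 0 then (1 : ℝ) else 0 := by
    rw [Finset.sum_boole]
    congr 2
    ext x
    simp only [Finset.mem_filter, Finset.card_eq_zero]
  have h1 : ∑ i ∈ range r, (-1 : ℝ) ^ i *
      ∑ E ∈ Q.powersetCard i, ((A.filter (fun x => E ⊆ D x)).card : ℝ) =
      ∑ x ∈ A, ∑ i ∈ range r, (-1 : ℝ) ^ i * ((D x).card.choose i : ℝ) := by
    rw [Finset.sum_comm]
    refine Finset.sum_congr rfl fun i _ => ?_
    rw [count_bonf A Q D hD i, Finset.mul_sum]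
  rw [h0, h1, count_bonf A Q D hD r, ← Finset.sum_sub_distrib]
  refine (Finset.abs_sum_le_sum_abs _ _).trans ?_
  exact Finset.sum_le_sum fun x _ => bonf_nat (D x).card r hr

private theorem e_zero_bf (P : Finset ℕ) (g : ℕ → ℝ) :
    ∑ A ∈ P.powersetCard 0, ∏ p ∈ A, g p = 1 := by
  simp

private theorem e_empty_bf (g : ℕ → ℝ) (k : ℕ) :
    ∑ A ∈ (∅ : Finset ℕ).powersetCard (k + 1), ∏ p ∈ A, g p = 0 := by
  have : (∅ : Finset ℕ).powersetCard (k + 1) = ∅ :=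
    Finset.powersetCard_eq_empty.2 (by simp)
  rw [this, Finset.sum_empty]

private theorem e_insert_bf (P : Finset ℕ) (a : ℕ) (ha : a ∉ P) (g : ℕ → ℝ) (k : ℕ) :
    ∑ A ∈ (insert a P).powersetCard (k + 1), ∏ p ∈ A, g p =
      ∑ A ∈ P.powersetCard (k + 1), ∏ p ∈ A, g p +
        g a * ∑ A ∈ P.powersetCard k, ∏ p ∈ A, g p := by
  rw [Finset.powersetCard_succ_insert ha, Finset.sum_union]
  · congr 1
    rw [Finset.sum_image, Finset.mul_sum]
    · apply Finset.sum_congr rfl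
      intro A hA
      have hA' : a ∉ A := fun h => ha ((Finset.mem_powersetCard.1 hA).1 h)
      rw [Finset.prod_insert hA']
    · intro A hA B hB hAB
      have hA' : a ∉ A := fun h => ha ((Finset.mem_powersetCard.1 (Finset.mem_coe.1 hA)).1 h)
      have hB' : a ∉ B := fun h => ha ((Finset.mem_powersetCard.1 (Finset.mem_coe.1 hB)).1 h)
      calc A = (insert a A).erase a := (Finset.erase_insert hA').symm
        _ = (insert a B).erase a := by rw [hAB]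
        _ = B := Finset.erase_insert hB'
  · rw [Finset.disjoint_left]
    intro A hA hA2
    obtain ⟨B, -, rfl⟩ := Finset.mem_image.1 hA2
    exact ha ((Finset.mem_powersetCard.1 hA).1 (Finset.mem_insert_self _ _))

private theorem pow_step_bf (G x : ℝ) (hG : 0 ≤ G) (hx : 0 ≤ x) (k : ℕ) :
    G ^ (k + 1) + ((k : ℝ) + 1) * x * G ^ k ≤ (G + x) ^ (k + 1) := by
  induction k with
  | zero => simp
  | succ k ih =>
    have h1 : (G + x) * (G ^ (k + 1) + ((k : ℝ) + 1) * x * G ^ k) ≤ (G + x) * (G + x) ^ (k + 1) :=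
      mul_le_mul_of_nonneg_left ih (by linarith)
    have h2 : (G + x) ^ (k + 1 + 1) = (G + x) * (G + x) ^ (k + 1) := by ring
    rw [h2]
    refine le_trans ?_ h1
    push_cast
    have h3 : 0 ≤ ((k : ℝ) + 1) * x * x * G ^ k := by positivity
    have h4 : (G + x) * (G ^ (k + 1) + ((k : ℝ) + 1) * x * G ^ k) =
      G ^ (k + 1 + 1) + ((k : ℝ) + 1 + 1) * x * G ^ (k + 1) + ((k : ℝ) + 1) * x * x * G ^ k := by
      ring
    rw [h4]
    linarith

private theorem main_bf (g : ℕ → ℝ) (P : Finset ℕ) : (∀ p ∈ P, 0 ≤ g p ∧ g p ≤ 1) → ∀ b : ℕ,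
    0 ≤ (-1 : ℝ) ^ b * (∑ k ∈ range (b + 1), (-1 : ℝ) ^ k *
      ∑ A ∈ P.powersetCard k, ∏ p ∈ A, g p - ∏ p ∈ P, (1 - g p)) := by
  induction P using Finset.induction_on with
  | empty =>
    intro _ b
    have : ∑ k ∈ range (b + 1), (-1 : ℝ) ^ k *
        ∑ A ∈ (∅ : Finset ℕ).powersetCard k, ∏ p ∈ A, g p = 1 := by
      rw [Finset.sum_range_succ', e_zero_bf]
      simp only [e_empty_bf, mul_zero, Finset.sum_const_zero, pow_zero, mul_one, zero_add]
    rw [this]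
    simp
  | insert a P ha ih =>
    intro hP b
    have hP' : ∀ p ∈ P, 0 ≤ g p ∧ g p ≤ 1 := fun p hp => hP p (Finset.mem_insert_of_mem hp)
    have hga := hP a (Finset.mem_insert_self _ _)
    have hpi0 : 0 ≤ ∏ p ∈ P, (1 - g p) :=
      Finset.prod_nonneg fun p hp => by linarith [(hP' p hp).2]
    have hpi1 : ∏ p ∈ P, (1 - g p) ≤ 1 :=
      Finset.prod_le_one (fun p hp => by linarith [(hP' p hp).2])
        fun p hp => by linarith [(hP' p hp).1]
    rw [Finset.prod_insert ha]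
    cases b with
    | zero =>
      simp only [zero_add, Finset.range_one, Finset.sum_singleton, pow_zero, one_mul]
      rw [e_zero_bf]
      nlinarith
    | succ b =>
      have h1 := ih hP' (b + 1)
      have h2 := mul_nonneg hga.1 (ih hP' b)
      have e1 : ∑ k ∈ range (b + 1 + 1), (-1 : ℝ) ^ k *
          ∑ A ∈ (insert a P).powersetCard k, ∏ p ∈ A, g p =
          ∑ k ∈ range (b + 1 + 1), (-1 : ℝ) ^ k * ∑ A ∈ P.powersetCard k, ∏ p ∈ A, g p -
          g a * ∑ k ∈ range (b + 1), (-1 : ℝ) ^ k * ∑ A ∈ P.powersetCard k, ∏ p ∈ A, g p := by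
        rw [Finset.sum_range_succ', Finset.sum_range_succ' (fun k => (-1 : ℝ) ^ k *
          ∑ A ∈ P.powersetCard k, ∏ p ∈ A, g p) (b + 1), e_zero_bf, e_zero_bf, Finset.mul_sum]
        have : ∀ k ∈ range (b + 1), (-1 : ℝ) ^ (k + 1) *
            ∑ A ∈ (insert a P).powersetCard (k + 1), ∏ p ∈ A, g p =
            (-1 : ℝ) ^ (k + 1) * ∑ A ∈ P.powersetCard (k + 1), ∏ p ∈ A, g p -
            g a * ((-1 : ℝ) ^ k * ∑ A ∈ P.powersetCard k, ∏ p ∈ A, g p) := by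
          intro k _
          rw [e_insert_bf P a ha g k]
          ring
        rw [Finset.sum_congr rfl this, Finset.sum_sub_distrib]
        ring
      rw [e1]
      have e2 : (-1 : ℝ) ^ (b + 1) = -(-1) ^ b := by ring
      rw [e2] at h1 ⊢
      nlinarith

/-- PROOF: `Pool.Agent.OmAP.bonf_prod` / `main` inside `bonf_prod_odd` of
`Pool.Agent.Lib_MP_a95293_rc.SvW` (copy that induction: `0 ≤ (-1)^b (∑_{k ≤ b} (-1)^k e_k - ∏ (1-g))`
for all `b`, used for `b = r - 1` and `b = r`); `r = 0` : `∏ (1 - g) ≤ 1`. -/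
theorem bonf_prod' (Q : Finset ℕ) (g : ℕ → ℝ) (hg : ∀ p ∈ Q, 0 ≤ g p ∧ g p ≤ 1) (r : ℕ) :
    |∏ p ∈ Q, (1 - g p) - ∑ i ∈ range r, (-1) ^ i * ∑ E ∈ Q.powersetCard i, ∏ p ∈ E, g p| ≤
      ∑ E ∈ Q.powersetCard r, ∏ p ∈ E, g p := by
  cases r with
  | zero =>
    rw [e_zero_bf]
    simp only [range_zero, sum_empty, sub_zero]
    have hpi0 : 0 ≤ ∏ p ∈ Q, (1 - g p) :=
      Finset.prod_nonneg fun p hp => by linarith [(hg p hp).2]
    have hpi1 : ∏ p ∈ Q, (1 - g p) ≤ 1 :=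
      Finset.prod_le_one (fun p hp => by linarith [(hg p hp).2])
        fun p hp => by linarith [(hg p hp).1]
    rw [abs_of_nonneg hpi0]
    exact hpi1
  | succ b =>
    have h1 := main_bf g Q hg b
    have h2 := main_bf g Q hg (b + 1)
    rw [Finset.sum_range_succ] at h2
    have h3 : (-1 : ℝ) ^ (b + 1) * (∑ k ∈ range (b + 1), (-1 : ℝ) ^ k * ∑ A ∈ Q.powersetCard k, ∏ p ∈ A, g p +
        (-1) ^ (b + 1) * ∑ A ∈ Q.powersetCard (b + 1), ∏ p ∈ A, g p - ∏ p ∈ Q, (1 - g p)) =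
        ∑ A ∈ Q.powersetCard (b + 1), ∏ p ∈ A, g p -
        (-1 : ℝ) ^ b * (∑ k ∈ range (b + 1), (-1 : ℝ) ^ k * ∑ A ∈ Q.powersetCard k, ∏ p ∈ A, g p - ∏ p ∈ Q, (1 - g p)) := by
      have e : (-1 : ℝ) ^ (b + 1) * (-1) ^ (b + 1) = 1 := by
        rw [← mul_pow]
        simp
      have e3 : (-1 : ℝ) ^ (b + 1) = -(-1) ^ b := by ring
      calc _ = (-1 : ℝ) ^ (b + 1) * (∑ k ∈ range (b + 1), (-1 : ℝ) ^ k * ∑ A ∈ Q.powersetCard k, ∏ p ∈ A, g p - ∏ p ∈ Q, (1 - g p)) +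
          ((-1 : ℝ) ^ (b + 1) * (-1) ^ (b + 1)) * ∑ A ∈ Q.powersetCard (b + 1), ∏ p ∈ A, g p := by ring
        _ = _ := by rw [e, e3]; ring
    rw [h3] at h2
    have h4 : |∏ p ∈ Q, (1 - g p) - ∑ i ∈ range (b + 1), (-1) ^ i * ∑ E ∈ Q.powersetCard i, ∏ p ∈ E, g p| =
        (-1 : ℝ) ^ b * (∑ k ∈ range (b + 1), (-1 : ℝ) ^ k * ∑ A ∈ Q.powersetCard k, ∏ p ∈ A, g p - ∏ p ∈ Q, (1 - g p)) := by
      rw [← abs_of_nonneg h1, abs_mul, abs_pow, abs_neg, abs_one, one_pow, one_mul, abs_sub_comm]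
    rw [h4]
    linarith

/-- PROOF: `Pool.Agent.OmAP.esymm_le` of `Pool.Agent.Lib_MP_f1a94e_ap.Esymm` (import or copy). -/
theorem esymm_le' (Q : Finset ℕ) (g : ℕ → ℝ) (hg : ∀ p ∈ Q, 0 ≤ g p) (r : ℕ) :
    ∑ E ∈ Q.powersetCard r, ∏ p ∈ E, g p ≤ (∑ p ∈ Q, g p) ^ r / (r.factorial : ℝ) := by
  induction Q using Finset.induction_on generalizing r with
  | empty =>
    cases r with
    | zero => simp
    | succ k => rw [e_empty_bf]; simp
  | insert a P ha ih =>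
    have hg' : ∀ p ∈ P, 0 ≤ g p := fun p hp => hg p (Finset.mem_insert_of_mem hp)
    have hga : 0 ≤ g a := hg a (Finset.mem_insert_self _ _)
    cases r with
    | zero => simp
    | succ k =>
      rw [e_insert_bf P a ha g k, Finset.sum_insert ha]
      have h1 := ih hg' (k + 1)
      have h2 := mul_le_mul_of_nonneg_left (ih hg' k) hga
      have hG : 0 ≤ ∑ p ∈ P, g p := Finset.sum_nonneg hg'
      have h3 := pow_step_bf _ _ hG hga k
      have hf : (0 : ℝ) < (k.factorial : ℝ) := by exact_mod_cast k.factorial_pos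
      have hf1 : ((k + 1).factorial : ℝ) = ((k : ℝ) + 1) * (k.factorial : ℝ) := by
        rw [Nat.factorial_succ]; push_cast; ring
      have hk1 : (0 : ℝ) < (k : ℝ) + 1 := by positivity
      rw [add_comm (g a)]
      refine (add_le_add h1 h2).trans ?_
      rw [hf1]
      have h4 : (∑ p ∈ P, g p) ^ (k + 1) / (((k : ℝ) + 1) * (k.factorial : ℝ)) +
          g a * ((∑ p ∈ P, g p) ^ k / (k.factorial : ℝ)) =
          ((∑ p ∈ P, g p) ^ (k + 1) + ((k : ℝ) + 1) * g a * (∑ p ∈ P, g p) ^ k) /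
            (((k : ℝ) + 1) * (k.factorial : ℝ)) := by
        field_simp
      rw [h4]
      exact div_le_div_of_nonneg_right h3 (by positivity)

/-- PROOF: `∑_{i ≤ r} C(m,i) k^i ≤ (1 + k m)^r` (`C(m,i) ≤ m^i C(r,i)` for `i ≤ r`: `C(m,i) ≤ m^i`). -/
theorem sum_pow_le (Q : Finset ℕ) (k r : ℕ) :
    ∑ i ∈ range (r + 1), ∑ _E ∈ Q.powersetCard i, (k : ℝ) ^ i ≤ (1 + (k : ℝ) * Q.card) ^ r := by
  rw [add_comm (1 : ℝ), add_pow]
  apply Finset.sum_le_sum
  intro i hi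
  rw [Finset.sum_const, Finset.card_powersetCard, nsmul_eq_mul, one_pow, mul_one, mul_pow]
  have h1 : ((Q.card.choose i : ℕ) : ℝ) ≤ (Q.card : ℝ) ^ i := by
    have := Nat.choose_le_pow Q.card i
    exact_mod_cast this
  have h2 : (1 : ℝ) ≤ (r.choose i : ℝ) := by
    have : 0 < r.choose i := Nat.choose_pos (by
      have := Finset.mem_range.1 hi
      omega)
    exact_mod_cast this
  have hk : (0 : ℝ) ≤ (k : ℝ) ^ i := by positivity
  have hq : (0 : ℝ) ≤ (Q.card : ℝ) ^ i := by positivity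
  calc (Q.card.choose i : ℝ) * (k : ℝ) ^ i ≤ (Q.card : ℝ) ^ i * (k : ℝ) ^ i :=
        mul_le_mul_of_nonneg_right h1 hk
    _ = (k : ℝ) ^ i * (Q.card : ℝ) ^ i * 1 := by ring
    _ ≤ (k : ℝ) ^ i * (Q.card : ℝ) ^ i * (r.choose i : ℝ) :=
        mul_le_mul_of_nonneg_left h2 (mul_nonneg hk hq)

end Pool.MP_92ef0c_nt.PB
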