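import Pool.Agent.Lib_MP_92ef0c_pb.Defs

/-! # [PB-G] counting by the Chinese remainder theorem -/

set_option autoImplicit false

namespace Pool.MP_92ef0c_nt.PB

open Finset

/-- PROOF: `Nat.Ioc_filter_modEq_card` or similar: the count differs from `(v-u)/q` by at most 1. -/
theorem class_count (q a u v : ℕ) (hq : 0 < q) (huv : u ≤ v) :
    |(((Ioc u v).filter (fun n => n ≡ a [MOD q])).card : ℝ) - ((v : ℝ) - u) / q| ≤ 1 := by
  have hq' : (0 : ℚ) < q := by exact_mod_cast hq
  have h := Nat.Ioc_filter_modEq_card u v hq a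
  set x : ℚ := ((v : ℚ) - a) / q with hx
  set y : ℚ := ((u : ℚ) - a) / q with hy
  have hyx : y ≤ x := by
    rw [hx, hy]
    have h1 : (u : ℚ) ≤ v := by exact_mod_cast huv
    exact div_le_div_of_nonneg_right (by linarith) hq'.le
  have hfl : ⌊y⌋ ≤ ⌊x⌋ := Int.floor_mono hyx
  rw [max_eq_left (by linarith)] at h
  have h2 : ((((Ioc u v).filter (fun n => n ≡ a [MOD q])).card : ℤ) : ℚ) = (⌊x⌋ : ℚ) - ⌊y⌋ := by
    rw [h]
    push_cast
    ring
  have h3 : |((((Ioc u v).filter (fun n => n ≡ a [MOD q])).card : ℤ) : ℚ) - ((v : ℚ) - u) / q| ≤ 1 := by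
    rw [h2]
    have e : ((v : ℚ) - u) / q = x - y := by
      rw [hx, hy]
      ring
    rw [e, abs_le]
    have h4 := Int.floor_le x
    have h5 := Int.lt_floor_add_one x
    have h6 := Int.floor_le y
    have h7 := Int.lt_floor_add_one y
    constructor <;> linarith
  have h4 := (Rat.cast_le (K := ℝ)).2 h3
  push_cast at h4
  exact h4

private theorem Crt_nu (H : Finset ℕ) (p : ℕ) (hp : p.Prime) :
    ((range p).filter (fun c => ∃ h ∈ H, p ∣ c + h)).card = nu H p := by
  have hp0 := hp.pos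
  have key : ∀ c h : ℕ, c < p → p ∣ c + h → (p - c) % p = h % p := by
    intro c h hc hd
    have h1 : (p - c) + c ≡ h + c [MOD p] := by
      rw [Nat.sub_add_cancel hc.le]
      have h2 : p ≡ 0 [MOD p] := Nat.modEq_zero_iff_dvd.2 (dvd_refl p)
      have h3 : h + c ≡ 0 [MOD p] := Nat.modEq_zero_iff_dvd.2 (by rwa [add_comm])
      exact h2.trans h3.symm
    exact Nat.ModEq.add_right_cancel' c h1
  have inv : ∀ c : ℕ, c < p → (p - (p - c) % p) % p = c := by
    intro c hc
    rcases Nat.eq_zero_or_pos c with rfl | h0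
    · simp
    · rw [Nat.mod_eq_of_lt (show p - c < p by omega), show p - (p - c) = c by omega,
        Nat.mod_eq_of_lt hc]
  unfold nu
  refine Finset.card_nbij' (fun c => (p - c) % p) (fun c => (p - c) % p) ?_ ?_ ?_ ?_
  · intro c hc
    rw [mem_coe, mem_filter, mem_range] at hc
    obtain ⟨hc, h, hh, hd⟩ := hc
    rw [mem_coe, mem_image]
    exact ⟨h, hh, (key c h hc hd).symm⟩
  · intro r hr
    rw [mem_coe, mem_image] at hr
    obtain ⟨h, hh, rfl⟩ := hr
    rw [mem_coe, mem_filter, mem_range]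
    refine ⟨Nat.mod_lt _ hp0, h, hh, ?_⟩
    have h1 : (p - h % p) % p + h ≡ (p - h % p) + h % p [MOD p] :=
      Nat.ModEq.add (Nat.mod_modEq _ _) (Nat.mod_modEq _ _).symm
    rw [Nat.sub_add_cancel (Nat.mod_lt _ hp0).le] at h1
    exact Nat.modEq_zero_iff_dvd.1 (h1.trans (Nat.modEq_zero_iff_dvd.2 (dvd_refl p)))
  · intro c hc
    rw [mem_coe, mem_filter, mem_range] at hc
    exact inv c hc.1
  · intro r hr
    rw [mem_coe, mem_image] at hr
    obtain ⟨h, -, rfl⟩ := hr
    exact inv _ (Nat.mod_lt _ hp0)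

/-- [PB-G] PROOF: induction on `D`, for all `q, a`. `D = insert p D'`: `p ∣ n + h` for some `h ∈ H` iff
`n ≡ c` mod `p` for one of the `nu H p` classes `c` of `-H` mod `p`; for each of them
`n ≡ a [MOD q] ∧ n ≡ c [MOD p] ↔ n ≡ b_c [MOD q p]` (`Nat.chineseRemainder`, `q` and `p` coprime), so the
count is the sum over `c` of the counts for `(q p, b_c, D')`, each `((v-u)/(q p)) ∏_{D'} + O(∏_{D'} nu)`. -/
theorem crt_count (H D : Finset ℕ) (hD : ∀ p ∈ D, p.Prime) (q a u v : ℕ) (hq : 0 < q)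
    (hcop : ∀ p ∈ D, ¬ p ∣ q) (huv : u ≤ v) :
    |(((Ioc u v).filter (fun n => n ≡ a [MOD q] ∧ ∀ p ∈ D, ∃ h ∈ H, p ∣ n + h)).card : ℝ) -
      ((v : ℝ) - u) / q * ∏ p ∈ D, ((nu H p : ℝ) / p)| ≤ ∏ p ∈ D, (nu H p : ℝ) := by
  induction D using Finset.induction_on generalizing q a with
  | empty =>
    have h := class_count q a u v hq huv
    simpa using h
  | insert p D' hpD ih =>
    have hp : p.Prime := hD p (mem_insert_self _ _)
    have hpq : ¬ p ∣ q := hcop p (mem_insert_self _ _)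
    have hc : Nat.Coprime q p := ((Nat.Prime.coprime_iff_not_dvd hp).2 hpq).symm
    have ih' := fun (b : ℕ) => ih (fun p' hp' => hD p' (mem_insert_of_mem hp')) (q * p) b
      (Nat.mul_pos hq hp.pos) (fun p' hp' hd => by
        have hpr := hD p' (mem_insert_of_mem hp')
        rcases (Nat.Prime.dvd_mul hpr).1 hd with h | h
        · exact hcop p' (mem_insert_of_mem hp') h
        · have := (Nat.prime_dvd_prime_iff_eq hpr hp).1 h
          exact hpD (this ▸ hp'))
    set C := (range p).filter (fun c => ∃ h ∈ H, p ∣ c + h) with hC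
    set A := (Ioc u v).filter (fun n => n ≡ a [MOD q] ∧ ∀ p' ∈ insert p D', ∃ h ∈ H, p' ∣ n + h) with hA
    have hmap : ∀ n ∈ A, n % p ∈ C := by
      intro n hn
      rw [hA, mem_filter] at hn
      obtain ⟨h, hh, hd⟩ := hn.2.2 p (mem_insert_self _ _)
      rw [hC, mem_filter, mem_range]
      refine ⟨Nat.mod_lt _ hp.pos, h, hh, ?_⟩
      have h1 : n % p + h ≡ n + h [MOD p] := Nat.ModEq.add_right _ (Nat.mod_modEq _ _)
      exact Nat.modEq_zero_iff_dvd.1 (h1.trans (Nat.modEq_zero_iff_dvd.2 hd))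
    have hcard : A.card = ∑ c ∈ C, (A.filter (fun n => n % p = c)).card :=
      Finset.card_eq_sum_card_fiberwise hmap
    have hfib : ∀ c ∈ C, A.filter (fun n => n % p = c) =
        (Ioc u v).filter (fun n => n ≡ (Nat.chineseRemainder hc a c : ℕ) [MOD q * p] ∧
          ∀ p' ∈ D', ∃ h ∈ H, p' ∣ n + h) := by
      intro c hcC
      rw [hC, mem_filter, mem_range] at hcC
      obtain ⟨hcp, h0, hh0, hd0⟩ := hcC
      have hb := (Nat.chineseRemainder hc a c).2
      ext n
      rw [hA, mem_filter, mem_filter, mem_filter]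
      constructor
      · rintro ⟨⟨hn, hna, hall⟩, hnc⟩
        refine ⟨hn, ?_, fun p' hp' => hall p' (mem_insert_of_mem hp')⟩
        have h2 : n ≡ c [MOD p] := by
          show n % p = c % p
          rw [hnc, Nat.mod_eq_of_lt hcp]
        exact (Nat.modEq_and_modEq_iff_modEq_mul hc).1 ⟨hna.trans hb.1.symm, h2.trans hb.2.symm⟩
      · rintro ⟨hn, hnb, hall⟩
        obtain ⟨h1, h2⟩ := (Nat.modEq_and_modEq_iff_modEq_mul hc).2 hnb
        have h3 : n ≡ c [MOD p] := h2.trans hb.2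
        refine ⟨⟨hn, h1.trans hb.1, ?_⟩, ?_⟩
        · intro p' hp'
          rcases mem_insert.1 hp' with rfl | hp'
          · exact ⟨h0, hh0, Nat.modEq_zero_iff_dvd.1
              ((h3.add_right h0).trans (Nat.modEq_zero_iff_dvd.2 hd0))⟩
          · exact hall p' hp'
        · have h4 : n % p = c % p := h3
          rw [h4, Nat.mod_eq_of_lt hcp]
    have hCcard : C.card = nu H p := Crt_nu H p hp
    rw [hcard, prod_insert hpD, prod_insert hpD, Nat.cast_sum]
    have hp0 : (p : ℝ) ≠ 0 := by exact_mod_cast hp.pos.ne'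
    have e1 : ((v : ℝ) - u) / q * ((nu H p : ℝ) / p * ∏ p' ∈ D', ((nu H p' : ℝ) / p')) =
        ∑ _c ∈ C, ((v : ℝ) - u) / ((q * p : ℕ) : ℝ) * ∏ p' ∈ D', ((nu H p' : ℝ) / p') := by
      rw [sum_const, hCcard, nsmul_eq_mul]
      push_cast
      field_simp
    have e2 : (nu H p : ℝ) * ∏ p' ∈ D', (nu H p' : ℝ) = ∑ _c ∈ C, ∏ p' ∈ D', (nu H p' : ℝ) := by
      rw [sum_const, hCcard, nsmul_eq_mul]
    rw [e1, e2, ← sum_sub_distrib]
    refine (abs_sum_le_sum_abs _ _).trans (sum_le_sum fun c hcC => ?_)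
    rw [hfib c hcC]
    exact ih' _

end Pool.MP_92ef0c_nt.PB
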