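import Mathlib

/-!
# MP_92ef0c_nt PairBarrier: definitions

A set `P` of natural numbers without two elements at distance `d`, for which the Hardy-Littlewood
asymptotics hold for all tuples without internal difference `d`.
-/

set_option autoImplicit false

namespace Pool.MP_92ef0c_nt.PB

open Finset

noncomputable section

/-- the primes up to `z` -/
def Pz (z : ℕ) : Finset ℕ := (Icc 1 z).filter Nat.Prime

/-- `∏_{p ≤ z} (1 - 1/p)` -/
def V (z : ℕ) : ℝ := ∏ p ∈ Pz z, (1 - 1 / (p : ℝ))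

/-- the sieving level of the block `[2^j, 2^(j+1))` -/
def zz (j : ℕ) : ℕ := 2 ^ Nat.sqrt j

/-- `n` has no prime factor `≤ z` -/
def Rough (z n : ℕ) : Prop := ∀ p, p.Prime → p ≤ z → ¬ p ∣ n

/-- number of residue classes modulo `p` occupied by `H` -/
def nu (H : Finset ℕ) (p : ℕ) : ℕ := (H.image (fun h => h % p)).card

/-- local factor at `p` of the Hardy-Littlewood constant of the tuple `H` in a residue class
`a` modulo `q` with all `a + h` prime to `q` -/
def loc (H : Finset ℕ) (q p : ℕ) : ℝ :=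
  if p ∣ q then ((1 - 1 / (p : ℝ))⁻¹) ^ H.card
  else (1 - (nu H p : ℝ) / p) * ((1 - 1 / (p : ℝ))⁻¹) ^ H.card

/-- the product of the local factors up to `z` -/
def SSz (H : Finset ℕ) (q z : ℕ) : ℝ := ∏ p ∈ Pz z, loc H q p

/-- `S` is the Hardy-Littlewood constant of the tuple `H` and the modulus `q` -/
def IsHL (H : Finset ℕ) (q : ℕ) (S : ℝ) : Prop :=
  Filter.Tendsto (fun z => SSz H q z) Filter.atTop (nhds S)

/-- the intensity: `1 / (V log n)` on the rough numbers -/
def rho (N₀ n : ℕ) : ℝ :=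
  open Classical in
  if N₀ ≤ n ∧ Rough (zz (Nat.log 2 n)) n then 1 / (V (zz (Nat.log 2 n)) * Real.log n) else 0

/-- the intensity before the deletion: `r n * (1 - r (n - d)) = ρ n` -/
def rr (d : ℕ) (ρ : ℕ → ℝ) (n : ℕ) : ℝ :=
  if h : 0 < d ∧ d ≤ n then ρ n / (1 - rr d ρ (n - d)) else ρ n
termination_by n
decreasing_by omega

/-- the set obtained from the chosen numbers `X` by deleting `n` if `n - d` is chosen -/
def PP (d : ℕ) (X : ℕ → Bool) : Set ℕ := {n | d ≤ n ∧ X n = true ∧ X (n - d) = false}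

/-- no two elements of `H` have difference `d` -/
def NoDiff (d : ℕ) (H : Finset ℕ) : Prop := ∀ h ∈ H, ∀ h' ∈ H, h + d ≠ h'

/-- number of `u < n ≤ v`, `n ≡ a` modulo `q`, with all `n + h`, `h ∈ H`, in `P` -/
def cnt (P : Set ℕ) (H : Finset ℕ) (q a u v : ℕ) : ℕ :=
  open Classical in
  ((Ioc u v).filter (fun n => n ≡ a [MOD q] ∧ ∀ h ∈ H, n + h ∈ P)).card

/-- number of `u < n ≤ v`, `n ≡ a` modulo `q`, with all `n + h`, `h ∈ H`, without prime factor
`≤ z` -/
def G (z : ℕ) (H : Finset ℕ) (q a u v : ℕ) : ℕ :=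
  open Classical in
  ((Ioc u v).filter (fun n => n ≡ a [MOD q] ∧ ∀ h ∈ H, Rough z (n + h))).card

/-- density of the rough tuples in a class modulo `q` -/
def dens (z : ℕ) (H : Finset ℕ) (q : ℕ) : ℝ :=
  (1 / (q : ℝ)) * ∏ p ∈ (Pz z).filter (fun p => ¬ p ∣ q), (1 - (nu H p : ℝ) / p)

/-- expectation on `S → Bool` for independent coordinates with `P(v s = true) = r s` -/
def EE {S : Type} [Fintype S] [DecidableEq S] (r : S → ℝ) (f : (S → Bool) → ℝ) : ℝ :=
  ∑ v : S → Bool, (∏ s, if v s = true then r s else 1 - r s) * f v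

end

end Pool.MP_92ef0c_nt.PB
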