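import Pool.Agent.Lib_MP_92ef0c_pb.Defs

/-! # [PB-C] finite product space: one configuration passes all tests -/

set_option autoImplicit false

namespace Pool.MP_92ef0c_nt.PB

open Finset

section

variable {S : Type} [Fintype S] [DecidableEq S]

private theorem sum_weight {A : Type} [Fintype A] [DecidableEq A] (r : A → ℝ) :
    ∑ v : A → Bool, (∏ s, if v s = true then r s else 1 - r s) = 1 := by
  have h := Finset.prod_univ_sum (fun _ : A => (Finset.univ : Finset Bool))
    (fun s b => if b = true then r s else 1 - r s)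
  rw [Fintype.piFinset_univ] at h
  rw [← h]
  apply Finset.prod_eq_one
  intro s _
  simp

/-- [PB-D] -/
theorem EE_prod {S : Type} [Fintype S] [DecidableEq S] (r : S → ℝ) (A B : Finset S)
    (hAB : Disjoint A B) :
    EE r (fun v => if (∀ s ∈ A, v s = true) ∧ (∀ s ∈ B, v s = false) then (1 : ℝ) else 0) =
      (∏ s ∈ A, r s) * ∏ s ∈ B, (1 - r s) := by
  set g : S → Bool → ℝ := fun s b => (if b = true then r s else 1 - r s) *
    ((if s ∈ A then (if b = true then 1 else 0) else 1) *
      (if s ∈ B then (if b = false then 1 else 0) else 1)) with hg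
  have h1 : ∀ v : S → Bool, (∏ s, if v s = true then r s else 1 - r s) *
      (if (∀ s ∈ A, v s = true) ∧ (∀ s ∈ B, v s = false) then (1 : ℝ) else 0) =
      ∏ s, g s (v s) := by
    intro v
    have h2 : (if (∀ s ∈ A, v s = true) ∧ (∀ s ∈ B, v s = false) then (1 : ℝ) else 0) =
        ∏ s, ((if s ∈ A then (if v s = true then (1 : ℝ) else 0) else 1) *
      (if s ∈ B then (if v s = false then 1 else 0) else 1)) := by
      split_ifs with h
      · symm
        apply Finset.prod_eq_one
        intro s _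
        by_cases hA : s ∈ A <;> by_cases hB : s ∈ B
        · exact absurd hB (Finset.disjoint_left.1 hAB hA)
        · simp [hA, hB, h.1 s hA]
        · simp [hA, hB, h.2 s hB]
        · simp [hA, hB]
      · symm
        rw [not_and_or] at h
        rcases h with h | h
        · push Not at h
          obtain ⟨s, hs, hv⟩ := h
          apply Finset.prod_eq_zero (Finset.mem_univ s)
          simp [hs, hv]
        · push Not at h
          obtain ⟨s, hs, hv⟩ := h
          apply Finset.prod_eq_zero (Finset.mem_univ s)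
          simp only [hs, if_true]
          rw [if_neg hv, mul_zero]
    rw [h2, ← Finset.prod_mul_distrib]
  unfold EE
  rw [Finset.sum_congr rfl (fun v _ => h1 v)]
  have h := Finset.prod_univ_sum (fun _ : S => (Finset.univ : Finset Bool)) g
  rw [Fintype.piFinset_univ] at h
  rw [← h]
  have h3 : ∀ s, ∑ b : Bool, g s b = (if s ∈ A then r s else 1) * (if s ∈ B then 1 - r s else 1) := by
    intro s
    rw [hg]
    by_cases hA : s ∈ A <;> by_cases hB : s ∈ B
    · exact absurd hB (Finset.disjoint_left.1 hAB hA)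
    · simp [hA, hB]
    · simp [hA, hB]
    · simp [hA, hB]
  rw [Finset.prod_congr rfl (fun s _ => h3 s), Finset.prod_mul_distrib]
  congr 1
  · rw [Finset.prod_ite_mem]; simp
  · rw [Finset.prod_ite_mem]; simp

theorem EE_const (r : S → ℝ) (c : ℝ) : EE r (fun _ => c) = c := by
  unfold EE
  rw [← Finset.sum_mul, sum_weight, one_mul]

theorem EE_add (r : S → ℝ) (f g : (S → Bool) → ℝ) :
    EE r (fun v => f v + g v) = EE r f + EE r g := by
  unfold EE
  rw [← Finset.sum_add_distrib]
  exact Finset.sum_congr rfl (fun v _ => by ring)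

theorem EE_smul (r : S → ℝ) (c : ℝ) (f : (S → Bool) → ℝ) :
    EE r (fun v => c * f v) = c * EE r f := by
  unfold EE
  rw [Finset.mul_sum]
  exact Finset.sum_congr rfl (fun v _ => by ring)

omit [DecidableEq S] in
theorem weight_nonneg (r : S → ℝ) (hr : ∀ s, 0 ≤ r s ∧ r s ≤ 1) (v : S → Bool) :
    0 ≤ ∏ s, (if v s = true then r s else 1 - r s) := by
  apply Finset.prod_nonneg
  intro s _
  have := hr s
  split_ifs
  · exact this.1
  · linarith [this.2]

theorem EE_mono (r : S → ℝ) (hr : ∀ s, 0 ≤ r s ∧ r s ≤ 1) (f g : (S → Bool) → ℝ)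
    (h : ∀ v, f v ≤ g v) : EE r f ≤ EE r g := by
  unfold EE
  exact Finset.sum_le_sum (fun v _ => mul_le_mul_of_nonneg_left (h v) (weight_nonneg r hr v))

theorem EE_sum {ι : Type} (r : S → ℝ) (J : Finset ι) (f : ι → (S → Bool) → ℝ) :
    EE r (fun v => ∑ j ∈ J, f j v) = ∑ j ∈ J, EE r (f j) := by
  unfold EE
  rw [Finset.sum_comm]
  exact Finset.sum_congr rfl (fun v _ => by rw [Finset.mul_sum])

/-- independence of functions of disjoint sets of coordinates -/
theorem EE_mul (r : S → ℝ) (A : Finset S) (f g : (S → Bool) → ℝ)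
    (hf : ∀ v v' : S → Bool, (∀ s ∈ A, v s = v' s) → f v = f v')
    (hg : ∀ v v' : S → Bool, (∀ s, s ∉ A → v s = v' s) → g v = g v') :
    EE r (fun v => f v * g v) = EE r f * EE r g := by
  set e := Equiv.piEquivPiSubtypeProd (fun s => s ∈ A) (fun _ : S => Bool) with he
  set WA : ({s // s ∈ A} → Bool) → ℝ := fun x => ∏ s, if x s = true then r s else 1 - r s with hWA
  set WB : ({s // ¬ s ∈ A} → Bool) → ℝ := fun y => ∏ s, if y s = true then r s else 1 - r s with hWB
  have hW : ∀ x y, (∏ s, if (e.symm (x, y)) s = true then r s else 1 - r s) = WA x * WB y := by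
    intro x y
    rw [hWA, hWB]
    simp only
    have hsplit := Fintype.prod_subtype_mul_prod_subtype (fun s => s ∈ A)
      (fun s => if (e.symm (x, y)) s = true then r s else 1 - r s)
    rw [← hsplit]
    have hA' : ∀ s : {s // s ∈ A}, (e.symm (x, y)) s.1 = x s := by
      intro s
      simp [he, Equiv.piEquivPiSubtypeProd, s.2]
    have hB' : ∀ s : {s // ¬ s ∈ A}, (e.symm (x, y)) s.1 = y s := by
      intro s
      simp [he, Equiv.piEquivPiSubtypeProd, s.2]
    simp only [hA', hB']
    congr 1
    apply Finset.prod_congr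
    · ext; simp
    · intro _ _; rfl
  have hE : ∀ F : (S → Bool) → ℝ, EE r F = ∑ x, ∑ y, WA x * WB y * F (e.symm (x, y)) := by
    intro F
    unfold EE
    rw [← e.symm.sum_comp, Fintype.sum_prod_type]
    exact Finset.sum_congr rfl (fun x _ => Finset.sum_congr rfl (fun y _ => by rw [hW]))
  have h1A : ∑ x, WA x = 1 := sum_weight (fun s : {s // s ∈ A} => r s)
  have h1B : ∑ y, WB y = 1 := sum_weight (fun s : {s // ¬ s ∈ A} => r s)
  set y0 : {s // ¬ s ∈ A} → Bool := fun _ => true
  set x0 : {s // s ∈ A} → Bool := fun _ => true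
  have hf' : ∀ x y, f (e.symm (x, y)) = f (e.symm (x, y0)) := by
    intro x y
    apply hf
    intro s hs
    simp [he, Equiv.piEquivPiSubtypeProd, hs]
  have hg' : ∀ x y, g (e.symm (x, y)) = g (e.symm (x0, y)) := by
    intro x y
    apply hg
    intro s hs
    simp [he, Equiv.piEquivPiSubtypeProd, hs]
  have hEf : EE r f = ∑ x, WA x * f (e.symm (x, y0)) := by
    rw [hE]
    apply Finset.sum_congr rfl
    intro x _
    have : ∀ y, WA x * WB y * f (e.symm (x, y)) = WB y * (WA x * f (e.symm (x, y0))) := by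
      intro y; rw [hf' x y]; ring
    rw [Finset.sum_congr rfl (fun y _ => this y), ← Finset.sum_mul, h1B, one_mul]
  have hEg : EE r g = ∑ y, WB y * g (e.symm (x0, y)) := by
    rw [hE, Finset.sum_comm]
    apply Finset.sum_congr rfl
    intro y _
    have : ∀ x, WA x * WB y * g (e.symm (x, y)) = WA x * (WB y * g (e.symm (x0, y))) := by
      intro x; rw [hg' x y]; ring
    rw [Finset.sum_congr rfl (fun x _ => this x), ← Finset.sum_mul, h1A, one_mul]
  rw [hE, hEf, hEg, Finset.sum_mul_sum]
  apply Finset.sum_congr rfl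
  intro x _
  apply Finset.sum_congr rfl
  intro y _
  rw [hf' x y, hg' x y]
  ring

theorem EE_prod_indep (r : S → ℝ) (T : Finset ℕ) (K : ℕ → Finset S) (φ : ℕ → (S → Bool) → ℝ)
    (hdep : ∀ n ∈ T, ∀ v v' : S → Bool, (∀ s ∈ K n, v s = v' s) → φ n v = φ n v')
    (hdis : ∀ n ∈ T, ∀ m ∈ T, n ≠ m → Disjoint (K n) (K m)) :
    EE r (fun v => ∏ n ∈ T, φ n v) = ∏ n ∈ T, EE r (φ n) := by
  induction T using Finset.induction_on with
  | empty => simp only [Finset.prod_empty]; exact EE_const r 1
  | insert a T ha ih =>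
    have h1 : ∀ v : S → Bool, ∏ n ∈ insert a T, φ n v = φ a v * ∏ n ∈ T, φ n v := fun v =>
      Finset.prod_insert ha
    simp only [h1]
    rw [EE_mul r (K a) (φ a) (fun v => ∏ n ∈ T, φ n v)
      (hdep a (Finset.mem_insert_self a T)), Finset.prod_insert ha, ih]
    · intro n hn; exact hdep n (Finset.mem_insert_of_mem hn)
    · intro n hn m hm; exact hdis n (Finset.mem_insert_of_mem hn) m (Finset.mem_insert_of_mem hm)
    · intro v v' hv
      apply Finset.prod_congr rfl
      intro n hn
      apply hdep n (Finset.mem_insert_of_mem hn)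
      intro s hs
      apply hv
      intro hsa
      have hne : n ≠ a := by rintro rfl; exact ha hn
      exact Finset.disjoint_left.1 (hdis n (Finset.mem_insert_of_mem hn) a
        (Finset.mem_insert_self a T) hne) hs hsa

/-- Hoeffding's lemma -/
theorem EE_exp (r : S → ℝ) (hr : ∀ s, 0 ≤ r s ∧ r s ≤ 1) (f : (S → Bool) → ℝ)
    (h01 : ∀ v, 0 ≤ f v ∧ f v ≤ 1) (s : ℝ) :
    EE r (fun v => Real.exp (s * (f v - EE r f))) ≤ Real.exp (s ^ 2 / 2) := by
  have hE0 : 0 ≤ EE r f := by
    have := EE_mono r hr (fun _ => 0) f (fun v => (h01 v).1)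
    rwa [EE_const] at this
  have hE1 : EE r f ≤ 1 := by
    have := EE_mono r hr f (fun _ => 1) (fun v => (h01 v).2)
    rwa [EE_const] at this
  have hc : ∀ x : ℝ, |x| ≤ 1 → Real.exp (s * x) ≤ Real.cosh s + x * Real.sinh s := by
    intro x hx
    rw [abs_le] at hx
    have ha : 0 ≤ (1 - x) / 2 := by linarith
    have hb : 0 ≤ (1 + x) / 2 := by linarith
    have h2 := convexOn_exp.2 (Set.mem_univ (-s)) (Set.mem_univ s) ha hb (by ring)
    simp only [smul_eq_mul] at h2
    have h3 : (1 - x) / 2 * -s + (1 + x) / 2 * s = s * x := by ring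
    rw [h3] at h2
    refine h2.trans (le_of_eq ?_)
    rw [Real.cosh_eq, Real.sinh_eq]
    ring
  calc EE r (fun v => Real.exp (s * (f v - EE r f)))
      ≤ EE r (fun v => (Real.cosh s - EE r f * Real.sinh s) + Real.sinh s * f v) := by
        apply EE_mono r hr
        intro v
        have h1 := h01 v
        refine (hc (f v - EE r f) (by rw [abs_le]; constructor <;> linarith)).trans (le_of_eq ?_)
        ring
    _ = Real.cosh s := by
        rw [EE_add, EE_const, EE_smul]; ring
    _ ≤ Real.exp (s ^ 2 / 2) := Real.cosh_le_exp_half_sq s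

/-- [PB-C] -/
theorem config {S : Type} [Fintype S] [DecidableEq S] (r : S → ℝ) (hr : ∀ s, 0 ≤ r s ∧ r s ≤ 1)
    {ι : Type} (J : Finset ι) (T : ι → Finset ℕ) (K : ι → ℕ → Finset S)
    (f : ι → ℕ → (S → Bool) → ℝ)
    (hdep : ∀ j ∈ J, ∀ n ∈ T j, ∀ v v' : S → Bool, (∀ s ∈ K j n, v s = v' s) → f j n v = f j n v')
    (hdis : ∀ j ∈ J, ∀ n ∈ T j, ∀ m ∈ T j, n ≠ m → Disjoint (K j n) (K j m))
    (h01 : ∀ j n v, 0 ≤ f j n v ∧ f j n v ≤ 1) (L : ℝ) (hL : Real.log (2 * J.card + 1) ≤ L)
    (hL0 : 0 < L) :
    ∃ v : S → Bool, (∀ s, v s = true → 0 < r s) ∧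
      ∀ j ∈ J, |∑ n ∈ T j, (f j n v - EE r (f j n))| ≤ √(2 * (T j).card * L) := by
  set σ : ι → ℝ := fun j => √(2 * L / (T j).card) with hσ
  set Y : ι → (S → Bool) → ℝ := fun j v => ∑ n ∈ T j, (f j n v - EE r (f j n)) with hY
  have hmgf : ∀ j ∈ J, ∀ s : ℝ,
      EE r (fun v => Real.exp (s * Y j v)) ≤ Real.exp (s ^ 2 / 2 * (T j).card) := by
    intro j hj s
    have h1 : ∀ v, Real.exp (s * Y j v) = ∏ n ∈ T j, Real.exp (s * (f j n v - EE r (f j n))) := by
      intro v
      rw [hY, ← Real.exp_sum, Finset.mul_sum]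
    simp only [h1]
    rw [EE_prod_indep r (T j) (K j) (fun n v => Real.exp (s * (f j n v - EE r (f j n))))
      (fun n hn v v' hv => by simp only [hdep j hj n hn v v' hv]) (hdis j hj)]
    calc ∏ n ∈ T j, EE r (fun v => Real.exp (s * (f j n v - EE r (f j n))))
        ≤ ∏ _n ∈ T j, Real.exp (s ^ 2 / 2) := by
          apply Finset.prod_le_prod
          · intro n _
            have := EE_mono r hr (fun _ => 0) (fun v => Real.exp (s * (f j n v - EE r (f j n))))
              (fun v => (Real.exp_pos _).le)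
            rwa [EE_const] at this
          · intro n _
            exact EE_exp r hr (f j n) (h01 j n) s
      _ = Real.exp (s ^ 2 / 2 * (T j).card) := by
          rw [Finset.prod_const, ← Real.exp_nat_mul]; ring_nf
  set Φ : (S → Bool) → ℝ := fun v => ∑ j ∈ J,
    Real.exp (-(σ j ^ 2 / 2 * (T j).card)) * (Real.exp (σ j * Y j v) + Real.exp (-σ j * Y j v))
    with hΦ
  have hEΦ : EE r Φ ≤ 2 * J.card := by
    rw [hΦ, EE_sum]
    calc ∑ j ∈ J, EE r (fun v => Real.exp (-(σ j ^ 2 / 2 * (T j).card)) *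
          (Real.exp (σ j * Y j v) + Real.exp (-σ j * Y j v))) ≤ ∑ _j ∈ J, (2 : ℝ) := by
          apply Finset.sum_le_sum
          intro j hj
          rw [EE_smul, EE_add]
          have h1 := hmgf j hj (σ j)
          have h2 := hmgf j hj (-σ j)
          rw [neg_sq] at h2
          rw [Real.exp_neg]
          have h3 := Real.exp_pos (σ j ^ 2 / 2 * (T j).card)
          rw [inv_mul_le_iff₀ h3]
          linarith
      _ = 2 * J.card := by rw [Finset.sum_const, nsmul_eq_mul, mul_comm]
  obtain ⟨v, hv1, hv2⟩ : ∃ v : S → Bool, 0 < (∏ s, if v s = true then r s else 1 - r s) ∧ Φ v ≤ 2 * J.card := by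
    by_contra hcon
    push Not at hcon
    have h1 : (2 * J.card : ℝ) < EE r Φ := by
      have h2 : (2 * J.card : ℝ) = ∑ v : S → Bool,
          (∏ s, if v s = true then r s else 1 - r s) * (2 * J.card : ℝ) := by
        rw [← Finset.sum_mul, sum_weight, one_mul]
      rw [h2]
      unfold EE
      apply Finset.sum_lt_sum
      · intro v _
        rcases (weight_nonneg r hr v).lt_or_eq with h | h
        · exact mul_le_mul_of_nonneg_left (hcon v h).le h.le
        · rw [← h, zero_mul, zero_mul]
      · have h3 : ∃ v : S → Bool, 0 < ∏ s, (if v s = true then r s else 1 - r s) := by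
          by_contra hno
          push Not at hno
          have h4 : ∑ v : S → Bool, (∏ s, if v s = true then r s else 1 - r s) ≤ 0 :=
            Finset.sum_nonpos (fun v _ => hno v)
          rw [sum_weight] at h4
          linarith
        obtain ⟨v, hv⟩ := h3
        exact ⟨v, Finset.mem_univ v, mul_lt_mul_of_pos_left (hcon v hv) hv⟩
    linarith
  refine ⟨v, ?_, ?_⟩
  · intro s hs
    by_contra h
    have h0 : r s = 0 := le_antisymm (not_lt.1 h) (hr s).1
    rw [Finset.prod_eq_zero (Finset.mem_univ s) (by rw [if_pos hs]; exact h0)] at hv1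
    exact lt_irrefl _ hv1
  · intro j hj
    show |Y j v| ≤ _
    rcases Nat.eq_zero_or_pos (T j).card with h0 | hpos
    · have : T j = ∅ := Finset.card_eq_zero.1 h0
      rw [hY]; simp [this]
    have hn : (0 : ℝ) < (T j).card := by exact_mod_cast hpos
    have hσ2 : σ j ^ 2 = 2 * L / (T j).card := Real.sq_sqrt (by positivity)
    have hσ0 : 0 < σ j := Real.sqrt_pos.2 (by positivity)
    have h1 : Real.exp (-(σ j ^ 2 / 2 * (T j).card)) *
        (Real.exp (σ j * Y j v) + Real.exp (-σ j * Y j v)) ≤ 2 * J.card := by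
      refine le_trans ?_ hv2
      exact Finset.single_le_sum (f := fun j => Real.exp (-(σ j ^ 2 / 2 * (T j).card)) *
        (Real.exp (σ j * Y j v) + Real.exp (-σ j * Y j v))) (fun i _ => by positivity) hj
    have h2 : σ j ^ 2 / 2 * (T j).card = L := by rw [hσ2]; field_simp
    rw [h2, Real.exp_neg, inv_mul_le_iff₀ (Real.exp_pos L)] at h1
    have h3 : Real.exp (σ j * |Y j v|) ≤ Real.exp (σ j * Y j v) + Real.exp (-σ j * Y j v) := by
      rcases abs_cases (Y j v) with h | h
      · rw [h.1]
        have := Real.exp_pos (-σ j * Y j v)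
        linarith
      · rw [h.1]
        have := Real.exp_pos (σ j * Y j v)
        have h6 : σ j * -Y j v = -σ j * Y j v := by ring
        rw [h6]
        linarith
    have h4 : (2 * (J.card : ℝ)) ≤ Real.exp L := by
      have h7 : (2 * (J.card : ℝ) + 1) ≤ Real.exp L := by
        rw [← Real.log_le_iff_le_exp (by positivity)]
        exact hL
      linarith
    have h5 : σ j * |Y j v| ≤ 2 * L := by
      have h8 : Real.exp (σ j * |Y j v|) ≤ Real.exp (2 * L) := by
        calc Real.exp (σ j * |Y j v|) ≤ Real.exp L * (2 * J.card) := h3.trans h1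
          _ ≤ Real.exp L * Real.exp L := mul_le_mul_of_nonneg_left h4 (Real.exp_pos L).le
          _ = Real.exp (2 * L) := by rw [← Real.exp_add]; congr 1; ring
      exact Real.exp_le_exp.1 h8
    apply Real.le_sqrt_of_sq_le
    have h6 : (σ j * |Y j v|) ^ 2 ≤ (2 * L) ^ 2 := by
      apply pow_le_pow_left₀ (by positivity) h5
    rw [mul_pow, hσ2] at h6
    have h9 : |Y j v| ^ 2 * (2 * L) ≤ (2 * (T j).card * L) * (2 * L) := by
      have h10 : 2 * L / (T j).card * |Y j v| ^ 2 * (T j).card = |Y j v| ^ 2 * (2 * L) := by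
        field_simp
      rw [← h10]
      calc 2 * L / (T j).card * |Y j v| ^ 2 * (T j).card ≤ (2 * L) ^ 2 * (T j).card :=
            mul_le_mul_of_nonneg_right h6 hn.le
        _ = (2 * (T j).card * L) * (2 * L) := by ring
    exact le_of_mul_le_mul_right h9 (by positivity)

end

end Pool.MP_92ef0c_nt.PB
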