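import Pool.Agent.Lib_MP_92ef0c_pb.Defs

/-! # [PB-L1] counting the admissible classes for the pair `{0, e}` -/

set_option autoImplicit false

namespace Pool.MP_92ef0c_nt.PB

open Finset

/-- the classes `c < p` with `p` dividing neither `c` nor `c + e` are `p - nu {0, e} p` in number -/
theorem padm_local (e p : ℕ) (hp : p.Prime) :
    (((range p).filter (fun c => ¬ p ∣ c ∧ ¬ p ∣ c + e)).card : ℝ) =
      (p : ℝ) - (nu {0, e} p : ℝ) := by
  have hp0 : 0 < p := hp.pos
  have hp1 : 1 < p := hp.one_lt
  by_cases hpe : p ∣ e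
  · have he : e % p = 0 := Nat.mod_eq_zero_of_dvd hpe
    have hnu : nu {0, e} p = 1 := by
      unfold nu
      rw [image_insert, image_singleton, he, Nat.zero_mod]
      simp
    have hs : (range p).filter (fun c => ¬ p ∣ c ∧ ¬ p ∣ c + e) = (range p).erase 0 := by
      ext c
      simp only [mem_filter, mem_range, mem_erase]
      constructor
      · rintro ⟨h1, h2, -⟩
        refine ⟨?_, h1⟩
        rintro rfl
        exact h2 (dvd_zero p)
      · rintro ⟨h1, h2⟩
        have h3 : ¬ p ∣ c := fun h => absurd (Nat.le_of_dvd (Nat.pos_of_ne_zero h1) h) (by omega)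
        refine ⟨h2, h3, ?_⟩
        intro h
        exact h3 ((Nat.dvd_add_left hpe).mp h)
    rw [hs, hnu, card_erase_of_mem (mem_range.mpr hp0), card_range]
    rw [Nat.cast_sub (by omega : 1 ≤ p)]
  · have he : e % p ≠ 0 := fun h => hpe (Nat.dvd_of_mod_eq_zero h)
    have helt : e % p < p := Nat.mod_lt _ hp0
    have hnu : nu {0, e} p = 2 := by
      unfold nu
      rw [image_insert, image_singleton, Nat.zero_mod]
      rw [card_insert_of_notMem, card_singleton]
      rw [mem_singleton]
      exact fun h => he h.symm
    have hs : (range p).filter (fun c => ¬ p ∣ c ∧ ¬ p ∣ c + e) =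
        ((range p).erase 0).erase (p - e % p) := by
      ext c
      simp only [mem_filter, mem_range, mem_erase]
      have key : c < p → c ≠ 0 → (p ∣ c + e ↔ c = p - e % p) := by
        intro hc hc0
        have h1 : p ∣ c + e ↔ p ∣ c + e % p := by
          have h2 : c + e = c + e % p + p * (e / p) := by
            have := Nat.mod_add_div e p
            omega
          rw [h2]
          exact Nat.dvd_add_left (dvd_mul_right p _)
        rw [h1]
        constructor
        · rintro ⟨k, hk⟩
          have hk1 : k = 1 := by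
            rcases Nat.lt_trichotomy k 1 with h | h | h
            · have : k = 0 := by omega
              subst this
              omega
            · exact h
            · exfalso
              have : p * 2 ≤ p * k := Nat.mul_le_mul_left p h
              omega
          subst hk1
          omega
        · intro h
          refine ⟨1, ?_⟩
          omega
      constructor
      · rintro ⟨h1, h2, h3⟩
        have h0 : c ≠ 0 := by
          rintro rfl
          exact h2 (dvd_zero p)
        exact ⟨fun h => h3 ((key h1 h0).mpr h), h0, h1⟩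
      · rintro ⟨h1, h2, h3⟩
        refine ⟨h3, ?_, fun h => h1 ((key h3 h2).mp h)⟩
        intro h
        exact absurd (Nat.le_of_dvd (Nat.pos_of_ne_zero h2) h) (by omega)
    have hm1 : p - e % p ∈ (range p).erase 0 := by
      rw [mem_erase, mem_range]
      omega
    rw [hs, hnu, card_erase_of_mem hm1, card_erase_of_mem (mem_range.mpr hp0), card_range]
    have h2p : 2 ≤ p := hp.two_le
    have : p - 1 - 1 = p - 2 := by omega
    rw [this, Nat.cast_sub h2p]

/-- the count in a class modulo `m` -/
theorem padm_base (q m b : ℕ) (hm : 0 < m) (hmq : m ∣ q) :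
    (((range q).filter (fun A => A ≡ b [MOD m])).card : ℝ) = (q : ℝ) / m := by
  obtain ⟨k, rfl⟩ := hmq
  have h1 := Nat.count_modEq_card (m * k) hm b
  rw [Nat.count_eq_card_filter_range] at h1
  rw [h1]
  have h2 : (m * k) % m = 0 := Nat.mul_mod_right m k
  rw [h2, if_neg (Nat.not_lt_zero _), Nat.add_zero, Nat.mul_div_cancel_left _ hm]
  have hm' : (m : ℝ) ≠ 0 := by positivity
  push_cast
  field_simp

/-- the count of admissible numbers in a class modulo `m` -/
theorem padm_count (e q : ℕ) (D : Finset ℕ) : (∀ p ∈ D, p.Prime) → (∀ p ∈ D, p ∣ q) →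
    ∀ m b : ℕ, 0 < m → m ∣ q → (∀ p ∈ D, ¬ p ∣ m) →
    (((range q).filter (fun A => A ≡ b [MOD m] ∧ ∀ p ∈ D, ¬ p ∣ A ∧ ¬ p ∣ A + e)).card : ℝ) =
      (q : ℝ) / m * ∏ p ∈ D, (1 - (nu {0, e} p : ℝ) / p) := by
  induction D using Finset.induction_on with
  | empty =>
    intro _ _ m b hm hmq _
    have h := padm_base q m b hm hmq
    simpa using h
  | insert p D hpD ih =>
    intro hD hDq m b hm hmq hDm
    have hpp : p.Prime := hD p (mem_insert_self p D)
    have hp0 : 0 < p := hpp.pos
    have hpm : Nat.Coprime m p := by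
      rw [Nat.coprime_comm]
      exact (Nat.Prime.coprime_iff_not_dvd hpp).mpr (hDm p (mem_insert_self p D))
    have hmp : m * p ∣ q :=
      Nat.Coprime.mul_dvd_of_dvd_of_dvd hpm hmq (hDq p (mem_insert_self p D))
    have ih' := ih (fun r hr => hD r (mem_insert_of_mem hr)) (fun r hr => hDq r (mem_insert_of_mem hr))
    set S := (range q).filter
      (fun A => A ≡ b [MOD m] ∧ ∀ r ∈ insert p D, ¬ r ∣ A ∧ ¬ r ∣ A + e) with hS
    set T := (range p).filter (fun c => ¬ p ∣ c ∧ ¬ p ∣ c + e) with hT
    have hmaps : (S : Set ℕ).MapsTo (fun A => A % p) T := by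
      intro A hA
      rw [hS, mem_coe, mem_filter] at hA
      rw [hT, mem_coe, mem_filter, mem_range]
      have h1 := hA.2.2 p (mem_insert_self p D)
      refine ⟨Nat.mod_lt _ hp0, ?_, ?_⟩
      · intro h
        exact h1.1 ((Nat.dvd_mod_iff (dvd_refl p)).mp h)
      · intro h
        apply h1.2
        have h2 : A + e = (A % p + e) + p * (A / p) := by
          have := Nat.mod_add_div A p
          omega
        rw [h2]
        exact dvd_add h (dvd_mul_right p _)
    have hcard := card_eq_sum_card_fiberwise hmaps
    have hfib : ∀ c ∈ T, (((S.filter (fun A => A % p = c)).card : ℕ) : ℝ) =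
        (q : ℝ) / ((m * p : ℕ) : ℝ) * ∏ r ∈ D, (1 - (nu {0, e} r : ℝ) / r) := by
      intro c hc
      rw [hT, mem_filter, mem_range] at hc
      obtain ⟨hcp, hc1, hc2⟩ := hc
      have hcrt := Nat.chineseRemainder hpm b c
      obtain ⟨b', hb1, hb2⟩ := hcrt
      have hset : S.filter (fun A => A % p = c) = (range q).filter
          (fun A => A ≡ b' [MOD m * p] ∧ ∀ r ∈ D, ¬ r ∣ A ∧ ¬ r ∣ A + e) := by
        ext A
        rw [hS, mem_filter, mem_filter, mem_filter]
        constructor
        · rintro ⟨⟨h1, h2, h3⟩, h4⟩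
          refine ⟨h1, ?_, fun r hr => h3 r (mem_insert_of_mem hr)⟩
          rw [← Nat.modEq_and_modEq_iff_modEq_mul hpm]
          refine ⟨h2.trans hb1.symm, ?_⟩
          have h5 : A ≡ c [MOD p] := by
            rw [Nat.ModEq, h4, Nat.mod_eq_of_lt hcp]
          exact h5.trans hb2.symm
        · rintro ⟨h1, h2, h3⟩
          rw [← Nat.modEq_and_modEq_iff_modEq_mul hpm] at h2
          have h5 : A ≡ c [MOD p] := h2.2.trans hb2
          have h6 : A % p = c := by
            have := h5
            rw [Nat.ModEq, Nat.mod_eq_of_lt hcp] at this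
            exact this
          refine ⟨⟨h1, h2.1.trans hb1, ?_⟩, h6⟩
          intro r hr
          rw [mem_insert] at hr
          rcases hr with rfl | hr
          · have h7 : A = c + r * (A / r) := by
              have := Nat.mod_add_div A r
              omega
            constructor
            · intro h
              apply hc1
              rw [h7] at h
              exact (Nat.dvd_add_left (dvd_mul_right r _)).mp h
            · intro h
              apply hc2
              have h8 : A + e = (c + e) + r * (A / r) := by omega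
              rw [h8] at h
              exact (Nat.dvd_add_left (dvd_mul_right r _)).mp h
          · exact h3 r hr
      rw [hset]
      refine ih' (m * p) b' (Nat.mul_pos hm hp0) hmp ?_
      intro r hr hrm
      have hrp : r.Prime := hD r (mem_insert_of_mem hr)
      rcases (Nat.Prime.dvd_mul hrp).mp hrm with h | h
      · exact hDm r (mem_insert_of_mem hr) h
      · have : r = p := (Nat.prime_dvd_prime_iff_eq hrp hpp).mp h
        exact hpD (this ▸ hr)
    rw [hcard, Nat.cast_sum, sum_congr rfl hfib, sum_const, nsmul_eq_mul, padm_local e p hpp,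
      prod_insert hpD]
    have hp' : (p : ℝ) ≠ 0 := by positivity
    have hm' : (m : ℝ) ≠ 0 := by positivity
    push_cast
    field_simp

/-- the count of `A < q` with `A` and `A + e` prime to `q` -/
theorem padm_total (e q : ℕ) (hq : 0 < q) :
    (((range q).filter (fun A => Nat.Coprime A q ∧ Nat.Coprime (A + e) q)).card : ℝ) =
      q * ∏ p ∈ q.primeFactors, (1 - (nu {0, e} p : ℝ) / p) := by
  have h := padm_count e q q.primeFactors (fun p hp => Nat.prime_of_mem_primeFactors hp)
    (fun p hp => Nat.dvd_of_mem_primeFactors hp) 1 0 one_pos (one_dvd q)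
    (fun p hp h => (Nat.prime_of_mem_primeFactors hp).one_lt.ne' (Nat.dvd_one.mp h))
  rw [Nat.cast_one, div_one] at h
  rw [← h]
  have hcop : ∀ n : ℕ, Nat.Coprime n q ↔ ∀ p ∈ q.primeFactors, ¬ p ∣ n := by
    intro n
    constructor
    · intro hn p hp hpn
      have h1 : p ∣ Nat.gcd n q := Nat.dvd_gcd hpn (Nat.dvd_of_mem_primeFactors hp)
      rw [hn] at h1
      exact (Nat.prime_of_mem_primeFactors hp).one_lt.ne' (Nat.dvd_one.mp h1)
    · intro hn
      by_contra hc
      obtain ⟨p, hp, hpn, hpq⟩ := Nat.Prime.not_coprime_iff_dvd.mp hc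
      exact hn p (Nat.mem_primeFactors.mpr ⟨hp, hpq, hq.ne'⟩) hpn
  have hset : (range q).filter (fun A => Nat.Coprime A q ∧ Nat.Coprime (A + e) q) =
      (range q).filter (fun A => A ≡ 0 [MOD 1] ∧
        ∀ p ∈ q.primeFactors, ¬ p ∣ A ∧ ¬ p ∣ A + e) := by
    apply filter_congr
    intro A _
    rw [hcop A, hcop (A + e)]
    constructor
    · rintro ⟨h1, h2⟩
      exact ⟨Nat.modEq_one, fun p hp => ⟨h1 p hp, h2 p hp⟩⟩
    · rintro ⟨-, h2⟩
      exact ⟨fun p hp => (h2 p hp).1, fun p hp => (h2 p hp).2⟩
  rw [hset]

end Pool.MP_92ef0c_nt.PB
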