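import Pool.Agent.Lib_MP_92ef0c_pb.Defs

/-! # [PB-L2] the constant for pairs: the product -/

set_option autoImplicit false

namespace Pool.MP_92ef0c_nt.PB

open Finset Filter Topology

theorem l2_nu_eq (e p : ℕ) : nu {0, e} p = if p ∣ e then 1 else 2 := by
  unfold nu
  rw [image_insert, image_singleton, Nat.zero_mod]
  split_ifs with h
  · rw [Nat.mod_eq_zero_of_dvd h]
    simp
  · rw [card_pair]
    intro h'
    exact h (Nat.dvd_of_mod_eq_zero h'.symm)

theorem l2_mem_Pz {z p : ℕ} : p ∈ Pz z ↔ p.Prime ∧ p ≤ z := by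
  unfold Pz
  rw [mem_filter, mem_Icc]
  constructor
  · rintro ⟨⟨_, h⟩, h'⟩
    exact ⟨h', h⟩
  · rintro ⟨h', h⟩
    exact ⟨⟨h'.one_lt.le, h⟩, h'⟩

theorem l2_one_sub_pos (e : ℕ) (he : Even e) {p : ℕ} (hp : p.Prime) :
    0 < 1 - (nu {0, e} p : ℝ) / p := by
  have hp0 : (0 : ℝ) < p := by exact_mod_cast hp.pos
  rw [sub_pos, div_lt_one hp0]
  norm_cast
  rw [l2_nu_eq]
  split_ifs with h
  · exact hp.one_lt
  · have h2 := hp.two_le
    rcases h2.lt_or_eq with h3 | h3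
    · exact h3
    · exact absurd (h3 ▸ he.two_dvd) h

/-- the prime factors of `n` as a filter of the primes up to `z` -/
theorem l2_primeFactors {n z : ℕ} (hn : 0 < n) (h : n ≤ z) :
    n.primeFactors = (Pz z).filter (fun p => p ∣ n) := by
  ext p
  rw [mem_filter, l2_mem_Pz, Nat.mem_primeFactors]
  constructor
  · rintro ⟨h1, h2, _⟩
    exact ⟨⟨h1, (Nat.le_of_dvd hn h2).trans h⟩, h2⟩
  · rintro ⟨⟨h1, _⟩, h2⟩
    exact ⟨h1, h2, hn.ne'⟩

/-- the completed product -/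
theorem l2_stepA (e q z : ℕ) (he0 : 0 < e) (hq : 0 < q) (hz : q ≤ z) :
    (∏ p ∈ q.primeFactors, (1 - (nu {0, e} p : ℝ) / p)) * SSz {0, e} q z
      = ∏ p ∈ Pz z, ((1 - (nu {0, e} p : ℝ) / p) * ((1 - 1 / (p : ℝ))⁻¹) ^ 2) := by
  rw [l2_primeFactors hq hz, prod_filter, SSz, ← prod_mul_distrib]
  refine prod_congr rfl fun p _ => ?_
  have hc : ({0, e} : Finset ℕ).card = 2 := card_pair he0.ne
  unfold loc
  rw [hc]
  split_ifs
  · rfl
  · rw [one_mul]

theorem l2_stepB (e z : ℕ) (he : Even e) (he0 : 0 < e) (hz : e ≤ z) :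
    ∏ p ∈ Pz z, ((1 - (nu {0, e} p : ℝ) / p) * ((1 - 1 / (p : ℝ))⁻¹) ^ 2)
      = 2 * (∏ p ∈ e.primeFactors.filter (fun p => 2 < p),
        (((p : ℝ) - 1) / ((p : ℝ) - 2))) *
        ∏ p ∈ (Pz z).filter (fun p => 2 < p), (1 - 1 / ((p : ℝ) - 1) ^ 2) := by
  have h2e : 2 ∣ e := he.two_dvd
  have h2 : 2 ≤ z := (Nat.le_of_dvd he0 h2e).trans hz
  have hP : Pz z = insert 2 ((Pz z).filter (fun p => 2 < p)) := by
    ext p
    rw [mem_insert, mem_filter, l2_mem_Pz]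
    constructor
    · rintro ⟨h1, h3⟩
      rcases h1.two_le.lt_or_eq with h4 | h4
      · exact Or.inr ⟨⟨h1, h3⟩, h4⟩
      · exact Or.inl h4.symm
    · rintro (rfl | ⟨h, _⟩)
      · exact ⟨Nat.prime_two, h2⟩
      · exact h
  have hn : (2 : ℕ) ∉ (Pz z).filter (fun p => 2 < p) := by
    rw [mem_filter]
    rintro ⟨_, h⟩
    exact lt_irrefl _ h
  have hF : e.primeFactors.filter (fun p => 2 < p)
      = ((Pz z).filter (fun p => 2 < p)).filter (fun p => p ∣ e) := by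
    rw [l2_primeFactors he0 hz, filter_filter, filter_filter]
    refine filter_congr fun p _ => ?_
    exact and_comm
  rw [hF]
  have hmem : ∀ p ∈ (Pz z).filter (fun p => 2 < p), 2 < p := fun p hp => (mem_filter.1 hp).2
  conv_lhs => rw [hP]
  generalize (Pz z).filter (fun p => 2 < p) = F at hn hmem ⊢
  rw [prod_insert hn, prod_filter (fun p => p ∣ e), mul_assoc (2 : ℝ), ← prod_mul_distrib]
  congr 1
  · rw [l2_nu_eq, if_pos h2e]
    norm_num
  · refine prod_congr rfl fun p hp => ?_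
    have hp := hmem p hp
    have hp3 : (3 : ℝ) ≤ p := by exact_mod_cast hp
    have h0 : (p : ℝ) ≠ 0 := by linarith
    have h1 : (p : ℝ) - 1 ≠ 0 := by linarith
    have h2 : (p : ℝ) - 2 ≠ 0 := by linarith
    have h3 : 1 - 1 / (p : ℝ) = (p - 1) / p := by field_simp
    rw [l2_nu_eq, h3, inv_div]
    split_ifs with h
    · push_cast
      field_simp
      ring
    · push_cast
      field_simp
      ring

/-- the twin prime factors -/
theorem l2_summable : Summable fun p : {p : ℕ // p.Prime ∧ 2 < p} =>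
    (-(1 / (((p : ℕ) : ℝ) - 1) ^ 2)) := by
  refine Summable.neg ?_
  have h1 : Summable fun n : ℕ => (4 : ℝ) * (1 / (n : ℝ) ^ 2) :=
    (Real.summable_one_div_nat_pow.2 one_lt_two).mul_left 4
  have h2 : Summable fun p : {p : ℕ // p.Prime ∧ 2 < p} => (4 : ℝ) * (1 / ((p : ℕ) : ℝ) ^ 2) :=
    h1.comp_injective Subtype.val_injective
  refine Summable.of_nonneg_of_le (fun p => by positivity) (fun p => ?_) h2
  have hp3 : (3 : ℝ) ≤ (p : ℕ) := by exact_mod_cast p.2.2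
  rw [mul_one_div, div_le_div_iff₀ (by nlinarith) (by nlinarith)]
  nlinarith

theorem l2_tendsto : Tendsto (fun z : ℕ => ∏ p ∈ (Pz z).filter (fun p => 2 < p),
    (1 - 1 / ((p : ℝ) - 1) ^ 2)) atTop
    (𝓝 (∏' p : {p : ℕ // p.Prime ∧ 2 < p}, (1 - 1 / (((p : ℕ) : ℝ) - 1) ^ 2))) := by
  have hm : Multipliable fun p : {p : ℕ // p.Prime ∧ 2 < p} =>
      (1 - 1 / (((p : ℕ) : ℝ) - 1) ^ 2) := by
    have h := l2_summable.norm
    have h1 := multipliable_one_add_of_summable h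
    refine h1.congr fun p => ?_
    rw [← sub_eq_add_neg]
  have hs : Tendsto (fun z : ℕ => (Pz z).subtype (fun p => p.Prime ∧ 2 < p)) atTop atTop := by
    refine tendsto_atTop_finset_of_monotone (fun a b hab x hx => ?_) fun x => ⟨x, ?_⟩
    · rw [mem_subtype, l2_mem_Pz] at hx ⊢
      exact ⟨hx.1, hx.2.trans hab⟩
    · rw [mem_subtype, l2_mem_Pz]
      exact ⟨x.2.1, le_rfl⟩
  refine (hm.hasProd.comp hs).congr fun z => ?_
  change ∏ p ∈ (Pz z).subtype (fun p => p.Prime ∧ 2 < p), (1 - 1 / (((p : ℕ) : ℝ) - 1) ^ 2) = _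
  rw [prod_subtype_eq_prod_filter (fun p : ℕ => (1 - 1 / ((p : ℝ) - 1) ^ 2))]
  refine prod_congr ?_ fun _ _ => rfl
  ext p
  rw [mem_filter, mem_filter, l2_mem_Pz]
  tauto

end Pool.MP_92ef0c_nt.PB
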