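import Pool.Agent.Lib_MP_92ef0c_pb.HL
import Pool.Agent.Lib_MP_92ef0c_pb.PairConst
import Pool.Agent.Lib_MP_92ef0c_pb.PairAdm

/-! # [PB-L] the constant for pairs -/

set_option autoImplicit false

namespace Pool.MP_92ef0c_nt.PB

open Finset

/-- number of admissible classes `A` mod `q`: `A` and `A + e` prime to `q` -/
def adm (e q : ℕ) : ℕ := ((range q).filter (fun A => Nat.Coprime A q ∧ Nat.Coprime (A + e) q)).card

/-- [PB-L1] PROOF: for every set `D` of prime factors of `q`: the number of `A < q`, `A ≡ b [MOD m]`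
(`m ∣ q`, no `p ∈ D` divides `m`) with `p ∤ A (A + e)` for all `p ∈ D` is `(q/m) ∏_{p ∈ D} (1 - nu {0,e} p / p)`:
induction on `D` (CRT), `D = q.primeFactors`, `m = 1`. -/
theorem adm_eq (e q : ℕ) (hq : 0 < q) :
    (adm e q : ℝ) = q * ∏ p ∈ q.primeFactors, (1 - (nu {0, e} p : ℝ) / p) :=
  padm_total e q hq

/-- [PB-L2] PROOF: `S/q = (1/|φ|) ∏_{p ∣ q} (1 - nu/p) S` and `∏_{p ∣ q} (1 - nu/p) · S` is the limit of
`∏_{p ≤ z} (1 - nu/p) (1 - 1/p)^(-2)`, whose factor is `2` for `p = 2`, and for `p > 2`: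
`(1 - 1/(p-1)^2) (p-1)/(p-2)` if `p ∣ e`, `1 - 1/(p-1)^2` otherwise. `1 - nu/p > 0` for all `p` as `e` is
even. The infinite product is multipliable (`∑ 1/(p-1)^2 < ∞`) and its partial products over
`p ≤ z` tend to it. -/
theorem pair_const (e q : ℕ) (he : Even e) (he0 : 0 < e) (hq : 0 < q) (S : ℝ)
    (hS : IsHL {0, e} q S) :
    S / q = 2 / (adm e q : ℝ) * (∏ p ∈ e.primeFactors.filter (fun p => 2 < p),
        (((p : ℝ) - 1) / ((p : ℝ) - 2))) *
      (∏' p : {p : ℕ // p.Prime ∧ 2 < p}, (1 - 1 / (((p : ℕ) : ℝ) - 1) ^ 2)) := by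
  have hQ : 0 < ∏ p ∈ q.primeFactors, (1 - (nu {0, e} p : ℝ) / p) :=
    prod_pos fun p hp => l2_one_sub_pos e he (Nat.prime_of_mem_primeFactors hp)
  have h1 : Filter.Tendsto (fun z => (∏ p ∈ q.primeFactors, (1 - (nu {0, e} p : ℝ) / p))
      * SSz {0, e} q z) Filter.atTop
      (nhds ((∏ p ∈ q.primeFactors, (1 - (nu {0, e} p : ℝ) / p)) * S)) := hS.const_mul _
  have h2 := l2_tendsto.const_mul (2 * (∏ p ∈ e.primeFactors.filter (fun p => 2 < p),
        (((p : ℝ) - 1) / ((p : ℝ) - 2))))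
  have h3 := tendsto_nhds_unique (h1.congr' (Filter.eventually_atTop.2 ⟨max q e, fun z hz => by
    rw [l2_stepA e q z he0 hq (le_of_max_le_left hz), l2_stepB e z he he0 (le_of_max_le_right hz)]⟩))
    h2
  have hq' : (0 : ℝ) < q := by exact_mod_cast hq
  rw [adm_eq e q hq]
  generalize (∏ p ∈ q.primeFactors, (1 - (nu {0, e} p : ℝ) / p)) = Q at hQ h3 ⊢
  generalize (∏ p ∈ e.primeFactors.filter (fun p => 2 < p),
        (((p : ℝ) - 1) / ((p : ℝ) - 2))) = B at h3 ⊢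
  generalize (∏' p : {p : ℕ // p.Prime ∧ 2 < p}, (1 - 1 / (((p : ℕ) : ℝ) - 1) ^ 2)) = C at h3 ⊢
  rw [div_mul_eq_mul_div, div_mul_eq_mul_div, ← h3, mul_div_mul_comm]
  field_simp

end Pool.MP_92ef0c_nt.PB
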