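import Pool.Agent.Lib_MP_92ef0c_pb.Sum
import Pool.Agent.Lib_MP_92ef0c_pb.Pair

/-! # the main theorem -/

set_option autoImplicit false

namespace Pool.MP_92ef0c_nt.PB

open Finset

theorem main (d : ℕ) (hd : 0 < d) : ∃ P : Set ℕ, (∀ n ∈ P, n + d ∉ P) ∧
    (∀ n ∈ P, ∀ p, p.Prime → p ∣ n → 2 ^ Nat.sqrt (Nat.log 2 n) < p) ∧
    ∀ H : Finset ℕ, NoDiff d H → ∀ ε : ℝ, 0 < ε → ∃ c K : ℝ, 0 < c ∧ 0 < K ∧
      ∀ x q a u v : ℕ, 2 ≤ x → 0 < q → (∀ h ∈ H, Nat.Coprime (a + h) q) → u ≤ v → v ≤ x →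
        (q : ℝ) * (x : ℝ) ^ ε ≤ (v : ℝ) - u → ∀ S : ℝ, IsHL H q S →
        |(cnt P H q a u v : ℝ) -
          S / q * ∫ t in (max (u : ℝ) 2)..(v : ℝ), 1 / (Real.log t) ^ H.card| ≤
          K * (((v : ℝ) - u) / q) * Real.exp (-(c * √(Real.log x))) := by
  classical
  obtain ⟨N₁, hN₁⟩ := rho_bounds
  obtain ⟨X, hX0, hX⟩ := exists_X d hd (rho N₁) (hN₁ N₁ le_rfl)
  refine ⟨PP d X, ?_, ?_, ?_⟩
  · rintro n ⟨-, h1, -⟩ ⟨-, -, h2⟩
    rw [Nat.add_sub_cancel] at h2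
    rw [h1] at h2
    exact Bool.noConfusion h2
  · rintro n ⟨-, h1, -⟩ p hp hpn
    have h2 := rough_of_rho_pos (hX0 n h1)
    by_contra h3
    exact h2 p hp (not_lt.1 h3) hpn
  · intro H hH ε hε
    set ε' := min ε 1 with hε'
    have hε'0 : 0 < ε' := lt_min hε one_pos
    obtain ⟨c, K, hc, hK, hfull⟩ := block_full d hd N₁ X hX H hH (ε' / 8) (by positivity)
    obtain ⟨c', K', hc', hK', hsum⟩ := sum_bound H.card ε' c K hε'0 (min_le_right _ _) hc hK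
    refine ⟨c', K', hc', hK', ?_⟩
    intro x q a u v hx hq hcop huv hvx hlen S hS
    have hx1 : (1 : ℝ) ≤ x := by exact_mod_cast (by omega : 1 ≤ x)
    have hq0 : (0 : ℝ) < q := by exact_mod_cast hq
    have hlen' : (q : ℝ) * (x : ℝ) ^ ε' ≤ (v : ℝ) - u :=
      le_trans (mul_le_mul_of_nonneg_left
        (Real.rpow_le_rpow_of_exponent_le hx1 (min_le_left _ _)) hq0.le) hlen
    have hxe : (1 : ℝ) ≤ (x : ℝ) ^ ε' := Real.one_le_rpow hx1 hε'0.le
    have hvu : (v : ℝ) - u ≤ x := by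
      have h1 : (v : ℝ) ≤ x := by exact_mod_cast hvx
      have h2 : (0 : ℝ) ≤ u := Nat.cast_nonneg u
      linarith
    have hqx : q ≤ x := by
      have h1 : (q : ℝ) ≤ (q : ℝ) * (x : ℝ) ^ ε' := le_mul_of_one_le_right hq0.le hxe
      have h2 : (q : ℝ) ≤ x := h1.trans (hlen'.trans hvu)
      exact_mod_cast h2
    have hJ1 : 2 ^ Nat.log 2 x ≤ x := Nat.pow_log_le_self 2 (by omega)
    have hJ2 : x < 2 ^ (Nat.log 2 x + 1) := Nat.lt_pow_succ_log_self (by norm_num) x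
    have hv2 : 2 ≤ v := by
      have hx2 : (1 : ℝ) < x := by exact_mod_cast (by omega : 1 < x)
      have h1 : (1 : ℝ) < (x : ℝ) ^ ε' := Real.one_lt_rpow hx2 hε'0
      have h3 : (1 : ℝ) ≤ q := by exact_mod_cast hq
      have h2 : (1 : ℝ) < (v : ℝ) - u := by
        calc (1 : ℝ) < (x : ℝ) ^ ε' := h1
          _ ≤ (q : ℝ) * (x : ℝ) ^ ε' := le_mul_of_one_le_left (by linarith) h3
          _ ≤ _ := hlen'
      have h4 : (1 : ℝ) < v := by
        have : (0 : ℝ) ≤ u := Nat.cast_nonneg u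
        linarith
      have h5 : 1 < v := by exact_mod_cast h4
      omega
    have h1 := cut_blocks (PP d X) H q a (S / q)
      (fun j y => K * (1 + Real.log q) ^ (H.card + 1) *
          (y / q * Real.exp (-(c * √j)) + (2 : ℝ) ^ (ε' / 8 * j) * (√(y / q) + 1)))
      (Nat.log 2 x) ?_ ?_ u v huv (lt_of_le_of_lt hvx hJ2)
    · have h2 := hsum x q (Nat.log 2 x) ((v : ℝ) - u) hx hq hqx hJ1 hJ2 hlen'
      have h3 : max (v : ℝ) 2 = v := max_eq_left (by exact_mod_cast hv2)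
      rw [h3] at h1
      exact h1.trans h2
    · intro j y y' hy hyy'
      have hl : 0 ≤ Real.log q := Real.log_nonneg (by exact_mod_cast hq)
      gcongr
    · intro j u' v' hj hu' huv' hv'
      exact hfull j q a u' v' hj hq hcop S hS hu' huv' hv'

end Pool.MP_92ef0c_nt.PB
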