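import Pool.Agent.Lib_MP_92ef0c_pb.Block
import Pool.Agent.Lib_MP_92ef0c_pb.BlockMain

/-! # [PB-N1] the count on one full block -/

set_option autoImplicit false

namespace Pool.MP_92ef0c_nt.PB

open Finset

private theorem pow_exp_bf (k : ℕ) (c x : ℝ) (hc : 0 < c) (hx : 0 ≤ x) :
    x ^ k ≤ ((k.factorial : ℝ) / c ^ k) * Real.exp (c * x) := by
  have h := Real.pow_div_factorial_le_exp (c * x) (by positivity) k
  have hf : (0 : ℝ) < k.factorial := by exact_mod_cast k.factorial_pos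
  rw [div_le_iff₀ hf, mul_pow] at h
  rw [div_mul_eq_mul_div, le_div_iff₀ (by positivity)]
  linarith

private theorem int_bound_bf (k u v : ℕ) (hu : 2 ≤ u) (huv : u ≤ v) :
    |∫ t in (u : ℝ)..v, 1 / (Real.log t) ^ k| ≤ (1 / Real.log 2) ^ k * ((v : ℝ) - u) := by
  have huv' : (u : ℝ) ≤ v := by exact_mod_cast huv
  have hu' : (2 : ℝ) ≤ u := by exact_mod_cast hu
  have h3 : 0 < Real.log 2 := Real.log_pos (by norm_num)
  have h := intervalIntegral.norm_integral_le_of_norm_le_const (a := (u : ℝ)) (b := v)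
    (f := fun t => 1 / (Real.log t) ^ k) (C := (1 / Real.log 2) ^ k) (by
      intro t ht
      rw [Set.uIoc_of_le huv'] at ht
      have h4 : Real.log 2 ≤ Real.log t := Real.log_le_log (by norm_num) (by linarith [ht.1])
      have h5 : 0 < Real.log t := by linarith
      rw [Real.norm_eq_abs, abs_of_nonneg (by positivity), one_div_pow]
      apply one_div_le_one_div_of_le (by positivity)
      exact pow_le_pow_left₀ h3.le h4 k)
  rw [Real.norm_eq_abs, abs_of_nonneg (by linarith : (0 : ℝ) ≤ (v : ℝ) - u)] at h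
  exact h

private theorem intble_bf (k u v : ℕ) (hu : 2 ≤ u) (huv : u ≤ v) :
    IntervalIntegrable (fun t : ℝ => 1 / (Real.log t) ^ k) MeasureTheory.volume (u : ℝ) v := by
  have huv' : (u : ℝ) ≤ v := by exact_mod_cast huv
  have hu' : (2 : ℝ) ≤ u := by exact_mod_cast hu
  apply ContinuousOn.intervalIntegrable
  rw [Set.uIcc_of_le huv']
  apply ContinuousOn.div continuousOn_const
  · apply ContinuousOn.pow
    apply Real.continuousOn_log.mono
    intro t ht
    have : (0 : ℝ) < t := by linarith [ht.1]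
    exact this.ne'
  · intro t ht
    have : 0 < Real.log t := Real.log_pos (by linarith [ht.1])
    positivity

private theorem int_add_bf (k u w v : ℕ) (hu : 2 ≤ u) (huw : u ≤ w) (hwv : w ≤ v) :
    (∫ t in (u : ℝ)..v, 1 / (Real.log t) ^ k) =
      (∫ t in (u : ℝ)..w, 1 / (Real.log t) ^ k) + ∫ t in (w : ℝ)..v, 1 / (Real.log t) ^ k :=
  (intervalIntegral.integral_add_adjacent_intervals (intble_bf k u w hu huw)
    (intble_bf k w v (by omega) hwv)).symm

private theorem cnt_add_bf (P : Set ℕ) (H : Finset ℕ) (q a u w v : ℕ) (huw : u ≤ w) (hwv : w ≤ v) :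
    cnt P H q a u v = cnt P H q a u w + cnt P H q a w v := by
  classical
  unfold cnt
  rw [← Finset.card_union_of_disjoint, ← Finset.filter_union, Finset.Ioc_union_Ioc_eq_Ioc huw hwv]
  apply Finset.disjoint_filter_filter
  rw [Finset.disjoint_left]
  intro n h1 h2
  rw [Finset.mem_Ioc] at h1 h2
  omega

private theorem cnt_le_bf (P : Set ℕ) (H : Finset ℕ) (q a u v : ℕ) : cnt P H q a u v ≤ v - u := by
  classical
  unfold cnt
  refine (Finset.card_filter_le _ _).trans ?_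
  rw [Nat.card_Ioc]

private theorem cnt_class_bf (P : Set ℕ) (H : Finset ℕ) (q a u v : ℕ) (hq : 0 < q) (huv : u ≤ v) :
    (cnt P H q a u v : ℝ) ≤ ((v : ℝ) - u) / q + 1 := by
  classical
  have h1 := (abs_le.1 (class_count q a u v hq huv)).2
  have h2 : cnt P H q a u v ≤ ((Ioc u v).filter (fun n => n ≡ a [MOD q])).card := by
    unfold cnt
    apply Finset.card_le_card
    intro n hn
    rw [Finset.mem_filter] at hn ⊢
    exact ⟨hn.1, hn.2.1⟩
  have h3 : (cnt P H q a u v : ℝ) ≤ ((Ioc u v).filter (fun n => n ≡ a [MOD q])).card := by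
    exact_mod_cast h2
  linarith

private theorem two_mul_le_bf {j : ℕ} (hj : 1 ≤ j) : 2 * j ≤ 2 ^ j := by
  obtain ⟨i, rfl⟩ : ∃ i, j = i + 1 := ⟨j - 1, by omega⟩
  have h1 : i < 2 ^ i := Nat.lt_two_pow_self
  have h2 : 2 ^ (i + 1) = 2 * 2 ^ i := by ring
  omega

/-- [PB-N1] `X` as in `exists_X` for `ρ = rho N₀`. PROOF: replace `(u, v]` by
`(max u (2^j+d), min v (2^(j+1)-j-1)]`; both the count and the integral change by at most `C (j + d + 1)`
(`S/q ≤ C (1 + log q)^k`, integrand `≤ (1/log 2)^k`). There use the hypothesis and `block_main`. If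
`q > 2^(j+1)` then `cnt ≤ 1` and `S/q ∫ ≤ C (1+log q)^k`. If `j` is small (`H ⊄ range (j+1)` or `2^j < N₀` or
`2^j + d + j ≥ 2^(j+1)`): everything is bounded by a constant times `(1 + log q)^k`. `10 (j+d+1)^2 ≤ K 2^(ε j)`. -/
theorem block_full (d : ℕ) (hd : 0 < d) (N₀ : ℕ) (X : ℕ → Bool)
    (hX : ∀ j : ℕ, ∀ H ⊆ range (j + 1), NoDiff d H → ∀ q a u v : ℕ, 0 < q → q ≤ 2 ^ (j + 1) →
        2 ^ j + d ≤ u → u ≤ v → v + j < 2 ^ (j + 1) →
        |(cnt (PP d X) H q a u v : ℝ) -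
          ∑ n ∈ (Ioc u v).filter (fun n => n ≡ a [MOD q]), ∏ h ∈ H, rho N₀ (n + h)| ≤
          10 * ((j : ℝ) + d + 1) ^ 2 * (√(((v : ℝ) - u) / q) + 1))
    (H : Finset ℕ) (hH : NoDiff d H) (ε : ℝ) (hε : 0 < ε) : ∃ c K : ℝ, 0 < c ∧ 0 < K ∧
    ∀ j q a u v : ℕ, 1 ≤ j → 0 < q → (∀ h ∈ H, Nat.Coprime (a + h) q) → ∀ S : ℝ, IsHL H q S →
      2 ^ j ≤ u → u ≤ v → v ≤ 2 ^ (j + 1) →
      |(cnt (PP d X) H q a u v : ℝ) - S / q * ∫ t in (u : ℝ)..v, 1 / (Real.log t) ^ H.card| ≤
        K * (1 + Real.log q) ^ (H.card + 1) *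
          (((v : ℝ) - u) / q * Real.exp (-(c * √j)) +
            (2 : ℝ) ^ (ε * j) * (√(((v : ℝ) - u) / q) + 1)) := by
  set k := H.card with hk
  obtain ⟨c, K₁, hc, hK₁, hbm⟩ := block_main N₀ H ε hε
  obtain ⟨C₄, hC₄, hHL⟩ := HL_quant H
  have hl2 : 0 < Real.log 2 := Real.log_pos (by norm_num)
  set W : ℝ := (1 / Real.log 2) ^ k with hW
  have hW0 : 0 < W := by positivity
  set j₀ : ℕ := H.sup id + N₀ + d + 1 with hj₀
  set b : ℝ := ε * Real.log 2 with hb
  have hb0 : 0 < b := by positivity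
  set A : ℝ := ((Nat.factorial 2 : ℝ) / b ^ 2) * Real.exp (b * (d + 1)) with hA
  have hA0 : 0 < A := by positivity
  refine ⟨c, (1 + C₄ * W) * 2 ^ j₀ + (2 + C₄ * W) + ((1 + C₄ * W) * A + 10 * A + K₁), hc,
    by positivity, ?_⟩
  intro j q a u v hj hq hcop S hS hu huv hv
  have h2j : 2 ≤ 2 ^ j := by
    calc 2 = 2 ^ 1 := by norm_num
      _ ≤ 2 ^ j := Nat.pow_le_pow_right (by norm_num) hj
  have h2j1 : 2 ^ (j + 1) = 2 * 2 ^ j := by ring
  have hj0 : (0 : ℝ) ≤ j := Nat.cast_nonneg j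
  have hq1 : (1 : ℝ) ≤ q := by exact_mod_cast hq
  have hq0 : (0 : ℝ) < q := by linarith
  have hvu : (0 : ℝ) ≤ (v : ℝ) - u := by
    have : (u : ℝ) ≤ v := by exact_mod_cast huv
    linarith
  set N : ℝ := ((v : ℝ) - u) / q with hNdef
  have hN0 : 0 ≤ N := by positivity
  set Lq : ℝ := (1 + Real.log q) with hLq
  have hLq1 : 1 ≤ Lq := by
    have := Real.log_nonneg hq1
    linarith
  have hLqk : 1 ≤ Lq ^ (k + 1) := one_le_pow₀ hLq1
  have hLqk' : Lq ^ k ≤ Lq ^ (k + 1) := pow_le_pow_right₀ hLq1 (by omega)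
  set T : ℝ := N * Real.exp (-(c * √j)) + (2 : ℝ) ^ (ε * j) * (√N + 1) with hT
  have h2e : (1 : ℝ) ≤ (2 : ℝ) ^ (ε * j) := Real.one_le_rpow (by norm_num) (by positivity)
  have hsN : 0 ≤ √N := Real.sqrt_nonneg N
  have hT2 : (2 : ℝ) ^ (ε * j) * (√N + 1) ≤ T := by
    have : 0 ≤ N * Real.exp (-(c * √j)) := by positivity
    linarith
  have hT3 : (2 : ℝ) ^ (ε * j) ≤ T := by
    refine le_trans ?_ hT2
    exact le_mul_of_one_le_right (by positivity) (by linarith)
  have hT0 : 1 ≤ T := h2e.trans hT3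
  obtain ⟨hS0, hSle, -⟩ := hHL q hq S hS
  rw [← hk, ← hLq] at hSle
  set I : ℝ := ∫ t in (u : ℝ)..v, 1 / (Real.log t) ^ k with hI
  have hIb : |I| ≤ W * ((v : ℝ) - u) := by
    rw [hI, hW]
    exact int_bound_bf k u v (by omega) huv
  -- trivial bound for the main term
  have hmt : |S / q * I| ≤ C₄ * W * Lq ^ (k + 1) * N := by
    rw [abs_mul, abs_of_nonneg (div_nonneg hS0 hq0.le)]
    calc S / q * |I| ≤ (C₄ * Lq ^ (k + 1)) / q * (W * ((v : ℝ) - u)) := by
          apply mul_le_mul _ hIb (abs_nonneg _) (by positivity)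
          apply div_le_div_of_nonneg_right _ hq0.le
          exact hSle.trans (mul_le_mul_of_nonneg_left hLqk' hC₄.le)
      _ = C₄ * W * Lq ^ (k + 1) * N := by
          rw [hNdef]
          ring
  -- trivial bound for everything
  have htriv : ∀ M B : ℝ, (cnt (PP d X) H q a u v : ℝ) ≤ M → N ≤ B → 0 ≤ M → 0 ≤ B →
      |(cnt (PP d X) H q a u v : ℝ) - S / q * I| ≤ (M + C₄ * W * B) * Lq ^ (k + 1) := by
    intro M B h1 h2 h3 h4
    have h5 : |(cnt (PP d X) H q a u v : ℝ) - S / q * I| ≤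
        (cnt (PP d X) H q a u v : ℝ) + |S / q * I| := by
      have := abs_sub (cnt (PP d X) H q a u v : ℝ) (S / q * I)
      rwa [abs_of_nonneg (Nat.cast_nonneg _ : (0 : ℝ) ≤ (cnt (PP d X) H q a u v : ℝ))] at this
    have h6 : M ≤ M * Lq ^ (k + 1) := le_mul_of_one_le_right h3 hLqk
    have h7 : C₄ * W * Lq ^ (k + 1) * N ≤ C₄ * W * Lq ^ (k + 1) * B :=
      mul_le_mul_of_nonneg_left h2 (by positivity)
    calc _ ≤ (cnt (PP d X) H q a u v : ℝ) + |S / q * I| := h5
      _ ≤ M * Lq ^ (k + 1) + C₄ * W * Lq ^ (k + 1) * B := by linarith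
      _ = _ := by ring
  have hLT : 1 ≤ Lq ^ (k + 1) * T := by nlinarith
  -- comparison of the constants
  have hfin : ∀ K' : ℝ, 0 ≤ K' →
      K' ≤ (1 + C₄ * W) * 2 ^ j₀ + (2 + C₄ * W) + ((1 + C₄ * W) * A + 10 * A + K₁) →
      ∀ y : ℝ, y ≤ K' * Lq ^ (k + 1) * T →
      y ≤ ((1 + C₄ * W) * 2 ^ j₀ + (2 + C₄ * W) + ((1 + C₄ * W) * A + 10 * A + K₁)) *
        Lq ^ (k + 1) * T := by
    intro K' _ h2 y hy
    refine hy.trans ?_
    rw [mul_assoc, mul_assoc]
    exact mul_le_mul_of_nonneg_right h2 (by linarith)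
  have hD0 : (0 : ℝ) ≤ (1 + C₄ * W) * 2 ^ j₀ := by positivity
  have hD1 : (0 : ℝ) ≤ 2 + C₄ * W := by positivity
  have hD2 : (0 : ℝ) ≤ (1 + C₄ * W) * A + 10 * A + K₁ := by positivity
  have hcnt1 : (cnt (PP d X) H q a u v : ℝ) ≤ (v : ℝ) - u := by
    have h1 := cnt_le_bf (PP d X) H q a u v
    have h2 : (cnt (PP d X) H q a u v : ℝ) ≤ ((v - u : ℕ) : ℝ) := by exact_mod_cast h1
    rwa [Nat.cast_sub huv] at h2
  have hNle : N ≤ (v : ℝ) - u := div_le_self hvu hq1
  have hvu2 : (v : ℝ) - u ≤ 2 ^ j := by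
    have h1 : (v : ℝ) ≤ 2 * 2 ^ j := by
      have : v ≤ 2 * 2 ^ j := by omega
      exact_mod_cast this
    have h2 : (2 : ℝ) ^ j ≤ u := by exact_mod_cast hu
    linarith
  by_cases hjj : j < j₀
  · -- small `j`
    have h2 : (v : ℝ) - u ≤ 2 ^ j₀ :=
      hvu2.trans (pow_le_pow_right₀ (by norm_num) hjj.le)
    have h3 := htriv (2 ^ j₀) (2 ^ j₀) (hcnt1.trans h2) (hNle.trans h2) (by positivity)
      (by positivity)
    apply hfin ((1 + C₄ * W) * 2 ^ j₀) hD0 (by linarith)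
    refine h3.trans ?_
    have h4 : (2 : ℝ) ^ j₀ + C₄ * W * 2 ^ j₀ = (1 + C₄ * W) * 2 ^ j₀ := by ring
    rw [h4]
    exact le_mul_of_one_le_right (by positivity) hT0
  push Not at hjj
  by_cases hqj : 2 ^ (j + 1) < q
  · -- large `q`
    have h1 : N ≤ 1 := by
      rw [hNdef, div_le_one hq0]
      refine hvu2.trans ?_
      have : 2 ^ j ≤ q := by omega
      exact_mod_cast this
    have h2 : (cnt (PP d X) H q a u v : ℝ) ≤ 2 := by
      have := cnt_class_bf (PP d X) H q a u v hq huv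
      rw [← hNdef] at this
      linarith
    have h3 := htriv 2 1 h2 h1 (by norm_num) (by norm_num)
    apply hfin (2 + C₄ * W) hD1 (by linarith)
    refine h3.trans ?_
    rw [mul_one]
    exact le_mul_of_one_le_right (by positivity) hT0
  push Not at hqj
  -- the main case
  have hHr : H ⊆ range (j + 1) := by
    intro h hh
    rw [Finset.mem_range]
    have : id h ≤ H.sup id := Finset.le_sup hh
    simp only [id] at this
    omega
  have hjd : d + j + 1 ≤ 2 ^ j := by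
    have := two_mul_le_bf hj
    omega
  have hN₀j : N₀ ≤ 2 ^ j := by
    have h1 : j < 2 ^ j := Nat.lt_two_pow_self
    omega
  set D : ℝ := (j : ℝ) + d + 1 with hD
  have hd0 : (0 : ℝ) ≤ d := Nat.cast_nonneg d
  have hDge : 1 ≤ D := by linarith
  have hDsq : D ≤ D ^ 2 := by nlinarith
  have hDA : D ^ 2 ≤ A * (2 : ℝ) ^ (ε * j) := by
    have h1 := pow_exp_bf 2 b D hb0 (by linarith)
    have h2 : Real.exp (b * D) = Real.exp (b * (d + 1)) * (2 : ℝ) ^ (ε * j) := by
      rw [Real.rpow_def_of_pos (by norm_num), ← Real.exp_add]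
      congr 1
      rw [hD, hb]
      ring
    rw [h2, ← mul_assoc] at h1
    exact h1
  apply hfin ((1 + C₄ * W) * A + 10 * A + K₁) hD2 (by linarith)
  by_cases hsplit : min v (2 ^ (j + 1) - j - 1) < max u (2 ^ j + d)
  · -- short interval
    have h1 : v ≤ u + (j + d + 1) := by
      rcases le_total u (2 ^ j + d) with h | h
      · rw [max_eq_right h] at hsplit
        rcases le_total v (2 ^ (j + 1) - j - 1) with h' | h'
        · rw [min_eq_left h'] at hsplit
          omega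
        · rw [min_eq_right h'] at hsplit
          omega
      · rw [max_eq_left h] at hsplit
        rcases le_total v (2 ^ (j + 1) - j - 1) with h' | h'
        · rw [min_eq_left h'] at hsplit
          omega
        · rw [min_eq_right h'] at hsplit
          omega
    have h2 : (v : ℝ) - u ≤ D := by
      have : (v : ℝ) ≤ u + (j + d + 1) := by exact_mod_cast h1
      rw [hD]
      linarith
    have h3 := htriv D D (hcnt1.trans h2) (hNle.trans h2) (by linarith) (by linarith)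
    refine h3.trans ?_
    have h4 : D ≤ A * T := (hDsq.trans hDA).trans (mul_le_mul_of_nonneg_left hT3 hA0.le)
    have h5 : D + C₄ * W * D ≤ (1 + C₄ * W) * A * T := by
      have : (1 + C₄ * W) * D ≤ (1 + C₄ * W) * (A * T) :=
        mul_le_mul_of_nonneg_left h4 (by positivity)
      linarith
    have h6 : (0 : ℝ) ≤ (10 * A + K₁) * Lq ^ (k + 1) * T := by positivity
    calc (D + C₄ * W * D) * Lq ^ (k + 1) ≤ ((1 + C₄ * W) * A * T) * Lq ^ (k + 1) :=
          mul_le_mul_of_nonneg_right h5 (by linarith)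
      _ ≤ ((1 + C₄ * W) * A * T) * Lq ^ (k + 1) + (10 * A + K₁) * Lq ^ (k + 1) * T := by linarith
      _ = _ := by ring
  push Not at hsplit
  set u' := max u (2 ^ j + d) with hu'
  set v' := min v (2 ^ (j + 1) - j - 1) with hv'
  have huu' : u ≤ u' := le_max_left _ _
  have hv'v : v' ≤ v := min_le_left _ _
  have hu'd : u' ≤ u + d := max_le (by omega) (by omega)
  have hv'j : v ≤ v' + (j + 1) := by
    rw [hv']
    rcases le_total v (2 ^ (j + 1) - j - 1) with h' | h'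
    · rw [min_eq_left h']
      omega
    · rw [min_eq_right h']
      omega
  have hu'2 : 2 ^ j + d ≤ u' := le_max_right _ _
  have hv'2 : v' ≤ 2 ^ (j + 1) - j - 1 := min_le_right _ _
  have hv'3 : v' + j < 2 ^ (j + 1) := by omega
  have hcX := hX j H hHr hH q a u' v' hq hqj hu'2 hsplit hv'3
  have hcB := hbm j q a u' v' hj hq hcop S hS (by omega) hsplit (by omega)
    (fun h hh => by
      have := Finset.mem_range.1 (hHr hh)
      omega) (by omega)
  rw [← hk, ← hLq] at hcB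
  have hN' : ((v' : ℝ) - u') / q ≤ N := by
    apply div_le_div_of_nonneg_right _ hq0.le
    have h1 : (v' : ℝ) ≤ v := by exact_mod_cast hv'v
    have h2 : (u : ℝ) ≤ u' := by exact_mod_cast huu'
    linarith
  have hcX' : |(cnt (PP d X) H q a u' v' : ℝ) -
      ∑ n ∈ (Ioc u' v').filter (fun n => n ≡ a [MOD q]), ∏ h ∈ H, rho N₀ (n + h)| ≤
      10 * A * T := by
    refine hcX.trans ?_
    have h1 : √(((v' : ℝ) - u') / q) ≤ √N := Real.sqrt_le_sqrt hN'
    calc 10 * ((j : ℝ) + d + 1) ^ 2 * (√(((v' : ℝ) - u') / q) + 1)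
        ≤ 10 * (A * (2 : ℝ) ^ (ε * j)) * (√N + 1) := by
          apply mul_le_mul _ _ (by positivity) (by positivity)
          · exact mul_le_mul_of_nonneg_left hDA (by norm_num)
          · linarith
      _ = 10 * A * ((2 : ℝ) ^ (ε * j) * (√N + 1)) := by ring
      _ ≤ 10 * A * T := by gcongr
  have hcB' : |∑ n ∈ (Ioc u' v').filter (fun n => n ≡ a [MOD q]), ∏ h ∈ H, rho N₀ (n + h) -
      S / q * ∫ t in (u' : ℝ)..v', 1 / (Real.log t) ^ k| ≤ K₁ * Lq ^ (k + 1) * T := by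
    refine hcB.trans ?_
    apply mul_le_mul_of_nonneg_left _ (by positivity)
    have h1 : ((v' : ℝ) - u') / q * Real.exp (-(c * √j)) ≤ N * Real.exp (-(c * √j)) :=
      mul_le_mul_of_nonneg_right hN' (by positivity)
    have h2 : (2 : ℝ) ^ (ε * j) ≤ (2 : ℝ) ^ (ε * j) * (√N + 1) :=
      le_mul_of_one_le_right (by positivity) (by linarith)
    linarith
  -- splitting
  have hcs : (cnt (PP d X) H q a u v : ℝ) = cnt (PP d X) H q a u u' +
      (cnt (PP d X) H q a u' v' + cnt (PP d X) H q a v' v) := by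
    rw [cnt_add_bf (PP d X) H q a u u' v huu' (hsplit.trans hv'v),
      cnt_add_bf (PP d X) H q a u' v' v hsplit hv'v]
    push_cast
    ring
  have his : I = (∫ t in (u : ℝ)..u', 1 / (Real.log t) ^ k) +
      ((∫ t in (u' : ℝ)..v', 1 / (Real.log t) ^ k) + ∫ t in (v' : ℝ)..v, 1 / (Real.log t) ^ k) := by
    rw [hI, int_add_bf k u u' v (by omega) huu' (hsplit.trans hv'v),
      int_add_bf k u' v' v (by omega) hsplit hv'v]
  have hi1 : |∫ t in (u : ℝ)..u', 1 / (Real.log t) ^ k| ≤ W * d := by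
    refine (int_bound_bf k u u' (by omega) huu').trans ?_
    apply mul_le_mul_of_nonneg_left _ hW0.le
    have : (u' : ℝ) ≤ u + d := by exact_mod_cast hu'd
    linarith
  have hi2 : |∫ t in (v' : ℝ)..v, 1 / (Real.log t) ^ k| ≤ W * (j + 1) := by
    refine (int_bound_bf k v' v (by omega) hv'v).trans ?_
    apply mul_le_mul_of_nonneg_left _ hW0.le
    have : (v : ℝ) ≤ v' + (j + 1) := by exact_mod_cast hv'j
    linarith
  have hc1 : (cnt (PP d X) H q a u u' : ℝ) ≤ d := by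
    have h1 := cnt_le_bf (PP d X) H q a u u'
    have : cnt (PP d X) H q a u u' ≤ d := by omega
    exact_mod_cast this
  have hc2 : (cnt (PP d X) H q a v' v : ℝ) ≤ j + 1 := by
    have h1 := cnt_le_bf (PP d X) H q a v' v
    have : cnt (PP d X) H q a v' v ≤ j + 1 := by omega
    exact_mod_cast this
  have hc10 : (0 : ℝ) ≤ (cnt (PP d X) H q a u u' : ℝ) := Nat.cast_nonneg _
  have hc20 : (0 : ℝ) ≤ (cnt (PP d X) H q a v' v : ℝ) := Nat.cast_nonneg _
  have hSq : S / q ≤ C₄ * Lq ^ (k + 1) :=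
    (div_le_self hS0 hq1).trans (hSle.trans (mul_le_mul_of_nonneg_left hLqk' hC₄.le))
  have hSq0 : 0 ≤ S / q := div_nonneg hS0 hq0.le
  set Sg : ℝ := ∑ n ∈ (Ioc u' v').filter (fun n => n ≡ a [MOD q]), ∏ h ∈ H, rho N₀ (n + h) with hSg
  set I1 : ℝ := ∫ t in (u : ℝ)..u', 1 / (Real.log t) ^ k with hI1
  set I2 : ℝ := ∫ t in (u' : ℝ)..v', 1 / (Real.log t) ^ k with hI2
  set I3 : ℝ := ∫ t in (v' : ℝ)..v, 1 / (Real.log t) ^ k with hI3
  have e1 : (cnt (PP d X) H q a u v : ℝ) - S / q * I =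
      ((cnt (PP d X) H q a u u' : ℝ) + cnt (PP d X) H q a v' v) +
      ((cnt (PP d X) H q a u' v' : ℝ) - Sg) + (Sg - S / q * I2) - S / q * (I1 + I3) := by
    rw [hcs, his]
    ring
  have e2 : |(cnt (PP d X) H q a u u' : ℝ) + cnt (PP d X) H q a v' v| ≤ D := by
    rw [abs_of_nonneg (by linarith)]
    linarith
  have e3 : |S / q * (I1 + I3)| ≤ C₄ * Lq ^ (k + 1) * (W * D) := by
    rw [abs_mul, abs_of_nonneg hSq0]
    apply mul_le_mul hSq _ (abs_nonneg _) (by positivity)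
    refine (abs_add_le _ _).trans ?_
    have : W * D = W * d + W * (j + 1) := by rw [hD]; ring
    rw [this]
    exact add_le_add hi1 hi2
  have e4 : |(cnt (PP d X) H q a u v : ℝ) - S / q * I| ≤
      D + 10 * A * T + K₁ * Lq ^ (k + 1) * T + C₄ * Lq ^ (k + 1) * (W * D) := by
    rw [e1]
    refine (abs_sub _ _).trans ?_
    refine add_le_add ?_ e3
    refine (abs_add_le _ _).trans ?_
    refine add_le_add ?_ hcB'
    refine (abs_add_le _ _).trans ?_
    exact add_le_add e2 hcX'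
  refine e4.trans ?_
  have hDT : D ≤ A * T := (hDsq.trans hDA).trans (mul_le_mul_of_nonneg_left hT3 hA0.le)
  have e5 : D ≤ A * T * Lq ^ (k + 1) :=
    hDT.trans (le_mul_of_one_le_right (by positivity) hLqk)
  have e6 : 10 * A * T ≤ 10 * A * T * Lq ^ (k + 1) :=
    le_mul_of_one_le_right (by positivity) hLqk
  have e7 : C₄ * Lq ^ (k + 1) * (W * D) ≤ C₄ * Lq ^ (k + 1) * (W * (A * T)) := by gcongr
  calc _ ≤ A * T * Lq ^ (k + 1) + 10 * A * T * Lq ^ (k + 1) + K₁ * Lq ^ (k + 1) * T +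
        C₄ * Lq ^ (k + 1) * (W * (A * T)) := by linarith
    _ = _ := by ring

end Pool.MP_92ef0c_nt.PB
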