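import Pool.Agent.Lib_MP_92ef0c_pb.Defs
import Pool.Agent.Lib_MP_f55cd4.MertC

/-! # [PB-A] Mertens type bounds -/

set_option autoImplicit false

namespace Pool.MP_92ef0c_nt.PB

open Finset

private theorem pz_two {z p : ℕ} (hp : p ∈ Pz z) : (2 : ℝ) ≤ p := by
  exact_mod_cast (Finset.mem_filter.1 hp).2.two_le

private theorem pz_fac {z p : ℕ} (hp : p ∈ Pz z) : 0 < 1 - 1 / (p : ℝ) ∧ 1 - 1 / (p : ℝ) ≤ 1 := by
  have h2 := pz_two hp
  have h3 : (0 : ℝ) < 1 / (p : ℝ) := by positivity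
  have h4 : 1 / (p : ℝ) < 1 := by
    rw [div_lt_one (by linarith)]
    linarith
  constructor <;> linarith

theorem V_pos (z : ℕ) : 0 < V z := by
  exact Finset.prod_pos fun p hp => (pz_fac hp).1

theorem V_le_one (z : ℕ) : V z ≤ 1 := by
  exact Finset.prod_le_one (fun p hp => (pz_fac hp).1.le) fun p hp => (pz_fac hp).2

/-- PROOF: `MPf55cd4.ms_sum` of `Pool.Agent.Lib_MP_f55cd4.MertC` (import it here; it is the theorem
for real `x`, `⌊z⌋₊ = z`). -/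
theorem sum_inv_primes : ∃ C : ℝ, 0 < C ∧ ∀ z : ℕ, 2 ≤ z →
    ∑ p ∈ Pz z, (1 : ℝ) / p ≤ Real.log (Real.log z) + C := by
  obtain ⟨C, hC⟩ := MPf55cd4.ms_sum
  refine ⟨|C| + 1, by positivity, fun z hz => ?_⟩
  have h := (abs_le.1 (hC z (by exact_mod_cast hz))).2
  rw [Nat.floor_natCast] at h
  have h2 := le_abs_self C
  have h3 : ∑ p ∈ Pz z, (1 : ℝ) / p = ∑ p ∈ (Finset.Icc 1 z).filter (fun p => p.Prime), (1 : ℝ) / p := rfl
  rw [h3]
  linarith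

/-- PROOF: `1 - x ≥ exp (-x - x ^ 2)` for `0 ≤ x ≤ 1/2` (or `(1 - 1/p)⁻¹ = 1 + 1/(p-1) ≤ exp (1/(p-1))`
and `1/(p-1) ≤ 1/p + 2/p^2`), `∑ 1/p^2 ≤ 2` and `sum_inv_primes`. -/
theorem V_lower : ∃ c : ℝ, 0 < c ∧ ∀ z : ℕ, 2 ≤ z → c / Real.log z ≤ V z := by
  obtain ⟨C, hC0, hC⟩ := sum_inv_primes
  refine ⟨Real.exp (-C - 2), Real.exp_pos _, fun z hz => ?_⟩
  have hz2 : (2 : ℝ) ≤ z := by exact_mod_cast hz
  have hlog : 0 < Real.log z := Real.log_pos (by linarith)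
  have hfac : ∀ p ∈ Pz z, Real.exp (-(1 / (p : ℝ)) - 2 * ((p : ℝ) ^ 2)⁻¹) ≤ 1 - 1 / (p : ℝ) := by
    intro p hp
    have h2 := pz_two hp
    have h1 : (0 : ℝ) < (p : ℝ) - 1 := by linarith
    have h3 : 1 - 1 / (p : ℝ) = (1 + 1 / ((p : ℝ) - 1))⁻¹ := by
      have h4 : (p : ℝ) ≠ 0 := by linarith
      field_simp
      ring
    have h5 : 1 + 1 / ((p : ℝ) - 1) ≤ Real.exp (1 / ((p : ℝ) - 1)) := by
      have := Real.add_one_le_exp (1 / ((p : ℝ) - 1))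
      linarith
    have h6 : 1 / ((p : ℝ) - 1) ≤ 1 / (p : ℝ) + 2 * ((p : ℝ) ^ 2)⁻¹ := by
      have h4 : (0 : ℝ) < p := by linarith
      rw [← sub_nonneg]
      have e : 1 / (p : ℝ) + 2 * ((p : ℝ) ^ 2)⁻¹ - 1 / ((p : ℝ) - 1) =
          ((p : ℝ) - 2) / ((p : ℝ) ^ 2 * ((p : ℝ) - 1)) := by
        field_simp
        ring
      rw [e]
      apply div_nonneg (by linarith)
      positivity
    have h7 : (0 : ℝ) < 1 + 1 / ((p : ℝ) - 1) := by positivity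
    rw [h3]
    calc Real.exp (-(1 / (p : ℝ)) - 2 * ((p : ℝ) ^ 2)⁻¹) ≤ Real.exp (-(1 / ((p : ℝ) - 1))) :=
          Real.exp_le_exp.2 (by linarith)
      _ = (Real.exp (1 / ((p : ℝ) - 1)))⁻¹ := Real.exp_neg _
      _ ≤ (1 + 1 / ((p : ℝ) - 1))⁻¹ := inv_anti₀ h7 h5
  have hprod : Real.exp (∑ p ∈ Pz z, (-(1 / (p : ℝ)) - 2 * ((p : ℝ) ^ 2)⁻¹)) ≤ V z := by
    rw [Real.exp_sum]
    exact Finset.prod_le_prod (fun p _ => (Real.exp_pos _).le) hfac
  have hsq : ∑ p ∈ Pz z, ((p : ℝ) ^ 2)⁻¹ ≤ 1 := by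
    have hsub : Pz z ⊆ Finset.Ioc 1 z := by
      intro p hp
      have h1 := (Finset.mem_filter.1 hp).2.two_le
      have h2 := (Finset.mem_Icc.1 (Finset.mem_filter.1 hp).1).2
      exact Finset.mem_Ioc.2 ⟨by omega, h2⟩
    have h1 := Finset.sum_le_sum_of_subset_of_nonneg hsub (f := fun p : ℕ => ((p : ℝ) ^ 2)⁻¹)
      (fun p _ _ => by positivity)
    have h2 := sum_Ioc_inv_sq_le_sub (α := ℝ) one_ne_zero (show 1 ≤ z by omega)
    have h3 : (0 : ℝ) ≤ (z : ℝ)⁻¹ := by positivity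
    have h4 : ((1 : ℕ) : ℝ)⁻¹ = 1 := by norm_num
    rw [h4] at h2
    linarith
  have hsum : -Real.log (Real.log z) + (-C - 2) ≤ ∑ p ∈ Pz z, (-(1 / (p : ℝ)) - 2 * ((p : ℝ) ^ 2)⁻¹) := by
    rw [Finset.sum_sub_distrib, Finset.sum_neg_distrib, ← Finset.mul_sum]
    have := hC z hz
    linarith
  refine le_trans ?_ hprod
  calc Real.exp (-C - 2) / Real.log z = Real.exp (-Real.log (Real.log z) + (-C - 2)) := by
        rw [Real.exp_add, Real.exp_neg, Real.exp_log hlog]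
        field_simp
    _ ≤ _ := Real.exp_le_exp.2 hsum

/-- PROOF: for `Nat.log 2 n = j ≥ 1`: `z = zz j = 2 ^ Nat.sqrt j`, `V z ≥ c / (Nat.sqrt j * log 2)`,
`log n ≥ j log 2 ≥ (Nat.sqrt j) ^ 2 log 2`, so `rho ≤ Nat.sqrt j / (c * j) ≤ 1 / (c * Nat.sqrt j)`,
which is `≤ 1/4` for `j` large; for small `n` it is `0` if `N₀` is large. -/
theorem rho_bounds : ∃ N₁ : ℕ, ∀ N₀, N₁ ≤ N₀ → ∀ n, 0 ≤ rho N₀ n ∧ rho N₀ n ≤ 1 / 4 := by
  obtain ⟨c, hc, hV⟩ := V_lower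
  obtain ⟨K, hK⟩ := exists_nat_ge (4 / c)
  refine ⟨2 ^ ((K + 1) ^ 2), fun N₀ hN₀ n => ?_⟩
  unfold rho
  split_ifs with h
  · have hn : 2 ^ ((K + 1) ^ 2) ≤ n := hN₀.trans h.1
    have hn0 : n ≠ 0 := by
      rintro rfl
      have : 0 < 2 ^ ((K + 1) ^ 2) := by positivity
      omega
    have hj : (K + 1) ^ 2 ≤ Nat.log 2 n := Nat.le_log_of_pow_le (by norm_num) hn
    have hs : K + 1 ≤ Nat.sqrt (Nat.log 2 n) := by
      rw [Nat.le_sqrt']
      exact hj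
    have hpow : 2 ^ Nat.log 2 n ≤ n := Nat.pow_log_le_self 2 hn0
    have hs2 : Nat.sqrt (Nat.log 2 n) * Nat.sqrt (Nat.log 2 n) ≤ Nat.log 2 n := Nat.sqrt_le _
    set j : ℕ := Nat.log 2 n with hjdef
    have hl2 : 0 < Real.log 2 := Real.log_pos (by norm_num)
    have hlogn : (j : ℝ) * Real.log 2 ≤ Real.log n := by
      rw [← Real.log_pow]
      apply Real.log_le_log (by positivity)
      exact_mod_cast hpow
    have hz : 2 ≤ zz j := by
      unfold zz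
      calc 2 = 2 ^ 1 := rfl
        _ ≤ 2 ^ Nat.sqrt j := Nat.pow_le_pow_right (by norm_num) (by omega)
    have hlz : Real.log ((zz j : ℕ) : ℝ) = (Nat.sqrt j : ℝ) * Real.log 2 := by
      unfold zz
      push_cast
      rw [Real.log_pow]
    have hVz := hV (zz j) hz
    rw [hlz] at hVz
    have hV0 : 0 < V (zz j) := V_pos _
    have hs0 : (0 : ℝ) < (Nat.sqrt j : ℝ) := by
      have : 0 < Nat.sqrt j := by omega
      exact_mod_cast this
    have h4 : 4 ≤ V (zz j) * Real.log n := by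
      have h5 : c / ((Nat.sqrt j : ℝ) * Real.log 2) * ((j : ℝ) * Real.log 2) ≤
          V (zz j) * Real.log n := mul_le_mul hVz hlogn (by positivity) hV0.le
      have h6 : c / ((Nat.sqrt j : ℝ) * Real.log 2) * ((j : ℝ) * Real.log 2) =
          c * ((j : ℝ) / (Nat.sqrt j : ℝ)) := by
        field_simp
      have h7 : (Nat.sqrt j : ℝ) ≤ (j : ℝ) / (Nat.sqrt j : ℝ) := by
        rw [le_div_iff₀ hs0]
        exact_mod_cast hs2
      have h8 : (K : ℝ) ≤ (Nat.sqrt j : ℝ) := by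
        have : K ≤ Nat.sqrt j := by omega
        exact_mod_cast this
      have h9 : 4 ≤ c * (Nat.sqrt j : ℝ) := by
        have h10 : 4 / c ≤ (Nat.sqrt j : ℝ) := hK.trans h8
        rw [div_le_iff₀ hc] at h10
        linarith
      have h11 : c * (Nat.sqrt j : ℝ) ≤ c * ((j : ℝ) / (Nat.sqrt j : ℝ)) :=
        mul_le_mul_of_nonneg_left h7 hc.le
      rw [h6] at h5
      linarith
    have hpos : 0 < V (zz j) * Real.log n := by linarith
    refine ⟨by positivity, ?_⟩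
    exact one_div_le_one_div_of_le (by norm_num) h4
  · exact ⟨le_rfl, by norm_num⟩

theorem rough_of_rho_pos {N₀ n : ℕ} (h : 0 < rho N₀ n) : Rough (zz (Nat.log 2 n)) n := by
  unfold rho at h
  split_ifs at h with h1
  · exact h1.2
  · exact absurd h (lt_irrefl _)

end Pool.MP_92ef0c_nt.PB
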