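import Pool.Agent.Lib_MP_92ef0c_pb.Final

/-! # [PB-Q] the literal form of Q1 for the set `P` -/

set_option autoImplicit false

namespace Pool.MP_92ef0c_nt.PB

open Finset

/-- the estimates for large `x` -/
private theorem q1_ev (B C c C₀ : ℝ) (hc : 0 < c) (hC₀ : 0 < C₀) :
    ∀ᶠ x : ℝ in Filter.atTop, 4 ≤ x ∧ 1 ≤ x / (Real.log x) ^ C ∧
      (Real.log x) ^ B ≤ √(x / 2) ∧
      3 * (C₀ * ((Real.log x) ^ B) ^ 2) ≤ x / (Real.log x) ^ C ∧
      Real.exp (-(c * √(Real.log x / 2))) ≤ 1 / (Real.log x) ^ C := by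
  have h0 : ∀ᶠ x : ℝ in Filter.atTop, (4 : ℝ) ≤ x := Filter.eventually_ge_atTop 4
  have hev : ∀ (r : ℝ), ∀ A : ℝ, 0 < A → ∀ᶠ x : ℝ in Filter.atTop,
      A * (Real.log x) ^ r ≤ x ^ (1 / 4 : ℝ) := by
    intro r A hA
    have h1 := (isLittleO_log_rpow_rpow_atTop r (show (0 : ℝ) < 1 / 4 by norm_num)).def
      (c := 1 / A) (by positivity)
    filter_upwards [h1, h0] with x hx hx4
    have hlog : 0 < Real.log x := Real.log_pos (by linarith)
    rw [Real.norm_of_nonneg (Real.rpow_nonneg hlog.le _),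
      Real.norm_of_nonneg (Real.rpow_nonneg (by linarith) _)] at hx
    calc A * (Real.log x) ^ r ≤ A * (1 / A * x ^ (1 / 4 : ℝ)) :=
          mul_le_mul_of_nonneg_left hx hA.le
      _ = x ^ (1 / 4 : ℝ) := by field_simp
  have h1 := hev C 1 one_pos
  have h2 := hev B 2 two_pos
  have h3 := hev (2 * B + C) (3 * C₀) (by positivity)
  have h4 : ∀ᶠ x : ℝ in Filter.atTop, Real.exp (-(c * √(Real.log x / 2))) ≤ 1 / (Real.log x) ^ C := by
    have h5 := (isLittleO_rpow_exp_pos_mul_atTop (2 * C) (show (0 : ℝ) < c / 2 by positivity)).def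
      (c := 1) one_pos
    have h6 : Filter.Tendsto (fun x : ℝ => √(Real.log x)) Filter.atTop Filter.atTop :=
      Real.tendsto_sqrt_atTop.comp Real.tendsto_log_atTop
    filter_upwards [h6.eventually h5, h0] with x hx hx4
    have hlog : 0 < Real.log x := Real.log_pos (by linarith)
    have hsq : 0 < √(Real.log x) := Real.sqrt_pos.2 hlog
    rw [one_mul, Real.norm_of_nonneg (Real.rpow_nonneg hsq.le _), Real.norm_of_nonneg
      (Real.exp_pos _).le] at hx
    have e1 : (√(Real.log x)) ^ (2 * C) = (Real.log x) ^ C := by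
      rw [Real.sqrt_eq_rpow, ← Real.rpow_mul hlog.le]
      congr 1
      ring
    rw [e1] at hx
    rw [Real.exp_neg, one_div]
    apply inv_anti₀ (Real.rpow_pos_of_pos hlog _)
    refine hx.trans (Real.exp_le_exp.2 ?_)
    have e2 : √(Real.log x) / 2 ≤ √(Real.log x / 2) := by
      apply Real.le_sqrt_of_sq_le
      rw [div_pow, Real.sq_sqrt hlog.le]
      linarith
    calc c / 2 * √(Real.log x) = c * (√(Real.log x) / 2) := by ring
      _ ≤ c * √(Real.log x / 2) := mul_le_mul_of_nonneg_left e2 hc.le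
  filter_upwards [h0, h1, h2, h3, h4] with x a0 a1 a2 a3 a4
  have hlog : 0 < Real.log x := Real.log_pos (by linarith)
  have hx0 : 0 < x := by linarith
  have hx1 : (1 : ℝ) ≤ x := by linarith
  have hq : x ^ (1 / 4 : ℝ) ≤ x := by
    calc x ^ (1 / 4 : ℝ) ≤ x ^ (1 : ℝ) := Real.rpow_le_rpow_of_exponent_le hx1 (by norm_num)
      _ = x := Real.rpow_one x
  have hq2 : x ^ (1 / 4 : ℝ) ≤ √x := by
    rw [Real.sqrt_eq_rpow]
    exact Real.rpow_le_rpow_of_exponent_le hx1 (by norm_num)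
  refine ⟨a0, ?_, ?_, ?_, a4⟩
  · rw [le_div_iff₀ (Real.rpow_pos_of_pos hlog _)]
    linarith
  · have e1 : √x / 2 ≤ √(x / 2) := by
      apply Real.le_sqrt_of_sq_le
      rw [div_pow, Real.sq_sqrt hx0.le]
      linarith
    linarith
  · rw [le_div_iff₀ (Real.rpow_pos_of_pos hlog _)]
    have e1 : 3 * (C₀ * ((Real.log x) ^ B) ^ 2) * (Real.log x) ^ C =
        3 * C₀ * (Real.log x) ^ (2 * B + C) := by
      rw [Real.rpow_add hlog, two_mul B, Real.rpow_add hlog]
      ring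
    rw [e1]
    exact a3.trans hq

private theorem q1_int (X x : ℝ) (hX : 2 ≤ X) (hx : X ≤ x) (hx1 : x ≤ X + 1) :
    |(∫ t in (2 : ℝ)..x, 1 / (Real.log t) ^ 2) - ∫ t in (2 : ℝ)..X, 1 / (Real.log t) ^ 2| ≤ 3 := by
  have hcont : ContinuousOn (fun t : ℝ => 1 / (Real.log t) ^ 2) (Set.Ici 2) := by
    intro t ht
    have ht2 : (2 : ℝ) ≤ t := ht
    have h1 : 0 < Real.log t := Real.log_pos (by linarith)
    apply ContinuousAt.continuousWithinAt
    apply ContinuousAt.div continuousAt_const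
    · exact (Real.continuousAt_log (by linarith)).pow 2
    · positivity
  have hI : ∀ a b : ℝ, 2 ≤ a → 2 ≤ b →
      IntervalIntegrable (fun t : ℝ => 1 / (Real.log t) ^ 2) MeasureTheory.volume a b := by
    intro a b ha hb
    apply ContinuousOn.intervalIntegrable
    apply hcont.mono
    intro t ht
    have h1 : min a b ≤ t := ht.1
    have h2 : 2 ≤ min a b := le_min ha hb
    exact h2.trans h1
  rw [← intervalIntegral.integral_add_adjacent_intervals (hI 2 X le_rfl hX) (hI X x hX (by linarith)),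
    add_sub_cancel_left]
  have h1 : ∀ t ∈ Set.uIoc X x, ‖1 / (Real.log t) ^ 2‖ ≤ 3 := by
    intro t ht
    rw [Set.uIoc_of_le hx] at ht
    have ht2 : 2 ≤ t := by linarith [ht.1]
    have h2 : Real.log 2 ≤ Real.log t := Real.log_le_log (by norm_num) ht2
    have h3 := Real.log_two_gt_d9
    have h4 : (0.69 : ℝ) ≤ Real.log t := by linarith
    have h5 : (1 : ℝ) / 3 ≤ (Real.log t) ^ 2 := by nlinarith
    rw [Real.norm_of_nonneg (by positivity), div_le_iff₀ (by positivity)]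
    linarith
  have h2 := intervalIntegral.norm_integral_le_of_norm_le_const h1
  rw [Real.norm_eq_abs, abs_of_nonneg (show (0 : ℝ) ≤ x - X by linarith)] at h2
  linarith

private theorem q1_card (P : Set ℕ) (e q a X : ℕ) :
    |(open Classical in (((Finset.range (X + 1)).filter
        (fun n => n ∈ P ∧ n + e ∈ P ∧ n ≡ a [MOD q])).card : ℝ)) - (cnt P {0, e} q a 0 X : ℝ)| ≤
      1 := by
  classical
  unfold cnt
  set A := (Finset.range (X + 1)).filter (fun n => n ∈ P ∧ n + e ∈ P ∧ n ≡ a [MOD q]) with hA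
  set D := (Ioc 0 X).filter (fun n => n ≡ a [MOD q] ∧ ∀ h ∈ ({0, e} : Finset ℕ), n + h ∈ P) with hD
  have h1 : D ⊆ A := by
    intro n hn
    rw [hD, mem_filter, mem_Ioc] at hn
    rw [hA, mem_filter, mem_range]
    refine ⟨by omega, ?_, hn.2.2 e (by simp), hn.2.1⟩
    simpa using hn.2.2 0 (by simp)
  have h2 : A ⊆ insert 0 D := by
    intro n hn
    rw [hA, mem_filter, mem_range] at hn
    rw [mem_insert, hD, mem_filter, mem_Ioc]
    rcases Nat.eq_zero_or_pos n with h | h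
    · exact Or.inl h
    · refine Or.inr ⟨⟨h, by omega⟩, hn.2.2.2, ?_⟩
      intro k hk
      rw [mem_insert, mem_singleton] at hk
      rcases hk with rfl | rfl
      · simpa using hn.2.1
      · exact hn.2.2.1
  have h3 := card_le_card h1
  have h4 := (card_le_card h2).trans (card_insert_le 0 D)
  have h3' : (D.card : ℝ) ≤ A.card := by exact_mod_cast h3
  have h4' : (A.card : ℝ) ≤ D.card + 1 := by exact_mod_cast h4
  rw [abs_le]
  constructor
  · show -1 ≤ (A.card : ℝ) - (D.card : ℝ)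
    linarith
  · show (A.card : ℝ) - (D.card : ℝ) ≤ 1
    linarith

/-- [PB-Q] PROOF: `H = {0, e}`, `ε = 1/2`, `u = 0`, `v = x' = ⌊x⌋₊`; `q ≤ (log x)^B ≤ √x' ` for `x` large, so
`q x'^(1/2) ≤ x'`. `cnt P {0,e} q a 0 x'` differs from the number of `n < x' + 1` by at most 1 (`n = 0`);
`pair_const` turns `S/q ∫_2^(x')` (`HL_exists`) into the main term, `∫_(x')^x ≤ (1/log 2)^2`, `S/q ≤ C`
(`HL_quant`), and `exp(-c √(log x')) ≤ K (log x)^(-C)`. -/
theorem q1_of_main (P : Set ℕ) (e : ℕ) (he0 : 0 < e) (he : Even e)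
    (hP : ∀ ε : ℝ, 0 < ε → ∃ c K : ℝ, 0 < c ∧ 0 < K ∧
      ∀ x q a u v : ℕ, 2 ≤ x → 0 < q → (∀ h ∈ ({0, e} : Finset ℕ), Nat.Coprime (a + h) q) →
        u ≤ v → v ≤ x → (q : ℝ) * (x : ℝ) ^ ε ≤ (v : ℝ) - u → ∀ S : ℝ, IsHL {0, e} q S →
        |(cnt P {0, e} q a u v : ℝ) -
          S / q * ∫ t in (max (u : ℝ) 2)..(v : ℝ), 1 / (Real.log t) ^ ({0, e} : Finset ℕ).card| ≤
          K * (((v : ℝ) - u) / q) * Real.exp (-(c * √(Real.log x))))
    (B C : ℝ) (hB : 0 ≤ B) (hC : 0 ≤ C) :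
    ∃ K : ℝ, ∃ x0 : ℝ, ∀ x : ℝ, x0 ≤ x → ∀ q a : ℕ, 0 < q →
        (q : ℝ) ≤ (Real.log x) ^ B → Nat.Coprime a q → Nat.Coprime (a + e) q →
        |(open Classical in (((Finset.range (⌊x⌋₊ + 1)).filter
              (fun n => n ∈ P ∧ n + e ∈ P ∧ n ≡ a [MOD q])).card : ℝ))
          - 2 / (adm e q : ℝ)
            * (∏ p ∈ e.primeFactors.filter (fun p => 2 < p),
                (((p : ℝ) - 1) / ((p : ℝ) - 2)))
            * (∏' p : {p : ℕ // p.Prime ∧ 2 < p}, (1 - 1 / (((p : ℕ) : ℝ) - 1) ^ 2))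
            * (∫ t in (2 : ℝ)..x, 1 / (Real.log t) ^ 2)|
          ≤ K * x / (Real.log x) ^ C := by
  obtain ⟨c, K, hc, hK, hmain⟩ := hP (1 / 2) (by norm_num)
  obtain ⟨C₀, hC₀, hHL⟩ := HL_quant {0, e}
  have hcard : ({0, e} : Finset ℕ).card = 2 := by
    rw [card_insert_of_notMem (by simpa using he0.ne), card_singleton]
  have hev := q1_ev B C c C₀ hc hC₀
  rw [Filter.eventually_atTop] at hev
  obtain ⟨x0, hx0⟩ := hev
  refine ⟨1 + 1 + K, x0, fun x hx q a hq hqB hca hcae => ?_⟩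
  obtain ⟨hx4, b1, b2, b3, b4⟩ := hx0 x hx
  obtain ⟨S, hS⟩ := HL_exists {0, e} q hq
  obtain ⟨hS0, hS1, -⟩ := hHL q hq S hS
  rw [hcard] at hS1
  set X : ℕ := ⌊x⌋₊ with hX
  have hxpos : 0 < x := by linarith
  have hXx : (X : ℝ) ≤ x := Nat.floor_le hxpos.le
  have hxX : x < X + 1 := Nat.lt_floor_add_one x
  have hX2 : 2 ≤ X := by
    rw [hX]
    apply Nat.le_floor
    push_cast
    linarith
  have hX2' : (2 : ℝ) ≤ X := by exact_mod_cast hX2
  have hXhalf : x / 2 ≤ X := by linarith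
  have hXpos : (0 : ℝ) < X := by linarith
  have hqpos : (0 : ℝ) < q := by exact_mod_cast hq
  have hq1 : (1 : ℝ) ≤ q := by exact_mod_cast hq
  have hlog : 0 < Real.log x := Real.log_pos (by linarith)
  -- the length condition
  have hlen : (q : ℝ) * (X : ℝ) ^ (1 / 2 : ℝ) ≤ (X : ℝ) - ((0 : ℕ) : ℝ) := by
    rw [Nat.cast_zero, sub_zero, ← Real.sqrt_eq_rpow]
    have h1 : (q : ℝ) ≤ √(X : ℝ) := hqB.trans (b2.trans (Real.sqrt_le_sqrt hXhalf))
    calc (q : ℝ) * √(X : ℝ) ≤ √(X : ℝ) * √(X : ℝ) :=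
          mul_le_mul_of_nonneg_right h1 (Real.sqrt_nonneg _)
      _ = X := Real.mul_self_sqrt hXpos.le
  have h1 := hmain X q a 0 X hX2 hq (by
    intro h hh
    rw [mem_insert, mem_singleton] at hh
    rcases hh with rfl | rfl
    · simpa using hca
    · exact hcae) (Nat.zero_le _) le_rfl hlen S hS
  rw [hcard, Nat.cast_zero, sub_zero, max_eq_right (show (0 : ℝ) ≤ 2 by norm_num)] at h1
  have h2 := q1_card P e q a X
  have h3 := q1_int X x hX2' hXx hxX.le
  have hconst := pair_const e q he he0 hq S hS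
  rw [← hconst]
  -- bound of the constant
  have hSq : S / q ≤ C₀ * ((Real.log x) ^ B) ^ 2 := by
    have e1 : 1 + Real.log q ≤ q := by linarith [Real.log_le_sub_one_of_pos hqpos]
    have e2 : 0 ≤ Real.log q := Real.log_nonneg hq1
    calc S / q ≤ S := div_le_self hS0 hq1
      _ ≤ C₀ * (1 + Real.log q) ^ 2 := hS1
      _ ≤ C₀ * ((Real.log x) ^ B) ^ 2 := by
          refine mul_le_mul_of_nonneg_left ?_ hC₀.le
          exact pow_le_pow_left₀ (by linarith) (e1.trans hqB) 2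
  have hSq0 : 0 ≤ S / q := div_nonneg hS0 hqpos.le
  -- bound of the main error
  have h4 : K * ((X : ℝ) / q) * Real.exp (-(c * √(Real.log X))) ≤ K * (x / (Real.log x) ^ C) := by
    have e1 : (X : ℝ) / q ≤ x := (div_le_self hXpos.le hq1).trans hXx
    have e2 : Real.log x / 2 ≤ Real.log X := by
      have e3 : √x ≤ X := by
        refine le_trans ?_ hXhalf
        rw [Real.sqrt_le_left (by linarith)]
        nlinarith
      have e4 : Real.log (√x) ≤ Real.log X := Real.log_le_log (Real.sqrt_pos.2 hxpos) e3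
      rwa [Real.log_sqrt hxpos.le] at e4
    have e5 : Real.exp (-(c * √(Real.log X))) ≤ Real.exp (-(c * √(Real.log x / 2))) := by
      apply Real.exp_le_exp.2
      have := mul_le_mul_of_nonneg_left (Real.sqrt_le_sqrt e2) hc.le
      linarith
    calc K * ((X : ℝ) / q) * Real.exp (-(c * √(Real.log X)))
        ≤ K * x * (1 / (Real.log x) ^ C) := by
          refine mul_le_mul (mul_le_mul_of_nonneg_left e1 hK.le) (e5.trans b4)
            (Real.exp_pos _).le (by positivity)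
      _ = K * (x / (Real.log x) ^ C) := by ring
  have h5 : |S / q * (∫ t in (2 : ℝ)..x, 1 / (Real.log t) ^ 2) -
      S / q * ∫ t in (2 : ℝ)..(X : ℝ), 1 / (Real.log t) ^ 2| ≤ x / (Real.log x) ^ C := by
    rw [← mul_sub, abs_mul, abs_of_nonneg hSq0]
    calc S / q * |(∫ t in (2 : ℝ)..x, 1 / (Real.log t) ^ 2) -
          ∫ t in (2 : ℝ)..(X : ℝ), 1 / (Real.log t) ^ 2|
        ≤ (C₀ * ((Real.log x) ^ B) ^ 2) * 3 :=
          mul_le_mul hSq h3 (abs_nonneg _) (by positivity)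
      _ = 3 * (C₀ * ((Real.log x) ^ B) ^ 2) := by ring
      _ ≤ _ := b3
  have h6 : (1 + 1 + K) * x / (Real.log x) ^ C =
      1 * (x / (Real.log x) ^ C) + x / (Real.log x) ^ C + K * (x / (Real.log x) ^ C) := by ring
  rw [h6, one_mul]
  rw [abs_le] at h1 h2 h5 ⊢
  constructor
  · linarith [h1.1, h2.1, h5.2]
  · linarith [h1.2, h2.2, h5.1]

end Pool.MP_92ef0c_nt.PB
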