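import Pool.Agent.Lib_MP_92ef0c_pb.Full

/-! # [PB-N2] sum over the blocks -/

set_option autoImplicit false

namespace Pool.MP_92ef0c_nt.PB

open Finset

private theorem cnt_split (P : Set ℕ) (H : Finset ℕ) (q a u w v : ℕ) (h1 : u ≤ w) (h2 : w ≤ v) :
    cnt P H q a u v = cnt P H q a u w + cnt P H q a w v := by
  classical
  unfold cnt
  rw [← Finset.card_union_of_disjoint, ← Finset.filter_union, Finset.Ioc_union_Ioc_eq_Ioc h1 h2]
  rw [Finset.disjoint_left]
  intro x hx hy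
  rw [Finset.mem_filter, Finset.mem_Ioc] at hx hy
  omega

private theorem logint (k : ℕ) (x y : ℝ) (hx : 2 ≤ x) (hy : 2 ≤ y) :
    IntervalIntegrable (fun t : ℝ => 1 / (Real.log t) ^ k) MeasureTheory.volume x y := by
  apply ContinuousOn.intervalIntegrable
  intro t ht
  have ht2 : 2 ≤ t := le_trans (le_inf hx hy) ht.1
  have hl : 0 < Real.log t := Real.log_pos (by linarith)
  apply ContinuousAt.continuousWithinAt
  exact ContinuousAt.div continuousAt_const
    ((Real.continuousAt_log (by linarith)).pow k) (pow_ne_zero _ hl.ne')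

private theorem cut_aux (P : Set ℕ) (H : Finset ℕ) (q a : ℕ) (M : ℝ) (B : ℕ → ℝ → ℝ)
    (hmono : ∀ j x y, 0 ≤ x → x ≤ y → B j x ≤ B j y)
    (hB : ∀ j u v : ℕ, 1 ≤ j → 2 ^ j ≤ u → u ≤ v → v ≤ 2 ^ (j + 1) →
      |(cnt P H q a u v : ℝ) - M * ∫ t in (u : ℝ)..v, 1 / (Real.log t) ^ H.card| ≤
        B j ((v : ℝ) - u)) (J : ℕ) : ∀ u v : ℕ, u ≤ v → v ≤ 2 ^ (J + 1) →
    |(cnt P H q a u v : ℝ) -
      M * ∫ t in (max (u : ℝ) 2)..(max (v : ℝ) 2), 1 / (Real.log t) ^ H.card| ≤
      2 + ∑ j ∈ Icc 1 J, B j (min ((v : ℝ) - u) (2 ^ j)) := by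
  classical
  have hpos : ∀ j : ℕ, 1 ≤ j → ∀ x : ℝ, 0 ≤ x → 0 ≤ B j x := by
    intro j hj x hx
    have h := hB j (2 ^ j) (2 ^ j) hj le_rfl le_rfl (Nat.pow_le_pow_right (by norm_num) (by omega))
    have h2 : (0 : ℝ) ≤ B j (((2 ^ j : ℕ) : ℝ) - ((2 ^ j : ℕ) : ℝ)) := le_trans (abs_nonneg _) h
    rw [sub_self] at h2
    exact h2.trans (hmono j 0 x le_rfl hx)
  induction J with
  | zero =>
    intro u v huv hv
    have hv2 : (v : ℝ) ≤ 2 := by exact_mod_cast (by simpa using hv : v ≤ 2)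
    have hu2 : (u : ℝ) ≤ 2 := le_trans (by exact_mod_cast huv) hv2
    rw [max_eq_right hv2, max_eq_right hu2, intervalIntegral.integral_same, mul_zero, sub_zero]
    have hc : cnt P H q a u v ≤ 2 := by
      unfold cnt
      refine (Finset.card_filter_le _ _).trans ?_
      rw [Nat.card_Ioc]
      have : v ≤ 2 := by simpa using hv
      omega
    have hc' : (cnt P H q a u v : ℝ) ≤ 2 := by exact_mod_cast hc
    rw [abs_of_nonneg (Nat.cast_nonneg _)]
    simpa using hc'
  | succ J ih =>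
    intro u v huv hv
    have huvR : (0 : ℝ) ≤ (v : ℝ) - u := sub_nonneg.2 (by exact_mod_cast huv)
    have hw2 : (2 : ℝ) ≤ ((2 ^ (J + 1) : ℕ) : ℝ) := by
      have h : (2 : ℕ) ≤ 2 ^ (J + 1) := by
        calc 2 = 2 ^ 1 := by norm_num
          _ ≤ 2 ^ (J + 1) := Nat.pow_le_pow_right (by norm_num) (by omega)
      exact_mod_cast h
    rw [Finset.sum_Icc_succ_top (by omega : 1 ≤ J + 1)]
    have hlast : 0 ≤ B (J + 1) (min ((v : ℝ) - u) (2 ^ (J + 1))) :=
      hpos _ (by omega) _ (le_min huvR (by positivity))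
    rcases le_or_gt v (2 ^ (J + 1)) with hvw | hvw
    · have := ih u v huv hvw
      linarith
    · have hvR : ((2 ^ (J + 1) : ℕ) : ℝ) ≤ (v : ℝ) := by exact_mod_cast hvw.le
      have hv2 : (2 : ℝ) ≤ v := hw2.trans hvR
      have hvup : (v : ℝ) ≤ ((2 ^ (J + 1 + 1) : ℕ) : ℝ) := by exact_mod_cast hv
      have hdbl : ((2 ^ (J + 1 + 1) : ℕ) : ℝ) = ((2 ^ (J + 1) : ℕ) : ℝ) + ((2 ^ (J + 1) : ℕ) : ℝ) := by
        push_cast
        ring
      have hcast : ((2 ^ (J + 1) : ℕ) : ℝ) = (2 : ℝ) ^ (J + 1) := by push_cast; ring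
      rcases le_or_gt (2 ^ (J + 1)) u with huw | huw
      · have huR : ((2 ^ (J + 1) : ℕ) : ℝ) ≤ (u : ℝ) := by exact_mod_cast huw
        rw [max_eq_left hv2, max_eq_left (hw2.trans huR)]
        have h := hB (J + 1) u v (by omega) huw huv hv
        have hmin : min ((v : ℝ) - u) (2 ^ (J + 1)) = (v : ℝ) - u := by
          apply min_eq_left
          rw [← hcast]
          linarith
        have hs : 0 ≤ ∑ j ∈ Icc 1 J, B j (min ((v : ℝ) - u) (2 ^ j)) :=
          Finset.sum_nonneg fun j hj => hpos j (Finset.mem_Icc.1 hj).1 _ (le_min huvR (by positivity))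
        rw [hmin]
        linarith
      · have huR : (u : ℝ) ≤ ((2 ^ (J + 1) : ℕ) : ℝ) := by exact_mod_cast huw.le
        have h1 := ih u (2 ^ (J + 1)) huw.le le_rfl
        have h2 := hB (J + 1) (2 ^ (J + 1)) v (by omega) le_rfl hvw.le hv
        rw [max_eq_left hw2] at h1
        rw [max_eq_left hv2, cnt_split P H q a u (2 ^ (J + 1)) v huw.le hvw.le,
          ← intervalIntegral.integral_add_adjacent_intervals
            (logint H.card _ ((2 ^ (J + 1) : ℕ) : ℝ) (le_max_right _ _) hw2)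
            (logint H.card ((2 ^ (J + 1) : ℕ) : ℝ) (v : ℝ) hw2 hv2)]
        have e : (((cnt P H q a u (2 ^ (J + 1)) + cnt P H q a (2 ^ (J + 1)) v : ℕ) : ℝ)) -
            M * ((∫ t in (max (u : ℝ) 2)..((2 ^ (J + 1) : ℕ) : ℝ), 1 / (Real.log t) ^ H.card) +
              ∫ t in ((2 ^ (J + 1) : ℕ) : ℝ)..(v : ℝ), 1 / (Real.log t) ^ H.card) =
            ((cnt P H q a u (2 ^ (J + 1)) : ℝ) -
              M * ∫ t in (max (u : ℝ) 2)..((2 ^ (J + 1) : ℕ) : ℝ), 1 / (Real.log t) ^ H.card) +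
            ((cnt P H q a (2 ^ (J + 1)) v : ℝ) -
              M * ∫ t in ((2 ^ (J + 1) : ℕ) : ℝ)..(v : ℝ), 1 / (Real.log t) ^ H.card) := by
          rw [Nat.cast_add]
          ring
        rw [e]
        refine (abs_add_le _ _).trans ?_
        have h3 : ∑ j ∈ Icc 1 J, B j (min (((2 ^ (J + 1) : ℕ) : ℝ) - u) (2 ^ j)) ≤
            ∑ j ∈ Icc 1 J, B j (min ((v : ℝ) - u) (2 ^ j)) := by
          apply Finset.sum_le_sum
          intro j _
          apply hmono
          · exact le_min (by linarith) (by positivity)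
          · exact min_le_min (by linarith) le_rfl
        have h4 : B (J + 1) ((v : ℝ) - ((2 ^ (J + 1) : ℕ) : ℝ)) ≤
            B (J + 1) (min ((v : ℝ) - u) (2 ^ (J + 1))) := by
          apply hmono
          · linarith
          · rw [← hcast]
            exact le_min (by linarith) (by linarith)
        linarith

/-- [PB-N2] cutting an interval at the powers of two. PROOF: `Ioc u v` is the disjoint union of the part
`≤ 2` and of `Ioc (cl j u) (cl j v)`, `j = 1, .., J`, `cl j x = max (2^j) (min x (2^(j+1)))`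
(`2^(J+1) > v`), of length at most `min (v-u) (2^j)`; induction on `J` or a telescoping sum over `j`; the
integrals are additive (`intervalIntegral.integral_add_adjacent_intervals`, the integrand is continuous
on `[2, ∞)`), with `max (cl j u) 2 = cl j u`. -/
theorem cut_blocks (P : Set ℕ) (H : Finset ℕ) (q a : ℕ) (M : ℝ) (B : ℕ → ℝ → ℝ) (J : ℕ)
    (hmono : ∀ j x y, 0 ≤ x → x ≤ y → B j x ≤ B j y)
    (hB : ∀ j u v : ℕ, 1 ≤ j → 2 ^ j ≤ u → u ≤ v → v ≤ 2 ^ (j + 1) →
      |(cnt P H q a u v : ℝ) - M * ∫ t in (u : ℝ)..v, 1 / (Real.log t) ^ H.card| ≤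
        B j ((v : ℝ) - u))
    (u v : ℕ) (huv : u ≤ v) (hv : v < 2 ^ (J + 1)) :
    |(cnt P H q a u v : ℝ) -
      M * ∫ t in (max (u : ℝ) 2)..(max (v : ℝ) 2), 1 / (Real.log t) ^ H.card| ≤
      2 + ∑ j ∈ Icc 1 J, B j (min ((v : ℝ) - u) (2 ^ j)) := by
  exact cut_aux P H q a M B hmono hB J u v huv hv.le

private theorem poly_exp_sum (n : ℕ) {b : ℝ} (hb : 0 < b) :
    ∃ M : ℝ, 0 < M ∧ ∀ s : ℝ, 0 ≤ s → (1 + s) ^ n ≤ M * Real.exp (b * s) := by
  rcases Nat.eq_zero_or_pos n with rfl | hn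
  · refine ⟨1, one_pos, fun s hs => ?_⟩
    rw [pow_zero, one_mul]
    exact Real.one_le_exp (by positivity)
  have hn' : (0 : ℝ) < n := Nat.cast_pos.2 hn
  refine ⟨(1 + n / b) ^ n, by positivity, fun s hs => ?_⟩
  have h1 : 1 + b / n * s ≤ Real.exp (b / n * s) := by
    have := Real.add_one_le_exp (b / n * s)
    linarith
  have h2 : 1 + s ≤ (1 + n / b) * (1 + b / n * s) := by
    have h3 : (n / b) * (b / n * s) = s := by
      field_simp
    have h4 : 0 ≤ b / n * s := by positivity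
    have h5 : 0 ≤ (n : ℝ) / b := by positivity
    nlinarith
  calc (1 + s) ^ n ≤ ((1 + n / b) * (1 + b / n * s)) ^ n :=
        pow_le_pow_left₀ (by positivity) h2 n
    _ = (1 + n / b) ^ n * (1 + b / n * s) ^ n := mul_pow _ _ _
    _ ≤ (1 + n / b) ^ n * Real.exp (b / n * s) ^ n := by
        refine mul_le_mul_of_nonneg_left (pow_le_pow_left₀ (by positivity) h1 n) (by positivity)
    _ = (1 + n / b) ^ n * Real.exp (b * s) := by
        rw [← Real.exp_nat_mul]
        congr 2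
        field_simp

/-- [PB-N3] the final inequality. `N = (v-u)/q ≥ x^ε`, `2^J ≤ x < 2^(J+1)`. PROOF: split at `j = ε J/4`:
`∑_{j ≤ εJ/4} 2^j e^(..) ≤ 2 x^(ε/4)` , for the others `e^(-c √j) ≤ e^(-c √(ε J/4))` (the sum over `j` of
`N e^(-c√j)` is at most `J N e^(-c√(εJ/4))`); `∑ 2^(ε j/8) (√N + 1) ≤ 2 (J+1) x^(ε/8) √N ≤
2 (J+1) x^(ε/8-ε/2) N`; the factor `(1 + log q)^(k+1) ≤ (1 + log x)^(k+1)` and
`x^(-ε/4) (1+log x)^(k+2) ≤ K' exp(-c' √(log x))`, `e^(-c √(εJ/4)) (1+log x)^(k+2) ≤ K' exp(-c' √(log x))`,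
`2 ≤ 2 N x^(-ε)`. -/
theorem sum_bound (k : ℕ) (ε c K : ℝ) (hε : 0 < ε) (hε1 : ε ≤ 1) (hc : 0 < c) (hK : 0 < K) :
    ∃ c' K' : ℝ, 0 < c' ∧ 0 < K' ∧ ∀ x q J : ℕ, ∀ l : ℝ, 2 ≤ x → 0 < q → q ≤ x →
      2 ^ J ≤ x → x < 2 ^ (J + 1) → (q : ℝ) * (x : ℝ) ^ ε ≤ l →
      2 + ∑ j ∈ Icc 1 J, K * (1 + Real.log q) ^ (k + 1) *
          (min l (2 ^ j) / q * Real.exp (-(c * √j)) +
            (2 : ℝ) ^ (ε / 8 * j) * (√(min l (2 ^ j) / q) + 1)) ≤
        K' * (l / q) * Real.exp (-(c' * √(Real.log x))) := by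
  obtain ⟨a, ha⟩ : ∃ a : ℝ, a = min (c * √(ε / 8)) (3 * ε / 16) := ⟨_, rfl⟩
  have ha0 : 0 < a := by
    rw [ha]
    exact lt_min (mul_pos hc (Real.sqrt_pos.2 (by positivity))) (by positivity)
  have ha1 : a ≤ c * √(ε / 8) := ha ▸ min_le_left _ _
  have ha2 : a ≤ 3 * ε / 16 := ha ▸ min_le_right _ _
  obtain ⟨M, hM, hMs⟩ := poly_exp_sum (2 * (k + 2)) (b := a / 2) (by positivity)
  refine ⟨a / 2, (2 + 6 * K) * M, by positivity, by positivity, ?_⟩
  intro x q J l hx hq hqx hJ1 hJ2 hl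
  have hxR : (2 : ℝ) ≤ x := by exact_mod_cast hx
  have hx0 : (0 : ℝ) < x := by linarith
  have hqR : (1 : ℝ) ≤ q := by exact_mod_cast hq
  have hq0 : (0 : ℝ) < q := by linarith
  have hlog2 : (1 : ℝ) / 2 < Real.log 2 := by
    have := Real.log_two_gt_d9
    linarith
  have hlog2' : Real.log 2 < 1 := by
    have := Real.log_two_lt_d9
    linarith
  obtain ⟨L, hL⟩ : ∃ L, L = Real.log x := ⟨_, rfl⟩
  obtain ⟨s, hs⟩ : ∃ s, s = √(Real.log x) := ⟨_, rfl⟩
  have hL2 : Real.log 2 ≤ L := by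
    rw [hL]
    exact Real.log_le_log (by norm_num) hxR
  have hL0 : 0 < L := by linarith
  have hs0 : 0 ≤ s := hs ▸ Real.sqrt_nonneg _
  have hsq : s * s = L := by
    rw [hs, ← hL]
    exact Real.mul_self_sqrt hL0.le
  have hs1 : 1 / 2 ≤ s := by
    by_contra h
    push Not at h
    nlinarith
  have has : a * s ≤ 3 / 8 * (ε * L) := by
    rw [← hsq]
    have h1 : a * s ≤ 3 * ε / 16 * s := mul_le_mul_of_nonneg_right ha2 hs0
    have h2 : 3 * ε / 16 * s ≤ 3 / 8 * (ε * (s * s)) := by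
      have : 0 ≤ 3 / 8 * ε * s * (s - 1 / 2) := by
        have : 0 ≤ s - 1 / 2 := by linarith
        positivity
      nlinarith
    linarith
  have hεL : 0 < ε * L := by positivity
  -- `J` and `L`
  have hJL : (J : ℝ) * Real.log 2 ≤ L := by
    rw [hL, ← Real.log_pow]
    exact Real.log_le_log (by positivity) (by exact_mod_cast hJ1)
  have hLJ : L ≤ (J + 1 : ℝ) * Real.log 2 := by
    have : ((J + 1 : ℕ) : ℝ) * Real.log 2 = Real.log ((2 : ℝ) ^ (J + 1)) := by
      rw [Real.log_pow]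
    rw [hL]
    push_cast at this
    rw [this]
    exact Real.log_le_log hx0 (by exact_mod_cast hJ2.le)
  have hJ1' : (1 : ℝ) ≤ J := by
    have : 1 ≤ J := by
      by_contra h
      have h0 : J = 0 := by omega
      subst h0
      omega
    exact_mod_cast this
  have hJ2L : (J : ℝ) ≤ 2 * L := by nlinarith
  have hLJ2 : L / 2 ≤ J := by nlinarith
  -- `N`
  obtain ⟨N, hN⟩ : ∃ N, N = l / q := ⟨_, rfl⟩
  have hNX : Real.exp (ε * L) ≤ N := by
    rw [hN, le_div_iff₀ hq0, hL, mul_comm ε, ← Real.rpow_def_of_pos hx0, mul_comm]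
    exact hl
  have hN0 : 0 < N := lt_of_lt_of_le (Real.exp_pos _) hNX
  have hN1 : 1 ≤ N := le_trans (Real.one_le_exp hεL.le) hNX
  have hNt : ∀ t : ℝ, a * s ≤ ε * L - t → Real.exp t ≤ N * Real.exp (-(a * s)) := by
    intro t ht
    calc Real.exp t ≤ Real.exp (ε * L + -(a * s)) := Real.exp_le_exp.2 (by linarith)
      _ = Real.exp (ε * L) * Real.exp (-(a * s)) := Real.exp_add _ _
      _ ≤ N * Real.exp (-(a * s)) := mul_le_mul_of_nonneg_right hNX (Real.exp_pos _).le
  have hlq0 : 0 ≤ Real.log q := Real.log_nonneg hqR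
  have hlqL : Real.log q ≤ L := by
    rw [hL]
    exact Real.log_le_log hq0 (by exact_mod_cast hqx)
  -- every term
  have hterm : ∀ j ∈ Icc 1 J, K * (1 + Real.log q) ^ (k + 1) *
          (min l (2 ^ j) / q * Real.exp (-(c * √j)) +
            (2 : ℝ) ^ (ε / 8 * j) * (√(min l (2 ^ j) / q) + 1)) ≤
      K * (1 + L) ^ (k + 1) * (3 * (N * Real.exp (-(a * s)))) := by
    intro j hj
    rw [mem_Icc] at hj
    have hjJ : (j : ℝ) ≤ J := by exact_mod_cast hj.2
    have hj0 : (0 : ℝ) ≤ j := Nat.cast_nonneg j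
    have hl0 : 0 < l := by
      have : l = N * q := by rw [hN]; field_simp
      rw [this]; positivity
    have hm0 : 0 ≤ min l (2 ^ j) / q := by positivity
    have hmN : min l (2 ^ j) / q ≤ N := by
      rw [hN]
      exact div_le_div_of_nonneg_right (min_le_left _ _) hq0.le
    have h2j : (2 : ℝ) ^ j = Real.exp (j * Real.log 2) := by
      rw [Real.exp_nat_mul, Real.exp_log (by norm_num)]
    have hjl : (j : ℝ) * Real.log 2 ≤ L :=
      le_trans (mul_le_mul_of_nonneg_right hjJ (by linarith)) hJL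
    have hA : min l (2 ^ j) / q * Real.exp (-(c * √j)) ≤ N * Real.exp (-(a * s)) := by
      by_cases hcase : (j : ℝ) ≤ ε * J / 4
      · have h1 : min l (2 ^ j) / q ≤ (2 : ℝ) ^ j := by
          refine (div_le_self (by positivity) hqR).trans (min_le_right _ _)
        have h2 : Real.exp (-(c * √j)) ≤ 1 := Real.exp_le_one_iff.2 (by
          have : 0 ≤ c * √j := by positivity
          linarith)
        have h3 : min l (2 ^ j) / q * Real.exp (-(c * √j)) ≤ 2 ^ j * 1 :=
          mul_le_mul h1 h2 (Real.exp_pos _).le (by positivity)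
        rw [mul_one] at h3
        refine (h3.trans (le_of_eq h2j)).trans (hNt _ ?_)
        have h4 : (j : ℝ) * Real.log 2 ≤ ε * J / 4 * Real.log 2 :=
          mul_le_mul_of_nonneg_right hcase (by linarith)
        have h5 : ε * J / 4 * Real.log 2 ≤ ε / 4 * L := by
          have : ε / 4 * (J * Real.log 2) ≤ ε / 4 * L :=
            mul_le_mul_of_nonneg_left hJL (by positivity)
          linarith
        have h6 : (j : ℝ) * Real.log 2 ≤ 1 / 4 * (ε * L) := by linarith
        linarith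
      · push Not at hcase
        refine mul_le_mul hmN (Real.exp_le_exp.2 ?_) (Real.exp_pos _).le hN0.le
        have h1 : √(ε / 8) * s ≤ √j := by
          rw [hs, ← Real.sqrt_mul (by positivity), ← hL]
          refine Real.sqrt_le_sqrt ?_
          have : ε * (L / 2) ≤ ε * J := mul_le_mul_of_nonneg_left hLJ2 hε.le
          linarith
        have h2 : a * s ≤ c * √(ε / 8) * s := mul_le_mul_of_nonneg_right ha1 hs0
        have h3 : c * (√(ε / 8) * s) ≤ c * √j := mul_le_mul_of_nonneg_left h1 hc.le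
        linarith
    have hB : (2 : ℝ) ^ (ε / 8 * j) * (√(min l (2 ^ j) / q) + 1) ≤
        2 * (N * Real.exp (-(a * s))) := by
      have h1 : (2 : ℝ) ^ (ε / 8 * j) ≤ Real.exp (1 / 8 * (ε * L)) := by
        rw [Real.rpow_def_of_pos (by norm_num)]
        refine Real.exp_le_exp.2 ?_
        have : ε / 8 * (j * Real.log 2) ≤ ε / 8 * L := mul_le_mul_of_nonneg_left hjl (by positivity)
        linarith
      have h2 : √(min l (2 ^ j) / q) + 1 ≤ 2 * √N := by
        have h3 : √(min l (2 ^ j) / q) ≤ √N := Real.sqrt_le_sqrt hmN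
        have h4 : 1 ≤ √N := by
          rw [Real.one_le_sqrt]
          exact hN1
        linarith
      have h5 : Real.exp (1 / 2 * (ε * L)) ≤ √N := by
        refine Real.le_sqrt_of_sq_le ?_
        rw [← Real.exp_nat_mul]
        refine le_trans (Real.exp_le_exp.2 ?_) hNX
        push_cast
        linarith
      have h6 : √N * √N = N := Real.mul_self_sqrt hN0.le
      have h7 : Real.exp (1 / 8 * (ε * L)) * √N ≤ N * Real.exp (-(a * s)) := by
        have h8 : Real.exp (1 / 8 * (ε * L)) ≤ √N * Real.exp (-(a * s)) := by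
          calc Real.exp (1 / 8 * (ε * L)) ≤ Real.exp (1 / 2 * (ε * L) + -(a * s)) :=
                Real.exp_le_exp.2 (by linarith)
            _ = Real.exp (1 / 2 * (ε * L)) * Real.exp (-(a * s)) := Real.exp_add _ _
            _ ≤ √N * Real.exp (-(a * s)) := mul_le_mul_of_nonneg_right h5 (Real.exp_pos _).le
        calc Real.exp (1 / 8 * (ε * L)) * √N ≤ √N * Real.exp (-(a * s)) * √N :=
              mul_le_mul_of_nonneg_right h8 (Real.sqrt_nonneg _)
          _ = √N * √N * Real.exp (-(a * s)) := by ring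
          _ = N * Real.exp (-(a * s)) := by rw [h6]
      calc (2 : ℝ) ^ (ε / 8 * j) * (√(min l (2 ^ j) / q) + 1)
          ≤ Real.exp (1 / 8 * (ε * L)) * (2 * √N) :=
            mul_le_mul h1 h2 (by positivity) (Real.exp_pos _).le
        _ = 2 * (Real.exp (1 / 8 * (ε * L)) * √N) := by ring
        _ ≤ 2 * (N * Real.exp (-(a * s))) := by linarith
    have hP : (1 + Real.log q) ^ (k + 1) ≤ (1 + L) ^ (k + 1) :=
      pow_le_pow_left₀ (by linarith) (by linarith) _
    refine mul_le_mul (mul_le_mul_of_nonneg_left hP hK.le) (by linarith) (by positivity)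
      (by positivity)
  have hsum := Finset.sum_le_sum hterm
  rw [sum_const, Nat.card_Icc, Nat.add_sub_cancel, nsmul_eq_mul] at hsum
  have h2 : 2 ≤ 2 * (N * Real.exp (-(a * s))) := by
    have := hNt 0 (by linarith)
    rw [Real.exp_zero] at this
    linarith
  obtain ⟨E, hE⟩ : ∃ E, E = N * Real.exp (-(a * s)) := ⟨_, rfl⟩
  have hE0 : 0 < E := by rw [hE]; positivity
  rw [← hE] at hsum h2
  have hP1 : (1 : ℝ) ≤ (1 + L) ^ (k + 2) := one_le_pow₀ (by linarith)
  have hmain : 2 + (J : ℝ) * (K * (1 + L) ^ (k + 1) * (3 * E)) ≤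
      (2 + 6 * K) * ((1 + L) ^ (k + 2) * E) := by
    have h3 : (J : ℝ) * (K * (1 + L) ^ (k + 1) * (3 * E)) ≤
        (2 * (1 + L)) * (K * (1 + L) ^ (k + 1) * (3 * E)) :=
      mul_le_mul_of_nonneg_right (by linarith) (by positivity)
    have h4 : (2 * (1 + L)) * (K * (1 + L) ^ (k + 1) * (3 * E)) =
        6 * K * ((1 + L) ^ (k + 2) * E) := by ring
    have h5 : 2 * E ≤ 2 * ((1 + L) ^ (k + 2) * E) := by nlinarith
    linarith
  have hpe : (1 + L) ^ (k + 2) ≤ M * Real.exp (a / 2 * s) := by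
    calc (1 + L) ^ (k + 2) ≤ ((1 + s) ^ 2) ^ (k + 2) :=
          pow_le_pow_left₀ (by linarith) (by rw [← hsq]; nlinarith) _
      _ = (1 + s) ^ (2 * (k + 2)) := (pow_mul _ _ _).symm
      _ ≤ M * Real.exp (a / 2 * s) := hMs s hs0
  have hfin : (1 + L) ^ (k + 2) * E ≤ M * (N * Real.exp (-(a / 2 * s))) := by
    calc (1 + L) ^ (k + 2) * E ≤ M * Real.exp (a / 2 * s) * E :=
          mul_le_mul_of_nonneg_right hpe hE0.le
      _ = M * (N * (Real.exp (a / 2 * s) * Real.exp (-(a * s)))) := by rw [hE]; ring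
      _ = M * (N * Real.exp (-(a / 2 * s))) := by
          rw [← Real.exp_add]
          congr 3
          ring
  have hfin2 : (2 + 6 * K) * ((1 + L) ^ (k + 2) * E) ≤
      (2 + 6 * K) * (M * (N * Real.exp (-(a / 2 * s)))) :=
    mul_le_mul_of_nonneg_left hfin (by positivity)
  rw [← hN, ← hs]
  calc _ ≤ 2 + (J : ℝ) * (K * (1 + L) ^ (k + 1) * (3 * E)) := by linarith
    _ ≤ (2 + 6 * K) * (M * (N * Real.exp (-(a / 2 * s)))) := hmain.trans hfin2
    _ = (2 + 6 * K) * M * N * Real.exp (-(a / 2 * s)) := by ring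

end Pool.MP_92ef0c_nt.PB
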